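import Pool.Agent.Bireg91.Families

/-!
# The meeting theorem
A 2-switch closed family and a row-exchange closed family containing a multiple of a perfect
matching have a common member.
-/

namespace Pool.Agent.Bireg91

open Finset

set_option linter.unusedSectionVars false

variable {V Z : Type*} [DecidableEq V] [DecidableEq Z]

/-- `G` is `D` times a perfect matching on `S` (edges labelled by `T`). -/
structure IsPM (S : Finset V) (T : Finset Z) (D : ℕ) (G : Z → Sym2 V) : Prop where
  mem : ∀ z ∈ T, ∀ v ∈ G z, v ∈ S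
  nd : ∀ z ∈ T, ¬ (G z).IsDiag
  deg : ∀ v ∈ S, (T.filter (fun z => v ∈ G z)).card = D
  pm : ∀ z ∈ T, ∀ z' ∈ T, ∀ v, v ∈ G z → v ∈ G z' → G z = G z'

/-- A family closed under relabelling the vertices of `S` and under the row exchanges. -/
structure Fam2 (S : Finset V) (T : Finset Z) (D : ℕ) (G0 : Z → Sym2 V)
    (𝒰 : Set (Z → Sym2 V)) : Prop where
  out : ∀ F ∈ 𝒰, ∀ z, z ∉ T → F z = G0 z
  perm : ∀ F ∈ 𝒰, ∀ π : Equiv.Perm V, (∀ v, v ∉ S → π v = v) → (fun z => (F z).map π) ∈ 𝒰
  row : ∀ F ∈ 𝒰, ∀ x ∈ S, ∀ x' ∈ S, x ≠ x' → ∃ φ : Z → Z,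
    Set.BijOn φ (T.filter (fun z => x ∈ F z ∧ x' ∉ F z) : Finset Z)
      (T.filter (fun z => x' ∈ F z ∧ x ∉ F z) : Finset Z) ∧
    ∀ Q ⊆ T.filter (fun z => x ∈ F z ∧ x' ∉ F z),
      (fun z => if z ∈ Q ∨ z ∈ Q.image φ then (F z).map (Equiv.swap x x') else F z) ∈ 𝒰
  pm : ∃ G ∈ 𝒰, IsPM S T D G

theorem IsPM.map {S : Finset V} {T : Finset Z} {D : ℕ} {G : Z → Sym2 V} (h : IsPM S T D G)
    {a b : V} (ha : a ∈ S) (hb : b ∈ S) :
    IsPM S T D (fun z => (G z).map (Equiv.swap a b)) := by
  have hS : ∀ v, Equiv.swap a b v ∈ S ↔ v ∈ S := by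
    intro v
    by_cases h1 : v = a
    · subst h1; simp [ha, hb]
    by_cases h2 : v = b
    · subst h2; simp [ha, hb]
    rw [Equiv.swap_apply_of_ne_of_ne h1 h2]
  have hmem : ∀ z v, v ∈ (G z).map (Equiv.swap a b) ↔ Equiv.swap a b v ∈ G z := by
    intro z v
    rw [Sym2.mem_map]
    constructor
    · rintro ⟨u, hu, rfl⟩; simpa using hu
    · intro hv; exact ⟨_, hv, by simp⟩
  refine ⟨?_, ?_, ?_, ?_⟩
  · intro z hz v hv
    exact (hS v).1 (h.mem z hz _ ((hmem z v).1 hv))
  · intro z hz hd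
    apply h.nd z hz
    revert hd
    induction G z using Sym2.ind with
    | _ p q => simp
  · intro v hv
    rw [← h.deg (Equiv.swap a b v) ((hS v).2 hv)]
    congr 1
    ext z
    simp only [mem_filter, hmem]
  · intro z hz z' hz' v hv hv'
    have := h.pm z hz z' hz' _ ((hmem z v).1 hv) ((hmem z' v).1 hv')
    simp only [this]

theorem sym2_map_eq {f : V → V} {p : Sym2 V} {a c : V} (h : p.map f = s(a, c)) :
    ∃ a1 c1, p = s(a1, c1) ∧ f a1 = a ∧ f c1 = c := by
  induction p using Sym2.ind with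
  | _ u v =>
    rw [Sym2.map_mk] at h
    rcases Sym2.eq_iff.1 h with ⟨h1, h2⟩ | ⟨h1, h2⟩
    · exact ⟨u, v, rfl, h1, h2⟩
    · exact ⟨v, u, Sym2.eq_swap, h2, h1⟩

/-- identification of `x'` with `x` -/
def merge (x x' : V) : V → V := fun v => if v = x' then x else v

theorem merge_ne {x x' : V} (h : x ≠ x') (v : V) : merge x x' v ≠ x' := by
  unfold merge
  split_ifs with h1
  · exact h
  · exact h1

theorem merge_of_ne {x x' v : V} (h : v ≠ x') : merge x x' v = v := if_neg h

theorem merge_self (x x' : V) : merge x x' x' = x := if_pos rfl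

theorem merge_eq {x x' u v : V} (h : merge x x' u = merge x x' v) (huv : u ≠ v) :
    s(u, v) = s(x, x') := by
  unfold merge at h
  split_ifs at h with h1 h2 h2
  · exact absurd (h1.trans h2.symm) huv
  · rw [h1, h]; exact Sym2.eq_swap
  · rw [h2, h]
  · exact absurd h huv

/-- data of one contraction step -/
structure Step (S : Finset V) (T Y : Finset Z) (D : ℕ) (y x x' : V) (E : Z → Sym2 V) : Prop where
  hyx : y ≠ x
  hyx' : y ≠ x'
  hxx' : x ≠ x'
  hy : y ∈ S
  hx : x ∈ S
  hx' : x' ∈ S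
  hYT : Y ⊆ T
  hYc : Y.card = D
  hY : ∀ z ∈ Y, E z = s(y, x) ∨ E z = s(y, x')

/-- the contracted family -/
def contr (T Y : Finset Z) (y x x' : V) (E2 G0 : Z → Sym2 V) (𝒯 : Set (Z → Sym2 V)) :
    Set (Z → Sym2 V) :=
  {E' | ∃ E ∈ 𝒯, (∀ z ∈ Y, E z = E2 z) ∧
    (∀ z ∈ T \ Y, y ∉ E z ∧ E z ≠ s(x, x') ∧ E' z = (E z).map (merge x x')) ∧
    ∀ z, z ∉ T \ Y → E' z = if z ∈ Y then s(y, x') else G0 z}

theorem contr_fam {S : Finset V} {T Y : Finset Z} {D : ℕ} {y x x' : V} {E2 G0 : Z → Sym2 V}
    {𝒯 : Set (Z → Sym2 V)} (hT : Fam1 S T D G0 𝒯) (st : Step S T Y D y x x' E2) :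
    Fam1 ((S.erase y).erase x') (T \ Y) D (fun z => if z ∈ Y then s(y, x') else G0 z)
      (contr T Y y x x' E2 G0 𝒯) := by
  classical
  refine ⟨?_, ?_, ?_, ?_, ?_, ?_⟩
  · rintro E' ⟨E, hE, h1, h2, h3⟩ z hz v hv
    obtain ⟨g1, g2, g3⟩ := h2 z hz
    rw [g3, Sym2.mem_map] at hv
    obtain ⟨u, hu, rfl⟩ := hv
    have huS := hT.mem E hE z (Finset.mem_sdiff.1 hz).1 u hu
    have huy : u ≠ y := fun h => g1 (h ▸ hu)
    by_cases hux : u = x'
    · rw [hux, merge_self]
      simp [st.hxx', st.hyx.symm, st.hx]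
    · rw [merge_of_ne hux]
      simp [hux, huy, huS]
  · rintro E' ⟨E, hE, h1, h2, h3⟩ z hz hd
    obtain ⟨g1, g2, g3⟩ := h2 z hz
    have hnd := hT.nd E hE z (Finset.mem_sdiff.1 hz).1
    rw [g3] at hd
    revert hd g2 hnd
    induction E z using Sym2.ind with
    | _ p q =>
      intro hd g2 hnd
      rw [Sym2.map_mk, Sym2.mk_isDiag_iff] at hd
      rw [Sym2.mk_isDiag_iff] at hnd
      exact g2 (merge_eq hd hnd)
  · rintro E' ⟨E, hE, h1, h2, h3⟩ v hv
    have hvx' : v ≠ x' := (Finset.mem_erase.1 hv).1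
    have hvy : v ≠ y := (Finset.mem_erase.1 (Finset.mem_erase.1 hv).2).1
    have hvS : v ∈ S := (Finset.mem_erase.1 (Finset.mem_erase.1 hv).2).2
    have split : ∀ w, (T.filter (fun z => w ∈ E z)).card
        = ((T \ Y).filter (fun z => w ∈ E z)).card + (Y.filter (fun z => w ∈ E z)).card := by
      intro w
      rw [← Finset.card_union_of_disjoint, ← Finset.filter_union,
        Finset.sdiff_union_of_subset st.hYT]
      exact Finset.disjoint_filter_filter Finset.sdiff_disjoint
    by_cases hvx : v = x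
    · subst hvx
      have e1 : (T \ Y).filter (fun z => v ∈ E' z)
          = (T \ Y).filter (fun z => v ∈ E z) ∪ (T \ Y).filter (fun z => x' ∈ E z) := by
        ext z
        simp only [mem_filter, mem_union]
        constructor
        · rintro ⟨hz, hvz⟩
          rw [(h2 z hz).2.2, Sym2.mem_map] at hvz
          obtain ⟨u, hu, huv⟩ := hvz
          by_cases hux : u = x'
          · right; exact ⟨hz, hux ▸ hu⟩
          · left
            rw [merge_of_ne hux] at huv
            exact ⟨hz, huv ▸ hu⟩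
        · rintro (⟨hz, hu⟩ | ⟨hz, hu⟩)
          · refine ⟨hz, ?_⟩
            rw [(h2 z hz).2.2, Sym2.mem_map]
            exact ⟨v, hu, merge_of_ne hvx'⟩
          · refine ⟨hz, ?_⟩
            rw [(h2 z hz).2.2, Sym2.mem_map]
            exact ⟨x', hu, merge_self _ _⟩
      have e2 : Disjoint ((T \ Y).filter (fun z => v ∈ E z)) ((T \ Y).filter (fun z => x' ∈ E z)) := by
        rw [Finset.disjoint_left]
        intro z hz hz'
        simp only [mem_filter] at hz hz'
        apply (h2 z hz.1).2.1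
        exact (Sym2.mem_and_mem_iff st.hxx').1 ⟨hz.2, hz'.2⟩
      have e3 : (Y.filter (fun z => v ∈ E z)).card + (Y.filter (fun z => x' ∈ E z)).card = D := by
        rw [← Finset.card_union_of_disjoint]
        · rw [← st.hYc]
          congr 1
          ext z
          simp only [mem_filter, mem_union]
          constructor
          · rintro (h | h) <;> exact h.1
          · intro h
            rcases st.hY z h with h' | h'
            · left; exact ⟨h, by rw [h1 z h, h']; simp⟩
            · right; exact ⟨h, by rw [h1 z h, h']; simp⟩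
        · rw [Finset.disjoint_left]
          intro z hz hz'
          simp only [mem_filter] at hz hz'
          rw [h1 z hz.1] at hz hz'
          rcases st.hY z hz.1 with h' | h'
          · rw [h'] at hz'
            simp only [Sym2.mem_iff] at hz'
            rcases hz'.2 with h | h
            · exact st.hyx' h.symm
            · exact st.hxx' h.symm
          · rw [h'] at hz
            simp only [Sym2.mem_iff] at hz
            rcases hz.2 with h | h
            · exact st.hyx h.symm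
            · exact st.hxx' h
      rw [e1, Finset.card_union_of_disjoint e2]
      have s1 := split v
      have s2 := split x'
      rw [hT.deg E hE v hvS] at s1
      rw [hT.deg E hE x' st.hx'] at s2
      omega
    · have e1 : (T \ Y).filter (fun z => v ∈ E' z) = (T \ Y).filter (fun z => v ∈ E z) := by
        apply Finset.filter_congr
        intro z hz
        rw [(h2 z hz).2.2, Sym2.mem_map]
        constructor
        · rintro ⟨u, hu, huv⟩
          by_cases hux : u = x'
          · rw [hux, merge_self] at huv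
            exact absurd huv.symm hvx
          · rw [merge_of_ne hux] at huv
            exact huv ▸ hu
        · intro hu
          exact ⟨v, hu, merge_of_ne hvx'⟩
      have e2 : Y.filter (fun z => v ∈ E z) = ∅ := by
        rw [Finset.filter_eq_empty_iff]
        intro z hz hvz
        rw [h1 z hz] at hvz
        rcases st.hY z hz with h' | h'
        · rw [h'] at hvz
          simp only [Sym2.mem_iff] at hvz
          rcases hvz with h | h
          · exact hvy h
          · exact hvx h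
        · rw [h'] at hvz
          simp only [Sym2.mem_iff] at hvz
          rcases hvz with h | h
          · exact hvy h
          · exact hvx' h
      have s1 := split v
      rw [hT.deg E hE v hvS, e2] at s1
      rw [e1]
      simpa using s1.symm
  · rintro E' ⟨E, hE, h1, h2, h3⟩ z hz
    exact h3 z hz
  · rintro E' ⟨E, hE, h1, h2, h3⟩ π hπ
    have hπm : ∀ z ∈ T \ Y, π z ∈ T \ Y := by
      intro z hz
      by_contra hcon
      have := hπ _ hcon
      have := π.injective this
      rw [this] at hcon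
      exact hcon hz
    refine ⟨E ∘ π, hT.perm E hE π (fun z hz => hπ z (fun h => hz (Finset.mem_sdiff.1 h).1)),
      ?_, ?_, ?_⟩
    · intro z hz
      have : π z = z := hπ z (fun h => (Finset.mem_sdiff.1 h).2 hz)
      simp only [Function.comp_apply, this]
      exact h1 z hz
    · intro z hz
      exact h2 (π z) (hπm z hz)
    · intro z hz
      simp only [Function.comp_apply, hπ z hz]
      exact h3 z hz
  · rintro E' ⟨E, hE, h1, h2, h3⟩ z hz z' hz' hzz a b c d hz1 hz2 hab had hcb hcd
    obtain ⟨g1, g2, g3⟩ := h2 z hz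
    obtain ⟨k1, k2, k3⟩ := h2 z' hz'
    obtain ⟨a1, c1, hEz, ha1, hc1⟩ := sym2_map_eq (g3.symm.trans hz1)
    obtain ⟨b1, d1, hEz', hb1, hd1⟩ := sym2_map_eq (k3.symm.trans hz2)
    have hzT := (Finset.mem_sdiff.1 hz)
    have hzT' := (Finset.mem_sdiff.1 hz')
    rw [hEz] at g1
    rw [hEz'] at k1
    simp only [Sym2.mem_iff, not_or] at g1 k1
    have key : ∀ p q p1 q1 r t r1 t1 : V, merge x x' p1 = p → merge x x' q1 = q →
        merge x x' r1 = r → merge x x' t1 = t → p ≠ q → r ≠ t → y ≠ p1 → y ≠ q1 → y ≠ r1 →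
        y ≠ t1 → Function.update (Function.update E z s(p1, q1)) z' s(r1, t1) ∈ 𝒯 →
        Function.update (Function.update E' z s(p, q)) z' s(r, t) ∈ contr T Y y x x' E2 G0 𝒯 := by
      intro p q p1 q1 r t r1 t1 e1 e2 e3 e4 hpq hrt i1 i2 i3 i4 hmem
      refine ⟨_, hmem, ?_, ?_, ?_⟩
      · intro k hk
        have hkz : k ≠ z := fun h => hzT.2 (h ▸ hk)
        have hkz' : k ≠ z' := fun h => hzT'.2 (h ▸ hk)
        rw [Function.update_of_ne hkz', Function.update_of_ne hkz]
        exact h1 k hk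
      · intro k hk
        by_cases hkz' : k = z'
        · subst hkz'
          rw [Function.update_self, Function.update_self]
          refine ⟨by simp [i3, i4], ?_, by rw [Sym2.map_mk, e3, e4]⟩
          intro h
          apply hrt
          rw [← e3, ← e4]
          rcases Sym2.eq_iff.1 h with ⟨h', h''⟩ | ⟨h', h''⟩
          · rw [h', h'', merge_self, merge_of_ne st.hxx']
          · rw [h', h'', merge_self, merge_of_ne st.hxx']
        · rw [Function.update_of_ne hkz', Function.update_of_ne hkz']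
          by_cases hkz : k = z
          · subst hkz
            rw [Function.update_self, Function.update_self]
            refine ⟨by simp [i1, i2], ?_, by rw [Sym2.map_mk, e1, e2]⟩
            intro h
            apply hpq
            rw [← e1, ← e2]
            rcases Sym2.eq_iff.1 h with ⟨h', h''⟩ | ⟨h', h''⟩
            · rw [h', h'', merge_self, merge_of_ne st.hxx']
            · rw [h', h'', merge_self, merge_of_ne st.hxx']
          · rw [Function.update_of_ne hkz, Function.update_of_ne hkz]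
            exact h2 k hk
      · intro k hk
        have hkz : k ≠ z := fun h => hk (h ▸ hz)
        have hkz' : k ≠ z' := fun h => hk (h ▸ hz')
        rw [Function.update_of_ne hkz', Function.update_of_ne hkz]
        exact h3 k hk
    have n1 : a1 ≠ b1 := fun h => hab (by rw [← ha1, ← hb1, h])
    have n2 : a1 ≠ d1 := fun h => had (by rw [← ha1, ← hd1, h])
    have n3 : c1 ≠ b1 := fun h => hcb (by rw [← hc1, ← hb1, h])
    have n4 : c1 ≠ d1 := fun h => hcd (by rw [← hc1, ← hd1, h])
    rcases hT.switch E hE z hzT.1 z' hzT'.1 hzz a1 b1 c1 d1 hEz hEz' n1 n2 n3 n4 with h | h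
    · left
      exact key b c b1 c1 a d a1 d1 hb1 hc1 ha1 hd1 hcb.symm had k1.1 g1.2 g1.1 k1.2 h
    · right
      exact key d c d1 c1 a b a1 b1 hd1 hc1 ha1 hb1 hcd.symm hab k1.2 g1.2 g1.1 k1.1 h

theorem ext_fam {S : Finset V} {T Y : Finset Z} {D : ℕ} {y x' : V} {G0 G : Z → Sym2 V}
    {𝒰 : Set (Z → Sym2 V)} (hU : Fam2 S T D G0 𝒰)
    (hYT : Y ⊆ T) (hG : G ∈ 𝒰) (hPM : IsPM S T D G) (hGY : ∀ z ∈ Y, G z = s(y, x'))
    (hY1 : ∀ z ∈ T, y ∈ G z → z ∈ Y) (hY2 : ∀ z ∈ T, x' ∈ G z → z ∈ Y) :
    Fam2 ((S.erase y).erase x') (T \ Y) D (fun z => if z ∈ Y then s(y, x') else G0 z)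
      {F | F ∈ 𝒰 ∧ ∀ z ∈ Y, F z = s(y, x')} := by
  classical
  have hS : ∀ v, v ∈ (S.erase y).erase x' ↔ v ≠ x' ∧ v ≠ y ∧ v ∈ S := by
    intro v; simp
  refine ⟨?_, ?_, ?_, ?_⟩
  · rintro F ⟨hF, hFY⟩ z hz
    by_cases hzY : z ∈ Y
    · simp only [hzY, if_true]; exact hFY z hzY
    · simp only [hzY, if_false]
      exact hU.out F hF z (fun h => hz (Finset.mem_sdiff.2 ⟨h, hzY⟩))
  · rintro F ⟨hF, hFY⟩ π hπ
    refine ⟨hU.perm F hF π (fun v hv => hπ v (fun h => hv ((hS v).1 h).2.2)), ?_⟩
    intro z hz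
    simp only [hFY z hz, Sym2.map_mk]
    rw [hπ y (fun h => ((hS y).1 h).2.1 rfl), hπ x' (fun h => ((hS x').1 h).1 rfl)]
  · rintro F ⟨hF, hFY⟩ a ha b hb hab
    rw [hS] at ha hb
    have hset : ∀ u w, u ≠ x' → u ≠ y → T.filter (fun z => u ∈ F z ∧ w ∉ F z)
        = (T \ Y).filter (fun z => u ∈ F z ∧ w ∉ F z) := by
      intro u w h1 h2
      ext z
      simp only [mem_filter, mem_sdiff]
      constructor
      · rintro ⟨hz, hu, hw⟩
        refine ⟨⟨hz, fun hzY => ?_⟩, hu, hw⟩
        rw [hFY z hzY] at hu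
        simp only [Sym2.mem_iff] at hu
        rcases hu with h | h
        · exact h2 h
        · exact h1 h
      · rintro ⟨⟨hz, _⟩, hu, hw⟩
        exact ⟨hz, hu, hw⟩
    obtain ⟨φ, hφ, hQ⟩ := hU.row F hF a ha.2.2 b hb.2.2 hab
    rw [hset a b ha.1 ha.2.1, hset b a hb.1 hb.2.1] at hφ
    rw [hset a b ha.1 ha.2.1] at hQ
    refine ⟨φ, hφ, ?_⟩
    intro Q hQs
    refine ⟨hQ Q hQs, ?_⟩
    intro z hz
    have h1 : z ∉ Q := fun h => by
      have := hQs h
      simp only [mem_filter, mem_sdiff] at this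
      exact this.1.2 hz
    have h2 : z ∉ Q.image φ := fun h => by
      obtain ⟨q, hq, hqz⟩ := Finset.mem_image.1 h
      have h3 := hφ.1 (Finset.mem_coe.2 (hQs hq))
      rw [hqz] at h3
      have h4 := Finset.mem_coe.1 h3
      simp only [mem_filter, mem_sdiff] at h4
      exact h4.1.2 hz
    simp only [h1, h2, or_self, if_false]
    exact hFY z hz
  · refine ⟨G, ⟨hG, hGY⟩, ?_, ?_, ?_, ?_⟩
    · intro z hz v hv
      rw [Finset.mem_sdiff] at hz
      rw [hS]
      refine ⟨fun h => hz.2 (hY2 z hz.1 (h ▸ hv)), fun h => hz.2 (hY1 z hz.1 (h ▸ hv)),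
        hPM.mem z hz.1 v hv⟩
    · intro z hz
      exact hPM.nd z (Finset.mem_sdiff.1 hz).1
    · intro v hv
      rw [hS] at hv
      rw [← hPM.deg v hv.2.2]
      congr 1
      ext z
      simp only [mem_filter, mem_sdiff]
      constructor
      · rintro ⟨⟨h1, _⟩, h2⟩; exact ⟨h1, h2⟩
      · rintro ⟨h1, h2⟩
        refine ⟨⟨h1, fun hzY => ?_⟩, h2⟩
        rw [hGY z hzY] at h2
        simp only [Sym2.mem_iff] at h2
        rcases h2 with h | h
        · exact hv.2.1 h
        · exact hv.1 h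
    · intro z hz z' hz' v
      exact hPM.pm z (Finset.mem_sdiff.1 hz).1 z' (Finset.mem_sdiff.1 hz').1 v

theorem sym2_eq_of_card_two {S : Finset V} (hS : S.card = 2) {p q : Sym2 V}
    (hp : ∀ v ∈ p, v ∈ S) (hq : ∀ v ∈ q, v ∈ S) (hpd : ¬ p.IsDiag) (hqd : ¬ q.IsDiag) :
    p = q := by
  obtain ⟨u, w, _, rfl⟩ := Finset.card_eq_two.1 hS
  have key : ∀ r : Sym2 V, (∀ v ∈ r, v ∈ ({u, w} : Finset V)) → ¬ r.IsDiag → r = s(u, w) := by
    intro r hr hrd
    induction r using Sym2.ind with
    | _ a b =>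
      have ha := hr a (by simp)
      have hb := hr b (by simp)
      rw [Sym2.mk_isDiag_iff] at hrd
      simp only [mem_insert, mem_singleton] at ha hb
      rcases ha with rfl | rfl <;> rcases hb with rfl | rfl
      · exact absurd rfl hrd
      · rfl
      · exact Sym2.eq_swap
      · exact absurd rfl hrd
  rw [key p hp hpd, key q hq hqd]

/-- **Meeting theorem.** -/
theorem meet {D : ℕ} (hD : 0 < D) : ∀ (h : ℕ) (S : Finset V) (T : Finset Z) (G0 : Z → Sym2 V)
    (𝒯 𝒰 : Set (Z → Sym2 V)), S.card = 2 * (h + 1) → T.card = (h + 1) * D →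
    Fam1 S T D G0 𝒯 → 𝒯.Nonempty → Fam2 S T D G0 𝒰 → ∃ E, E ∈ 𝒯 ∧ E ∈ 𝒰 := by
  classical
  intro h
  induction h with
  | zero =>
    rintro S T G0 𝒯 𝒰 hS _ hT ⟨E, hE⟩ hU
    obtain ⟨G, hG, hPM⟩ := hU.pm
    refine ⟨E, hE, ?_⟩
    have : E = G := by
      funext z
      by_cases hz : z ∈ T
      · exact sym2_eq_of_card_two (by simpa using hS) (hT.mem E hE z hz) (hPM.mem z hz)
          (hT.nd E hE z hz) (hPM.nd z hz)
      · rw [hT.out E hE z hz, hU.out G hG z hz]
    rw [this]; exact hG
  | succ h ih =>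
    intro S T G0 𝒯 𝒰 hS hTc hT hne hU
    obtain ⟨E1, hE1, y, hy, x, hx, x', hx', hyx, hyx', hxx', hP1, hcl1⟩ :=
      hT.exists_clean_ear hne (by omega) (by rw [hTc]; nlinarith)
    -- the perfect matching with the class `y x'`
    obtain ⟨G1, hG1, hPM1⟩ := hU.pm
    obtain ⟨z0, hz0, hyz0⟩ : ∃ z0 ∈ T, y ∈ G1 z0 := by
      have := hPM1.deg y hy
      have h2 : 0 < (T.filter (fun z => y ∈ G1 z)).card := by omega
      obtain ⟨z0, hz0⟩ := Finset.card_pos.1 h2
      exact ⟨z0, (Finset.mem_filter.1 hz0).1, (Finset.mem_filter.1 hz0).2⟩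
    obtain ⟨w, hw⟩ := hyz0
    have hwS : w ∈ S := hPM1.mem z0 hz0 w (by rw [hw]; simp)
    have hwy : y ≠ w := by
      rintro rfl
      exact hPM1.nd z0 hz0 (by rw [hw]; simp)
    obtain ⟨G, hG, hPM, hGz0⟩ : ∃ G ∈ 𝒰, IsPM S T D G ∧ G z0 = s(y, x') := by
      refine ⟨fun z => (G1 z).map (Equiv.swap w x'), hU.perm G1 hG1 _ ?_, hPM1.map hwS hx', ?_⟩
      · intro v hv
        apply Equiv.swap_apply_of_ne_of_ne
        · rintro rfl; exact hv hwS
        · rintro rfl; exact hv hx'
      · simp only [hw, Sym2.map_mk]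
        rw [Equiv.swap_apply_of_ne_of_ne hwy hyx', Equiv.swap_apply_left]
    set Y := T.filter (fun z => y ∈ G z) with hYdef
    have hYT : Y ⊆ T := Finset.filter_subset _ _
    have hYc : Y.card = D := hPM.deg y hy
    have hGY : ∀ z ∈ Y, G z = s(y, x') := by
      intro z hz
      rw [← hGz0]
      exact hPM.pm z (hYT hz) z0 hz0 y (Finset.mem_filter.1 hz).2 (by rw [hGz0]; simp)
    have hY1 : ∀ z ∈ T, y ∈ G z → z ∈ Y := fun z hz hyz => Finset.mem_filter.2 ⟨hz, hyz⟩
    have hY2 : ∀ z ∈ T, x' ∈ G z → z ∈ Y := by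
      intro z hz hxz
      apply hY1 z hz
      rw [hPM.pm z hz z0 hz0 x' hxz (by rw [hGz0]; simp), hGz0]
      simp
    -- move the ear of `E1` to the columns `Y`
    obtain ⟨π, hπ1, hπ2⟩ := exists_perm_finset hYT
      (Finset.filter_subset (fun z => y ∈ E1 z) T) (hYc.trans (hT.deg E1 hE1 y hy).symm)
    set E2 := E1 ∘ π with hE2def
    have hE2 : E2 ∈ 𝒯 := hT.perm E1 hE1 π hπ1
    have hyE2 : ∀ z ∈ T, (y ∈ E2 z ↔ z ∈ Y) := by
      intro z hz
      rw [(hπ2 z hz).1, Finset.mem_filter]
      exact ⟨fun h => ⟨(hπ2 z hz).2, h⟩, fun h => h.2⟩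
    have st : Step S T Y D y x x' E2 := by
      refine ⟨hyx, hyx', hxx', hy, hx, hx', hYT, hYc, ?_⟩
      intro z hz
      exact hP1 (π z) (hπ2 z (hYT hz)).2 ((hyE2 z (hYT hz)).2 hz)
    have hcl2 : ∀ z ∈ T, E2 z ≠ s(x, x') := fun z hz => hcl1 (π z) (hπ2 z hz).2
    have hF1 := contr_fam hT st
    have hF2 := ext_fam hU hYT hG hPM hGY hY1 hY2
    have hne' : (contr T Y y x x' E2 G0 𝒯).Nonempty := by
      refine ⟨fun z => if z ∈ T \ Y then (E2 z).map (merge x x') else
        if z ∈ Y then s(y, x') else G0 z, E2, hE2, fun _ _ => rfl, ?_, ?_⟩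
      · intro z hz
        have hz' := Finset.mem_sdiff.1 hz
        refine ⟨fun hh => hz'.2 ((hyE2 z hz'.1).1 hh), hcl2 z hz'.1, ?_⟩
        simp only [hz, if_true]
      · intro z hz
        simp only [hz, if_false]
    obtain ⟨E', hE'1, hE'2⟩ := ih ((S.erase y).erase x') (T \ Y) _ _ _
      (by
        rw [Finset.card_erase_of_mem (by simp [hx', hyx'.symm]), Finset.card_erase_of_mem hy]
        omega)
      (by
        rw [Finset.card_sdiff_of_subset hYT, hTc, hYc]
        have : (h + 1 + 1) * D = (h + 1) * D + D := by ring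
        omega) hF1 hne' hF2
    obtain ⟨E, hE, g1, g2, g3⟩ := hE'1
    obtain ⟨hE'U, hE'Y⟩ := hE'2
    obtain ⟨φ, hφ, hrow⟩ := hU.row E' hE'U x' hx' x hx hxx'.symm
    have hA : T.filter (fun z => x' ∈ E' z ∧ x ∉ E' z) = Y := by
      ext z
      simp only [mem_filter]
      constructor
      · rintro ⟨hz, h1, h2⟩
        by_contra hzY
        rw [(g2 z (Finset.mem_sdiff.2 ⟨hz, hzY⟩)).2.2, Sym2.mem_map] at h1
        obtain ⟨u, _, hu⟩ := h1
        exact merge_ne hxx' u hu
      · intro hz
        rw [hE'Y z hz]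
        simp [hYT hz, hyx.symm, hxx']
    rw [hA] at hφ hrow
    set B := T.filter (fun z => x ∈ E' z ∧ x' ∉ E' z) with hB
    set W := (T \ Y).filter (fun z => x' ∈ E z) with hW
    have hWB : W ⊆ B := by
      intro z hz
      rw [hW, Finset.mem_filter] at hz
      rw [hB, Finset.mem_filter]
      have hzT := (Finset.mem_sdiff.1 hz.1).1
      rw [(g2 z hz.1).2.2]
      refine ⟨hzT, Sym2.mem_map.2 ⟨x', hz.2, merge_self _ _⟩, ?_⟩
      rw [Sym2.mem_map]
      rintro ⟨u, _, hu⟩
      exact merge_ne hxx' u hu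
    set Q := Y.filter (fun z => φ z ∈ W) with hQ
    have hQY : Q ⊆ Y := Finset.filter_subset _ _
    have hQim : Q.image φ = W := by
      ext w
      constructor
      · intro hw
        obtain ⟨q, hq, rfl⟩ := Finset.mem_image.1 hw
        exact (Finset.mem_filter.1 hq).2
      · intro hw
        obtain ⟨q, hq, hqw⟩ := hφ.2.2 (Finset.mem_coe.2 (hWB hw))
        refine Finset.mem_image.2 ⟨q, Finset.mem_filter.2 ⟨Finset.mem_coe.1 hq, ?_⟩, hqw⟩
        rw [hqw]; exact hw
    have hQc : Q.card = W.card := by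
      rw [← hQim, Finset.card_image_of_injOn]
      intro a ha b hb hab
      exact hφ.2.1 (Finset.mem_coe.2 (hQY ha)) (Finset.mem_coe.2 (hQY hb)) hab
    set Yx := Y.filter (fun z => E z = s(y, x)) with hYx
    have hYx' : ∀ z ∈ Y, z ∉ Yx → E z = s(y, x') := by
      intro z hz hn
      rcases st.hY z hz with h1 | h1
      · exact absurd (Finset.mem_filter.2 ⟨hz, (g1 z hz).trans h1⟩) hn
      · exact (g1 z hz).trans h1
    have hWc : W.card = Yx.card := by
      have s1 : (T.filter (fun z => x' ∈ E z)).card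
          = W.card + (Y.filter (fun z => x' ∈ E z)).card := by
        rw [hW, ← Finset.card_union_of_disjoint, ← Finset.filter_union,
          Finset.sdiff_union_of_subset hYT]
        exact Finset.disjoint_filter_filter Finset.sdiff_disjoint
      rw [hT.deg E hE x' hx'] at s1
      have s2 : (Y.filter (fun z => x' ∈ E z)) = Y \ Yx := by
        ext z
        simp only [mem_filter, mem_sdiff, hYx]
        constructor
        · rintro ⟨hz, hxz⟩
          refine ⟨hz, ?_⟩
          rintro ⟨_, h2⟩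
          rw [h2] at hxz
          simp only [Sym2.mem_iff] at hxz
          rcases hxz with h | h
          · exact hyx' h.symm
          · exact hxx' h.symm
        · rintro ⟨hz, hn⟩
          refine ⟨hz, ?_⟩
          rw [hYx' z hz (by rw [hYx, Finset.mem_filter]; exact hn)]
          simp
      have s3 : (Y \ Yx).card + Yx.card = Y.card :=
        Finset.card_sdiff_add_card_eq_card (Finset.filter_subset _ _)
      rw [s2] at s1
      omega
    obtain ⟨τ, hτ1, hτ2⟩ := exists_perm_finset hQY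
      (Finset.filter_subset (fun z => E z = s(y, x)) Y) (hQc.trans hWc)
    refine ⟨E ∘ τ, hT.perm E hE τ (fun z hz => hτ1 z (fun h => hz (hYT h))), ?_⟩
    have hfin := hrow Q hQY
    rw [hQim] at hfin
    convert hfin using 1
    funext z
    simp only [Function.comp_apply]
    by_cases hzY : z ∈ Y
    · have hzW : z ∉ W := fun h => (Finset.mem_sdiff.1 (Finset.mem_filter.1 h).1).2 hzY
      by_cases hzQ : z ∈ Q
      · simp only [hzQ, true_or, if_true]
        have := ((hτ2 z hzY).1).1 hzQ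
        rw [(Finset.mem_filter.1 this).2, hE'Y z hzY, Sym2.map_mk,
          Equiv.swap_apply_of_ne_of_ne hyx' hyx, Equiv.swap_apply_left]
      · simp only [hzQ, hzW, or_self, if_false]
        rw [hE'Y z hzY]
        exact hYx' _ (hτ2 z hzY).2 (fun h => hzQ (((hτ2 z hzY).1).2 h))
    · rw [hτ1 z hzY]
      have hzQ : z ∉ Q := fun h => hzY (hQY h)
      by_cases hzT : z ∈ T
      · have hzd : z ∈ T \ Y := Finset.mem_sdiff.2 ⟨hzT, hzY⟩
        obtain ⟨k1, k2, k3⟩ := g2 z hzd
        by_cases hzW : z ∈ W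
        · simp only [hzQ, hzW, or_true, if_true]
          rw [k3]
          obtain ⟨v, hv⟩ := (Finset.mem_filter.1 hzW).2
          have hnd := hT.nd E hE z hzT
          rw [hv] at hnd k1 k2 ⊢
          rw [Sym2.mk_isDiag_iff] at hnd
          simp only [Sym2.mem_iff, not_or] at k1
          have hvx : v ≠ x := by
            rintro rfl
            exact k2 Sym2.eq_swap
          rw [Sym2.map_mk, merge_self, merge_of_ne (Ne.symm hnd), Sym2.map_mk,
            Equiv.swap_apply_right, Equiv.swap_apply_of_ne_of_ne (Ne.symm hnd) hvx]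
        · simp only [hzQ, hzW, or_self, if_false]
          rw [k3]
          have hx'z : x' ∉ E z := fun h => hzW (Finset.mem_filter.2 ⟨hzd, h⟩)
          revert hx'z
          induction E z using Sym2.ind with
          | _ p q =>
            intro hx'z
            simp only [Sym2.mem_iff, not_or] at hx'z
            rw [Sym2.map_mk, merge_of_ne (Ne.symm hx'z.1), merge_of_ne (Ne.symm hx'z.2)]
      · have hzW : z ∉ W := fun h =>
          hzT (Finset.mem_sdiff.1 (Finset.mem_filter.1 h).1).1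
        simp only [hzQ, hzW, or_self, if_false]
        rw [hT.out E hE z hzT, hU.out E' hE'U z hzT]

end Pool.Agent.Bireg91
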