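import Pool.Agent.Bireg91.Glue
import Pool.Agent.Bireg91.Meet

/-!
# The two families of accepted edge assignments
-/

namespace Pool.Agent.Bireg91

open Finset

/-- `O` is a feasible table of column counts for the row contents `N`. -/
def Feas {R C X : Type} [Fintype R] [Fintype C] [DecidableEq X] (N : R → X → ℕ)
    (O : C → X → ℕ) : Prop :=
  ∃ pos : R → C → X, (∀ r x, cnt univ (pos r) x = N r x) ∧
    ∀ c x, cnt univ (fun r => pos r c) x = O c x

theorem upd1 {p s t : Prop} [Decidable p] [Decidable s] [Decidable t] {n Q : ℕ}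
    (hs : s → p) (ht : t → ¬ p)
    (h : n + (if s then 1 else 0) = (if p then Q + 1 else Q) + (if t then 1 else 0)) :
    n = if (p ∧ ¬ s) ∨ t then Q + 1 else Q := by
  by_cases h1 : s
  · have h2 := hs h1
    have h3 : ¬ t := fun h => ht h h2
    rw [if_pos h1, if_pos h2, if_neg h3] at h
    rw [if_neg (by tauto)]
    omega
  · by_cases h3 : t
    · have h2 := ht h3
      rw [if_neg h1, if_neg h2, if_pos h3] at h
      rw [if_pos (by tauto)]
      omega
    · by_cases h2 : p
      · rw [if_neg h1, if_pos h2, if_neg h3] at h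
        rw [if_pos (by tauto)]
        omega
      · rw [if_neg h1, if_neg h2, if_neg h3] at h
        rw [if_neg (by tauto)]
        omega

theorem upd2 {p s t : Prop} [Decidable p] [Decidable s] [Decidable t] {n P : ℕ}
    (hs : s → p) (ht : t → ¬ p)
    (h : n + (if t then 1 else 0) = (if p then P else P + 1) + (if s then 1 else 0)) :
    n = if (p ∧ ¬ s) ∨ t then P else P + 1 := by
  by_cases h1 : s
  · have h2 := hs h1
    have h3 : ¬ t := fun h => ht h h2
    rw [if_pos h1, if_pos h2, if_neg h3] at h
    rw [if_neg (by tauto)]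
    omega
  · by_cases h3 : t
    · have h2 := ht h3
      rw [if_neg h1, if_neg h2, if_pos h3] at h
      rw [if_pos (by tauto)]
      omega
    · by_cases h2 : p
      · rw [if_neg h1, if_pos h2, if_neg h3] at h
        rw [if_pos (by tauto)]
        omega
      · rw [if_neg h1, if_neg h2, if_neg h3] at h
        rw [if_neg (by tauto)]
        omega

theorem ite_congr_mem {P Q : ℕ} {p q : Prop} [Decidable p] [Decidable q] (h : p ↔ q) :
    (if p then P else Q) = (if q then P else Q) := by
  by_cases hp : p
  · rw [if_pos hp, if_pos (h.1 hp)]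
  · rw [if_neg hp, if_neg (fun hq => hp (h.2 hq))]

section

variable {R C X : Type} [Fintype R] [Fintype C] [Fintype X] [DecidableEq R] [DecidableEq C]
  [DecidableEq X]

omit [Fintype X] in
theorem Feas.exch {N : R → X → ℕ} {F : C → Finset X} {P Q : ℕ} (hPQ : P = Q + 1 ∨ Q = P + 1)
    (hF : Feas N (fun k x => if x ∈ F k then P else Q)) {c c' : C} (hcc : c ≠ c')
    (hcard : (F c \ F c').card = (F c' \ F c).card) :
    ∃ σ : X → X, Set.BijOn σ (F c \ F c' : Finset X) (F c' \ F c : Finset X) ∧
      ∀ S ⊆ F c \ F c', Feas N (fun k x => if x ∈ (if k = c then (F c \ S) ∪ S.image σ else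
        if k = c' then (F c' \ S.image σ) ∪ S else F k) then P else Q) := by
  classical
  obtain ⟨pos, hpos1, hpos2⟩ := hF
  beta_reduce at hpos2
  have hSσ : ∀ σ : X → X, Set.BijOn σ (F c \ F c' : Finset X) (F c' \ F c : Finset X) →
      ∀ S ⊆ F c \ F c', (∀ x, x ∈ S → x ∈ F c ∧ x ∉ F c') ∧
        (∀ x, x ∈ S.image σ → x ∈ F c' ∧ x ∉ F c) := by
    intro σ hσ S hS
    refine ⟨fun x hx => Finset.mem_sdiff.1 (hS hx), ?_⟩
    intro x hx
    obtain ⟨y, hy, rfl⟩ := Finset.mem_image.1 hx
    exact Finset.mem_sdiff.1 (hσ.mapsTo (hS hy))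
  rcases hPQ with hPQ | hPQ
  · subst hPQ
    obtain ⟨σ, hσ, h⟩ := kempe_pos pos c c' (F c \ F c') (F c' \ F c) hcard (by
      intro x
      rw [hpos2, hpos2]
      simp only [Finset.mem_sdiff]
      by_cases h1 : x ∈ F c <;> by_cases h2 : x ∈ F c' <;> simp [h1, h2])
    refine ⟨σ, hσ, ?_⟩
    intro S hS
    obtain ⟨pos', h1, h2, h3, h4⟩ := h S hS
    obtain ⟨hS', hS''⟩ := hSσ σ hσ S hS
    refine ⟨pos', fun r x => (h1 r x).trans (hpos1 r x), ?_⟩
    intro k x
    beta_reduce
    by_cases hk : k = c
    · rw [if_pos hk, hk]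
      have h5 := h3 x
      rw [hpos2] at h5
      rw [upd1 (fun h => (hS' x h).1) (fun h => (hS'' x h).2) h5]
      apply ite_congr_mem
      rw [Finset.mem_union, Finset.mem_sdiff]
    · rw [if_neg hk]
      by_cases hk' : k = c'
      · rw [if_pos hk', hk']
        have h5 := h4 x
        rw [hpos2] at h5
        rw [upd1 (fun h => (hS'' x h).1) (fun h => (hS' x h).2) h5]
        apply ite_congr_mem
        rw [Finset.mem_union, Finset.mem_sdiff]
      · rw [if_neg hk', h2 k hk hk' x, hpos2]
  · subst hPQ
    obtain ⟨σ, hσ, h⟩ := kempe_pos pos c' c (F c \ F c') (F c' \ F c) hcard (by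
      intro x
      rw [hpos2, hpos2]
      simp only [Finset.mem_sdiff]
      by_cases h1 : x ∈ F c <;> by_cases h2 : x ∈ F c' <;> simp [h1, h2])
    refine ⟨σ, hσ, ?_⟩
    intro S hS
    obtain ⟨pos', h1, h2, h3, h4⟩ := h S hS
    obtain ⟨hS', hS''⟩ := hSσ σ hσ S hS
    refine ⟨pos', fun r x => (h1 r x).trans (hpos1 r x), ?_⟩
    intro k x
    beta_reduce
    by_cases hk : k = c
    · rw [if_pos hk, hk]
      have h5 := h4 x
      rw [hpos2] at h5
      rw [upd2 (fun h => (hS' x h).1) (fun h => (hS'' x h).2) h5]
      apply ite_congr_mem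
      rw [Finset.mem_union, Finset.mem_sdiff]
    · rw [if_neg hk]
      by_cases hk' : k = c'
      · rw [if_pos hk', hk']
        have h5 := h3 x
        rw [hpos2] at h5
        rw [upd2 (fun h => (hS'' x h).1) (fun h => (hS' x h).2) h5]
        apply ite_congr_mem
        rw [Finset.mem_union, Finset.mem_sdiff]
      · rw [if_neg hk', h2 k hk' hk x, hpos2]

omit [Fintype X] [DecidableEq R] [DecidableEq C] in
theorem Feas.perm {N : R → X → ℕ} {O : C → X → ℕ} (h : Feas N O) (π : Equiv.Perm C) :
    Feas N (fun c x => O (π c) x) := by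
  classical
  obtain ⟨pos, h1, h2⟩ := h
  refine ⟨fun r c => pos r (π c), ?_, fun c x => h2 (π c) x⟩
  intro r x
  rw [← h1 r x]
  unfold cnt
  apply Finset.card_bij (fun c _ => π c)
  · intro c hc
    simp only [mem_filter, mem_univ, true_and] at hc ⊢
    exact hc
  · intro c _ c' _ h; exact π.injective h
  · intro c hc
    simp only [mem_filter, mem_univ, true_and] at hc
    exact ⟨π.symm c, by simp [hc], by simp⟩

omit [Fintype X] [DecidableEq R] [DecidableEq C] in
theorem sum_cnt {A : Type} [Fintype A] (s : A → C → X) (x : X) :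
    ∑ c, cnt univ (fun r => s r c) x = ∑ r, cnt univ (s r) x := by
  classical
  unfold cnt
  simp only [Finset.card_filter]
  exact Finset.sum_comm

omit [DecidableEq R] [Fintype X] in
theorem Feas.rowsum {N : R → X → ℕ} {O : C → X → ℕ} (h : Feas N O) (x : X) :
    ∑ c, O c x = ∑ r, N r x := by
  obtain ⟨pos, h1, h2⟩ := h
  calc ∑ c, O c x = ∑ c, cnt univ (fun r => pos r c) x :=
        Finset.sum_congr rfl (fun c _ => (h2 c x).symm)
    _ = ∑ r, cnt univ (pos r) x := sum_cnt pos x
    _ = ∑ r, N r x := Finset.sum_congr rfl (fun r _ => h1 r x)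

omit [DecidableEq R] [DecidableEq C] in
theorem Feas.colsum {N : R → X → ℕ} {O : C → X → ℕ} (h : Feas N O) (c : C) :
    ∑ x, O c x = Fintype.card R := by
  classical
  obtain ⟨pos, h1, h2⟩ := h
  calc ∑ x, O c x = ∑ x, cnt univ (fun r => pos r c) x :=
        Finset.sum_congr rfl (fun x _ => (h2 c x).symm)
    _ = Fintype.card R := by
        unfold cnt
        rw [← Finset.card_univ (α := R)]
        exact (Finset.card_eq_sum_card_fiberwise (fun r _ => mem_univ _)).symm

end

theorem sum_ite_pq {A : Type} [Fintype A] (p : A → Prop) [DecidablePred p] (P Q : ℕ) :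
    ∑ a, (if p a then P else Q)
      = (univ.filter p).card * P + (Fintype.card A - (univ.filter p).card) * Q := by
  classical
  rw [Finset.sum_ite, Finset.sum_const, Finset.sum_const, smul_eq_mul, smul_eq_mul]
  congr 2
  have := Finset.card_filter_add_card_filter_not (s := (univ : Finset A)) (p := p)
  rw [Finset.card_univ] at this
  omega

theorem pq_inj {P Q n t D : ℕ} (hPQ : P = Q + 1 ∨ Q = P + 1) (ht : t ≤ n) (hD : D ≤ n)
    (h : t * P + (n - t) * Q = D * P + (n - D) * Q) : t = D := by
  obtain ⟨a, rfl⟩ := Nat.exists_eq_add_of_le ht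
  obtain ⟨b, hb⟩ := Nat.exists_eq_add_of_le hD
  have e1 : t + a - t = a := by omega
  have e2 : t + a - D = b := by omega
  rw [e1, e2] at h
  have h3 : (t : ℤ) + a = D + b := by exact_mod_cast hb
  have h4 : (t : ℤ) * P + a * Q = D * P + b * Q := by exact_mod_cast h
  have h5 : ((t : ℤ) - D) * ((P : ℤ) - Q) = 0 := by
    have : (a : ℤ) = D + b - t := by linarith
    rw [this] at h4
    linear_combination h4
  rcases mul_eq_zero.1 h5 with h6 | h6
  · have : (t : ℤ) = D := by linarith
    exact_mod_cast this
  · exfalso
    rcases hPQ with rfl | rfl <;> push_cast at h6 <;> linarith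

section

variable {R Z V : Type} [Fintype R] [Fintype Z] [Fintype V] [DecidableEq R] [DecidableEq Z]
  [DecidableEq V]

/-- loopless edge assignments accepted as column counts -/
def fam1 (N : R → V → ℕ) (P Q : ℕ) : Set (Z → Sym2 V) :=
  {E | (∀ z, ¬ (E z).IsDiag) ∧ Feas N (fun z x => if x ∈ E z then P else Q)}

/-- edge assignments accepted as row counts -/
def fam2 (N : R → Z → ℕ) (P Q : ℕ) : Set (Z → Sym2 V) :=
  {E | Feas N (fun (x : V) (z : Z) => if x ∈ E z then P else Q)}

theorem fam1_is {N : R → V → ℕ} {P Q D : ℕ} (G0 : Z → Sym2 V) (hPQ : P = Q + 1 ∨ Q = P + 1)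
    (hD : D ≤ Fintype.card Z)
    (hdeg : ∀ x, ∑ r, N r x = D * P + (Fintype.card Z - D) * Q) :
    Fam1 univ univ D G0 (fam1 N P Q : Set (Z → Sym2 V)) := by
  classical
  refine ⟨fun _ _ _ _ _ _ => mem_univ _, fun E hE z _ => hE.1 z, ?_,
    fun E _ z hz => absurd (mem_univ z) hz, ?_, ?_⟩
  · intro E hE v _
    have h1 := hE.2.rowsum v
    rw [hdeg, sum_ite_pq] at h1
    exact pq_inj hPQ (Finset.card_le_univ _) hD h1
  · intro E hE π _
    exact ⟨fun z => hE.1 (π z), hE.2.perm π⟩
  · intro E hE z _ z' _ hzz a b c d hEz hEz' hab had hcb hcd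
    have hac : a ≠ c := by
      intro h; apply hE.1 z; rw [hEz, h]; exact Sym2.mk_isDiag_iff.2 rfl
    have hbd : b ≠ d := by
      intro h; apply hE.1 z'; rw [hEz', h]; exact Sym2.mk_isDiag_iff.2 rfl
    let F : Z → Finset V := fun z => univ.filter (fun x => x ∈ E z)
    have hF : Feas N (fun k x => if x ∈ F k then P else Q) := by
      obtain ⟨pos, h1, h2⟩ := hE.2
      refine ⟨pos, h1, fun c x => ?_⟩
      rw [h2]
      exact ite_congr_mem (by simp [F])
    have hFz : F z = {a, c} := by
      ext x; simp [F, hEz]
    have hFz' : F z' = {b, d} := by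
      ext x; simp [F, hEz']
    have e1 : F z \ F z' = {a, c} := by
      rw [hFz, hFz']
      ext x
      simp only [mem_sdiff, mem_insert, mem_singleton, not_or]
      constructor
      · exact fun h => h.1
      · rintro (rfl | rfl)
        · exact ⟨Or.inl rfl, hab, had⟩
        · exact ⟨Or.inr rfl, hcb, hcd⟩
    have e2 : F z' \ F z = {b, d} := by
      rw [hFz, hFz']
      ext x
      simp only [mem_sdiff, mem_insert, mem_singleton, not_or]
      constructor
      · exact fun h => h.1
      · rintro (rfl | rfl)
        · exact ⟨Or.inl rfl, hab.symm, hcb.symm⟩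
        · exact ⟨Or.inr rfl, had.symm, hcd.symm⟩
    have hcard : (F z \ F z').card = (F z' \ F z).card := by
      rw [e1, e2, Finset.card_pair hac, Finset.card_pair hbd]
    obtain ⟨σ, hσ, h⟩ := hF.exch hPQ hzz hcard
    rw [e1, e2] at hσ
    have hσa : σ a = b ∨ σ a = d := by
      have : σ a ∈ (({b, d} : Finset V) : Set V) := hσ.mapsTo (by simp)
      simpa using this
    have h' := h {a} (by rw [e1]; simp)
    rw [Finset.image_singleton] at h'
    -- the new assignment
    have key : ∀ o : V, σ a ≠ o → ({b, d} : Finset V) = {σ a, o} →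
        Function.update (Function.update E z s(σ a, c)) z' s(a, o) ∈ fam1 N P Q := by
      intro o ho hset
      have ho' : o ∈ ({b, d} : Finset V) := by rw [hset]; simp
      have ho2 : a ≠ o := by
        simp only [mem_insert, mem_singleton] at ho'
        rcases ho' with rfl | rfl
        · exact hab
        · exact had
      have hs2 : σ a ≠ c := by
        rcases hσa with h | h
        · rw [h]; exact hcb.symm
        · rw [h]; exact hcd.symm
      refine ⟨?_, ?_⟩
      · intro k
        by_cases hk : k = z'
        · subst hk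
          rw [Function.update_self, Sym2.mk_isDiag_iff]
          exact ho2
        · rw [Function.update_of_ne hk]
          by_cases hk2 : k = z
          · subst hk2
            rw [Function.update_self, Sym2.mk_isDiag_iff]
            exact hs2
          · rw [Function.update_of_ne hk2]
            exact hE.1 k
      · obtain ⟨pos, h1, h2⟩ := h'
        refine ⟨pos, h1, fun k x => ?_⟩
        rw [h2]
        apply ite_congr_mem
        by_cases hk : k = z'
        · subst hk
          rw [if_neg hzz.symm, if_pos rfl, Function.update_self, hFz', hset]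
          simp only [mem_union, mem_sdiff, mem_insert, mem_singleton, Sym2.mem_iff]
          constructor
          · rintro (⟨h1 | h1, h2⟩ | h1)
            · exact absurd h1 h2
            · exact Or.inr h1
            · exact Or.inl h1
          · rintro (h1 | h1)
            · exact Or.inr h1
            · exact Or.inl ⟨Or.inr h1, by rw [h1]; exact ho.symm⟩
        · rw [Function.update_of_ne hk]
          by_cases hk2 : k = z
          · subst hk2
            rw [if_pos rfl, Function.update_self, hFz]
            simp only [mem_union, mem_sdiff, mem_insert, mem_singleton, Sym2.mem_iff]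
            constructor
            · rintro (⟨h1 | h1, h2⟩ | h1)
              · exact absurd h1 h2
              · exact Or.inr h1
              · exact Or.inl h1
            · rintro (h1 | h1)
              · exact Or.inr h1
              · exact Or.inl ⟨Or.inr h1, by rw [h1]; exact hac.symm⟩
          · rw [if_neg hk2, if_neg hk, Function.update_of_ne hk2]
            simp [F]
    rcases hσa with h1 | h1
    · left
      have := key d (by rw [h1]; exact hbd) (by rw [h1])
      rw [h1] at this
      exact this
    · right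
      have := key b (by rw [h1]; exact hbd.symm) (by rw [h1]; exact Finset.pair_comm b d)
      rw [h1] at this
      exact this

theorem fam2_is {N : R → Z → ℕ} {P Q D : ℕ} (G0 : Z → Sym2 V) (hPQ : P = Q + 1 ∨ Q = P + 1)
    (hpm : ∃ G ∈ (fam2 N P Q : Set (Z → Sym2 V)), IsPM univ univ D G) :
    Fam2 univ univ D G0 (fam2 N P Q : Set (Z → Sym2 V)) := by
  classical
  refine ⟨fun E _ z hz => absurd (mem_univ z) hz, ?_, ?_, hpm⟩
  · intro F hF π _
    have h := Feas.perm hF π.symm
    obtain ⟨pos, h1, h2⟩ := h
    refine ⟨pos, h1, fun x z => ?_⟩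
    rw [h2]
    apply ite_congr_mem
    rw [Sym2.mem_map]
    constructor
    · intro h; exact ⟨_, h, by simp⟩
    · rintro ⟨y, hy, rfl⟩; simpa using hy
  · intro F hF x _ x' _ hxx
    let G : V → Finset Z := fun x => univ.filter (fun z => x ∈ F z)
    have hG : Feas N (fun k z => if z ∈ G k then P else Q) := by
      obtain ⟨pos, h1, h2⟩ := hF
      refine ⟨pos, h1, fun c x => ?_⟩
      rw [h2]
      exact ite_congr_mem (by simp [G])
    have e1 : G x \ G x' = univ.filter (fun z => x ∈ F z ∧ x' ∉ F z) := by
      ext z; simp [G]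
    have e2 : G x' \ G x = univ.filter (fun z => x' ∈ F z ∧ x ∉ F z) := by
      ext z; simp [G]
    have hc : (G x).card = (G x').card := by
      have h1 := hG.colsum x
      have h2 := hG.colsum x'
      rw [sum_ite_pq] at h1 h2
      have e3 : ∀ y, univ.filter (fun z => z ∈ G y) = G y := fun y => by ext z; simp
      simp only [e3] at h1 h2
      exact pq_inj hPQ (Finset.card_le_univ _) (Finset.card_le_univ _) (h1.trans h2.symm)
    have hcard : (G x \ G x').card = (G x' \ G x).card := by
      have a1 := Finset.card_sdiff_add_card_inter (G x) (G x')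
      have a2 := Finset.card_sdiff_add_card_inter (G x') (G x)
      rw [Finset.inter_comm] at a2
      omega
    obtain ⟨σ, hσ, h⟩ := hG.exch hPQ hxx hcard
    rw [e1, e2] at hσ
    refine ⟨σ, hσ, ?_⟩
    intro S hS
    obtain ⟨pos, h1, h2⟩ := h S (by rw [e1]; exact hS)
    refine ⟨pos, h1, fun k z => ?_⟩
    rw [h2]
    apply ite_congr_mem
    beta_reduce
    have hS1 : ∀ z, z ∈ S → x ∈ F z ∧ x' ∉ F z := fun z hz => by
      have := hS hz
      simpa using this
    have hS2 : ∀ z, z ∈ S.image σ → x' ∈ F z ∧ x ∉ F z := by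
      intro z hz
      obtain ⟨y, hy, rfl⟩ := Finset.mem_image.1 hz
      have : σ y ∈ ((univ.filter (fun z => x' ∈ F z ∧ x ∉ F z) : Finset Z) : Set Z) :=
        hσ.mapsTo (hS hy)
      simpa using this
    have hmem : ∀ z v, v ∈ (F z).map (Equiv.swap x x') ↔ Equiv.swap x x' v ∈ F z := by
      intro z v
      rw [Sym2.mem_map]
      constructor
      · rintro ⟨u, hu, rfl⟩; simpa using hu
      · intro hv; exact ⟨_, hv, by simp⟩
    by_cases hk : k = x
    · subst hk
      rw [if_pos rfl]
      by_cases hz1 : z ∈ S
      · have h3 := hS1 z hz1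
        have hz2 : z ∉ S.image σ := fun h => (hS2 z h).2 h3.1
        rw [if_pos (Or.inl hz1), hmem, Equiv.swap_apply_left]
        simp only [mem_union, mem_sdiff]
        constructor
        · rintro (h4 | h4)
          · exact absurd hz1 h4.2
          · exact absurd h4 hz2
        · intro h4; exact absurd h4 h3.2
      · by_cases hz2 : z ∈ S.image σ
        · have h3 := hS2 z hz2
          rw [if_pos (Or.inr hz2), hmem, Equiv.swap_apply_left]
          simp only [mem_union, mem_sdiff]
          exact ⟨fun _ => h3.1, fun _ => Or.inr hz2⟩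
        · rw [if_neg (by rintro (h | h); exacts [hz1 h, hz2 h])]
          simp only [mem_union, mem_sdiff, hz1, hz2, or_false, not_false_eq_true, and_true]
          simp [G]
    · rw [if_neg hk]
      by_cases hk' : k = x'
      · subst hk'
        rw [if_pos rfl]
        by_cases hz1 : z ∈ S
        · have h3 := hS1 z hz1
          rw [if_pos (Or.inl hz1), hmem, Equiv.swap_apply_right]
          simp only [mem_union, mem_sdiff]
          exact ⟨fun _ => h3.1, fun _ => Or.inr hz1⟩
        · by_cases hz2 : z ∈ S.image σ
          · have h3 := hS2 z hz2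
            rw [if_pos (Or.inr hz2), hmem, Equiv.swap_apply_right]
            simp only [mem_union, mem_sdiff]
            constructor
            · rintro (h4 | h4)
              · exact absurd hz2 h4.2
              · exact absurd h4 hz1
            · intro h4; exact absurd h4 h3.2
          · rw [if_neg (by rintro (h | h); exacts [hz1 h, hz2 h])]
            simp only [mem_union, mem_sdiff, hz1, hz2, or_false, not_false_eq_true, and_true]
            simp [G]
      · rw [if_neg hk']
        by_cases hz : z ∈ S ∨ z ∈ S.image σ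
        · rw [if_pos hz, hmem, Equiv.swap_apply_of_ne_of_ne hk hk']
          simp [G]
        · rw [if_neg hz]
          simp [G]

end

end Pool.Agent.Bireg91
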