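import Pool.Agent.Bireg91.Accept

/-!
# The two core cases
-/

namespace Pool.Agent.Bireg91

open Finset

/-- signed form of `init` -/
theorem init_signed {E X R C B0 : Type} [Fintype E] [Fintype X] [Fintype R] [Fintype C]
    [Fintype B0] [DecidableEq E] [DecidableEq X] [DecidableEq R] [DecidableEq C] [DecidableEq B0]
    (u : E → X) (w : E → R) (d D K P Q s : ℕ) (side : X → B0)
    (hw : ∀ r, (univ.filter (fun e => w e = r)).card = Fintype.card C)
    (hu : ∀ x, (univ.filter (fun e => u e = x)).card = d)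
    (hside : ∀ β, (univ.filter (fun x => side x = β)).card = s)
    (hcase : (Q = P + 1 ∧ d + D = Q * Fintype.card C ∧ 0 < K) ∨
      (P = Q + 1 ∧ d = Q * Fintype.card C + D ∧ K < s))
    (hD : D ≤ Fintype.card C) (hK : s * D = K * Fintype.card C) :
    ∃ (pos : R → C → X) (Λ : X → Finset C),
      (∀ r x, cnt univ (pos r) x = (univ.filter (fun e => w e = r ∧ u e = x)).card) ∧
      (∀ x, (Λ x).card = D) ∧
      (∀ β c, (univ.filter (fun x => side x = β ∧ c ∈ Λ x)).card = K) ∧
      ∀ x c, cnt univ (fun r => pos r c) x = if c ∈ Λ x then P else Q := by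
  classical
  rcases hcase with ⟨h1, h2, h3⟩ | ⟨h1, h2, h3⟩
  · obtain ⟨κ, rfl⟩ : ∃ κ, K = κ + 1 := ⟨K - 1, by omega⟩
    subst h1
    obtain ⟨pos, Λ, a1, a2, a3, a4⟩ := init u w d D P κ s side hw hu h2 hD hside hK
    refine ⟨pos, Λ, a1, a2, a3, ?_⟩
    intro x c
    have := a4 x c
    by_cases hc : c ∈ Λ x
    · rw [if_pos hc] at this ⊢; omega
    · rw [if_neg hc] at this ⊢; omega
  · obtain ⟨κ, hκ⟩ : ∃ κ, s = K + (κ + 1) := ⟨s - K - 1, by omega⟩
    subst h1
    set n := Fintype.card C with hn
    have e1 : d + (n - D) = (Q + 1) * n := by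
      rw [h2, add_mul, one_mul]; omega
    have e2 : s * (n - D) = (κ + 1) * n := by
      have h4 : s * (n - D) + s * D = s * n := by
        rw [← mul_add, Nat.sub_add_cancel hD]
      rw [hK] at h4
      have h5 : s * n = K * n + (κ + 1) * n := by rw [hκ, add_mul]
      omega
    obtain ⟨pos, Λ, a1, a2, a3, a4⟩ := init u w d (n - D) Q κ s side hw hu e1 (Nat.sub_le _ _)
      hside e2
    refine ⟨pos, fun x => (Λ x)ᶜ, a1, ?_, ?_, ?_⟩
    · intro x
      rw [Finset.card_compl, a2, ← hn]; omega
    · intro β c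
      have h4 := a3 β c
      have h5 := hside β
      have h6 : (univ.filter (fun x => side x = β ∧ c ∈ (Λ x)ᶜ)).card
          + (univ.filter (fun x => side x = β ∧ c ∈ Λ x)).card
          = (univ.filter (fun x => side x = β)).card := by
        have := Finset.card_filter_add_card_filter_not (s := univ.filter (fun x => side x = β))
          (p := fun x => c ∈ (Λ x)ᶜ)
        rw [Finset.filter_filter, Finset.filter_filter] at this
        rw [← this]
        congr 2
        ext x
        simp
      beta_reduce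
      omega
    · intro x c
      have := a4 x c
      by_cases hc : c ∈ Λ x
      · rw [if_pos hc] at this
        rw [if_neg (by simp [hc])]
        omega
      · rw [if_neg hc] at this
        rw [if_pos (by simp [hc])]
        omega

theorem pick1 {A B : Type} [Fintype A] (p : B → A → Prop) [∀ b, DecidablePred (p b)]
    (h : ∀ b, (univ.filter (fun a => p b a)).card = 1) :
    ∃ f : B → A, ∀ b a, p b a ↔ f b = a := by
  classical
  have h' : ∀ b, ∃ a, univ.filter (fun a => p b a) = {a} := fun b => Finset.card_eq_one.1 (h b)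
  choose f hf using h'
  refine ⟨f, fun b a => ?_⟩
  have : a ∈ univ.filter (fun a => p b a) ↔ a = f b := by rw [hf b, mem_singleton]
  rw [mem_filter] at this
  constructor
  · intro h1; exact (this.1 ⟨mem_univ _, h1⟩).symm
  · intro h1; exact (this.2 h1.symm).2

theorem equiv_of_fibres {A B J : Type} [Fintype A] [Fintype B] [DecidableEq J] (f : A → J)
    (g : B → J)
    (h : ∀ j, (univ.filter (fun a => f a = j)).card = (univ.filter (fun b => g b = j)).card) :
    ∃ e : A ≃ B, ∀ a, g (e a) = f a := by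
  classical
  have h1 : ∀ j, Nonempty ({a // f a = j} ≃ {b // g b = j}) := by
    intro j
    apply Fintype.card_eq.1
    rw [Fintype.card_subtype, Fintype.card_subtype]
    exact h j
  exact ⟨Equiv.ofFiberEquiv (fun j => (h1 j).some), fun a => Equiv.ofFiberEquiv_map _ a⟩

/-- A common table of counts yields the bijection. -/
theorem bij_of_common {E1 E2 L1 L2 R1 R2 : Type} [Fintype E1] [Fintype E2] [Fintype L1]
    [Fintype L2] [Fintype R1] [Fintype R2] [DecidableEq E1] [DecidableEq E2] [DecidableEq L1]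
    [DecidableEq L2] [DecidableEq R1] [DecidableEq R2] (u1 : E1 → L1) (v1 : E1 → R1)
    (u2 : E2 → L2) (v2 : E2 → R2) (O : L2 → L1 → ℕ)
    (h1 : Feas (fun r x => (univ.filter (fun e => v1 e = r ∧ u1 e = x)).card) O)
    (h2 : Feas (fun r z => (univ.filter (fun e => v2 e = r ∧ u2 e = z)).card)
      (fun x z => O z x)) :
    ∃ ψ : E1 ≃ E2, (Function.Bijective (fun e => (u2 (ψ e), v1 e))) ∧
      Function.Bijective (fun e => (u1 (ψ.symm e), v2 e)) := by
  obtain ⟨pos1, a1, b1⟩ := h1
  obtain ⟨pos2, a2, b2⟩ := h2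
  beta_reduce at a1 a2 b2
  obtain ⟨φ1, hφ1⟩ := equiv_of_fibres (fun e => (v1 e, u1 e))
    (fun p : R1 × L2 => (p.1, pos1 p.1 p.2)) (by
      rintro ⟨r, x⟩
      have h3 := a1 r x
      have e1 : (univ.filter (fun a => (v1 a, u1 a) = (r, x))).card
          = (univ.filter (fun e => v1 e = r ∧ u1 e = x)).card := by
        congr 1; ext e; simp
      rw [e1, ← h3]
      unfold cnt
      apply Finset.card_bij (fun z _ => (r, z))
      · intro z hz
        simp only [mem_filter, mem_univ, true_and] at hz ⊢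
        simp [hz]
      · intro z _ z' _ h; exact (Prod.ext_iff.1 h).2
      · rintro ⟨r', z⟩ hz
        simp only [mem_filter, mem_univ, true_and, Prod.mk.injEq] at hz
        obtain ⟨rfl, hz⟩ := hz
        exact ⟨z, by simp [hz], rfl⟩)
  obtain ⟨φ2, hφ2⟩ := equiv_of_fibres (fun e => (v2 e, u2 e))
    (fun p : R2 × L1 => (p.1, pos2 p.1 p.2)) (by
      rintro ⟨r, x⟩
      have h3 := a2 r x
      have e1 : (univ.filter (fun a => (v2 a, u2 a) = (r, x))).card
          = (univ.filter (fun e => v2 e = r ∧ u2 e = x)).card := by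
        congr 1; ext e; simp
      rw [e1, ← h3]
      unfold cnt
      apply Finset.card_bij (fun z _ => (r, z))
      · intro z hz
        simp only [mem_filter, mem_univ, true_and] at hz ⊢
        simp [hz]
      · intro z _ z' _ h; exact (Prod.ext_iff.1 h).2
      · rintro ⟨r', z⟩ hz
        simp only [mem_filter, mem_univ, true_and, Prod.mk.injEq] at hz
        obtain ⟨rfl, hz⟩ := hz
        exact ⟨z, by simp [hz], rfl⟩)
  obtain ⟨κ, hκ⟩ := equiv_of_fibres (fun p : R1 × L2 => (pos1 p.1 p.2, p.2))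
    (fun p : R2 × L1 => (p.2, pos2 p.1 p.2)) (by
      rintro ⟨x, z⟩
      have e1 : (univ.filter (fun p : R1 × L2 => (pos1 p.1 p.2, p.2) = (x, z))).card
          = O z x := by
        rw [← b1 z x]
        unfold cnt
        symm
        apply Finset.card_bij (fun r _ => (r, z))
        · intro r hr
          simp only [mem_filter, mem_univ, true_and] at hr ⊢
          simp [hr]
        · intro z _ z' _ h; exact (Prod.ext_iff.1 h).1
        · rintro ⟨r', z'⟩ hz
          simp only [mem_filter, mem_univ, true_and, Prod.mk.injEq] at hz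
          obtain ⟨hz, rfl⟩ := hz
          exact ⟨r', by simp [hz], rfl⟩
      have e2 : (univ.filter (fun p : R2 × L1 => (p.2, pos2 p.1 p.2) = (x, z))).card
          = O z x := by
        rw [← b2 x z]
        unfold cnt
        symm
        apply Finset.card_bij (fun r _ => (r, x))
        · intro r hr
          simp only [mem_filter, mem_univ, true_and] at hr ⊢
          simp [hr]
        · intro z _ z' _ h; exact (Prod.ext_iff.1 h).1
        · rintro ⟨r', z'⟩ hz
          simp only [mem_filter, mem_univ, true_and, Prod.mk.injEq] at hz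
          obtain ⟨rfl, hz⟩ := hz
          exact ⟨r', by simp [hz], rfl⟩
      rw [e1, e2])
  have k1 : ∀ e, (φ1 e).1 = v1 e ∧ pos1 (φ1 e).1 (φ1 e).2 = u1 e := by
    intro e
    have := hφ1 e
    simp only [Prod.mk.injEq] at this
    exact this
  have k2 : ∀ e, (φ2 e).1 = v2 e ∧ pos2 (φ2 e).1 (φ2 e).2 = u2 e := by
    intro e
    have := hφ2 e
    simp only [Prod.mk.injEq] at this
    exact this
  have k3 : ∀ p : R1 × L2, (κ p).2 = pos1 p.1 p.2 ∧ pos2 (κ p).1 (κ p).2 = p.2 := by
    intro p
    have := hκ p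
    simp only [Prod.mk.injEq] at this
    exact this
  refine ⟨φ1.trans (κ.trans φ2.symm), ?_, ?_⟩
  · have h3 : (fun e => (u2 ((φ1.trans (κ.trans φ2.symm)) e), v1 e))
        = fun e => (Equiv.prodComm R1 L2) (φ1 e) := by
      funext e
      have h4 := k2 (φ2.symm (κ (φ1 e)))
      rw [Equiv.apply_symm_apply] at h4
      have h5 := (k3 (φ1 e)).2
      simp only [Equiv.trans_apply, Equiv.prodComm_apply]
      rw [← h4.2, h5, ← (k1 e).1]
      rfl
    rw [h3]
    exact (φ1.trans (Equiv.prodComm R1 L2)).bijective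
  · have h3 : (fun e => (u1 ((φ1.trans (κ.trans φ2.symm)).symm e), v2 e))
        = fun e => (Equiv.prodComm R2 L1) (φ2 e) := by
      funext e
      obtain ⟨e1, he1⟩ : ∃ e1, (φ1.trans (κ.trans φ2.symm)) e1 = e :=
        (φ1.trans (κ.trans φ2.symm)).surjective e
      have h6 : (φ1.trans (κ.trans φ2.symm)).symm e = e1 := by
        rw [← he1, Equiv.symm_apply_apply]
      rw [h6]
      have h7 : φ2 e = κ (φ1 e1) := by
        rw [← he1]; simp
      simp only [Equiv.prodComm_apply]
      rw [← (k2 e).1, h7]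
      have h5 := (k3 (φ1 e1)).1
      rw [(k1 e1).2] at h5
      rw [← h5]
      rfl
    rw [h3]
    exact (φ2.trans (Equiv.prodComm R2 L1)).bijective

/-- Case of one deviating entry per column. -/
theorem core_one {E1 E2 V Z R1 R2 : Type} [Fintype E1] [Fintype E2] [Fintype V]
    [Fintype Z] [Fintype R1] [Fintype R2] [DecidableEq E1] [DecidableEq E2] [DecidableEq V]
    [DecidableEq Z] [DecidableEq R1] [DecidableEq R2] (u1 : E1 → V) (v1 : E1 → R1)
    (u2 : E2 → Z) (v2 : E2 → R2) (n k D P Q : ℕ) (hV : Fintype.card V = n)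
    (hZ : Fintype.card Z = n * D) (hD : 0 < D)
    (du1 : ∀ x, (univ.filter (fun e => u1 e = x)).card = k * D)
    (dv1 : ∀ x, (univ.filter (fun e => v1 e = x)).card = n * D)
    (du2 : ∀ x, (univ.filter (fun e => u2 e = x)).card = k)
    (dv2 : ∀ x, (univ.filter (fun e => v2 e = x)).card = n)
    (hcase : (Q = P + 1 ∧ k + 1 = Q * n) ∨ (P = Q + 1 ∧ k = Q * n + 1 ∧ 1 < n)) :
    ∃ ψ : E1 ≃ E2, (Function.Bijective (fun e => (u2 (ψ e), v1 e))) ∧
      Function.Bijective (fun e => (u1 (ψ.symm e), v2 e)) := by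
  classical
  have hn : 0 < n := by
    rcases hcase with ⟨_, h⟩ | ⟨_, _, h⟩
    · rcases Nat.eq_zero_or_pos n with h0 | h0
      · rw [h0] at h; omega
      · exact h0
    · omega
  -- first multigraph
  obtain ⟨pos1, Λ1, a1, b1, c1, d1⟩ := init_signed u1 v1 (k * D) D 1 P Q n (fun _ => ())
    (fun r => by rw [dv1, hZ]) du1 (fun β => by
      rw [← hV, ← Finset.card_univ]; congr 1; ext x; simp)
    (by
      rw [hZ]
      rcases hcase with ⟨h1, h2⟩ | ⟨h1, h2, h3⟩
      · left
        refine ⟨h1, ?_, Nat.one_pos⟩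
        calc k * D + D = (k + 1) * D := by ring
          _ = Q * (n * D) := by rw [h2]; ring
      · right
        refine ⟨h1, ?_, h3⟩
        rw [h2]; ring)
    (by rw [hZ]; exact Nat.le_mul_of_pos_left _ hn) (by rw [hZ]; ring)
  obtain ⟨f, hf⟩ := pick1 (fun (z : Z) (x : V) => z ∈ Λ1 x) (fun z => by
    rw [← c1 () z]; congr 1; ext x; simp)
  have hf1 : ∀ x, (univ.filter (fun z => f z = x)).card = D := by
    intro x
    rw [← b1 x]
    congr 1
    ext z
    simp only [mem_filter, mem_univ, true_and]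
    exact (hf z x).symm
  have hF1 : Feas (fun r x => (univ.filter (fun e => v1 e = r ∧ u1 e = x)).card)
      (fun z x => if f z = x then P else Q) :=
    ⟨pos1, a1, fun z x => by rw [d1]; exact ite_congr_mem (hf z x)⟩
  -- second multigraph
  obtain ⟨pos2, Λ2, a2, b2, c2, d2⟩ := init_signed u2 v2 k 1 D P Q (n * D) (fun _ => ())
    (fun r => by rw [dv2, hV]) du2 (fun β => by
      rw [← hZ, ← Finset.card_univ]; congr 1; ext x; simp)
    (by
      rw [hV]
      rcases hcase with ⟨h1, h2⟩ | ⟨h1, h2, h3⟩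
      · left
        exact ⟨h1, h2, hD⟩
      · right
        refine ⟨h1, h2, ?_⟩
        calc D = 1 * D := (one_mul D).symm
          _ < n * D := Nat.mul_lt_mul_of_pos_right h3 hD)
    (by rw [hV]; exact hn) (by rw [hV]; ring)
  obtain ⟨g, hg⟩ := pick1 (fun (z : Z) (x : V) => x ∈ Λ2 z) (fun z => by
    rw [← b2 z]; congr 1; ext x; simp)
  have hg1 : ∀ x, (univ.filter (fun z => g z = x)).card = D := by
    intro x
    rw [← c2 () x]
    congr 1
    ext z
    simp only [mem_filter, mem_univ, true_and]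
    exact (hg z x).symm
  have hF2 : Feas (fun r z => (univ.filter (fun e => v2 e = r ∧ u2 e = z)).card)
      (fun x z => if g z = x then P else Q) :=
    ⟨pos2, a2, fun x z => by rw [d2]; exact ite_congr_mem (hg z x)⟩
  obtain ⟨σ, hσ⟩ := equiv_of_fibres g f (fun x => by rw [hf1, hg1])
  have hF1' := hF1.perm σ
  refine bij_of_common u1 v1 u2 v2 (fun z x => if g z = x then P else Q) ?_ hF2
  obtain ⟨pos, p1, p2⟩ := hF1'
  exact ⟨pos, p1, fun z x => by rw [p2]; exact ite_congr_mem (by rw [hσ])⟩

/-- signed form of `glue` -/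
theorem glue_signed {E Z R C : Type} [Fintype E] [Fintype Z] [Fintype R] [Fintype C]
    [DecidableEq E] [DecidableEq Z] [DecidableEq R] [DecidableEq C]
    (u : E → Z) (w : E → R) (t : E → Bool) (β P Q : ℕ)
    (hw : ∀ r i, (univ.filter (fun e => w e = r ∧ t e = i)).card = Fintype.card C)
    (hu : ∀ z i, (univ.filter (fun e => u e = z ∧ t e = i)).card = β)
    (hC : 0 < Fintype.card C)
    (hcase : (Q = P + 1 ∧ β + 1 = Q * Fintype.card C) ∨
      (P = Q + 1 ∧ β = Q * Fintype.card C + 1)) :
    ∃ (c : E → C) (f : Z → C), (∀ r i j, ∃! e, w e = r ∧ t e = i ∧ c e = j) ∧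
      ∀ z i j, (univ.filter (fun e => u e = z ∧ t e = i ∧ c e = j)).card
        = if f z = j then P else Q := by
  classical
  rcases hcase with ⟨h1, h2⟩ | ⟨h1, h2⟩
  · subst h1
    obtain ⟨c, Λ, a1, a2, a3⟩ := glue u w t β 1 P hw hu h2 hC
    obtain ⟨f, hf⟩ := pick1 (fun (z : Z) (x : C) => x ∈ Λ z) (fun z => by
      rw [← a2 z]; congr 1; ext x; simp)
    refine ⟨c, f, a1, ?_⟩
    intro z i j
    have := a3 z i j
    by_cases hj : j ∈ Λ z
    · rw [if_pos hj] at this
      rw [if_pos ((hf z j).1 hj)]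
      omega
    · rw [if_neg hj] at this
      rw [if_neg (fun h => hj ((hf z j).2 h))]
      omega
  · subst h1
    obtain ⟨c, Λ, a1, a2, a3⟩ := glue u w t β (Fintype.card C - 1) Q hw hu
      (by rw [h2, add_mul]; omega) (Nat.sub_le _ _)
    obtain ⟨f, hf⟩ := pick1 (fun (z : Z) (x : C) => x ∉ Λ z) (fun z => by
      have h3 : (univ.filter (fun x => x ∉ Λ z)) = (Λ z)ᶜ := by ext x; simp
      rw [h3, Finset.card_compl, a2]; omega)
    refine ⟨c, f, a1, ?_⟩
    intro z i j
    have := a3 z i j
    by_cases hj : j ∈ Λ z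
    · rw [if_pos hj] at this
      rw [if_neg (fun h => ((hf z j).2 h) hj)]
      omega
    · rw [if_neg hj] at this
      rw [if_pos ((hf z j).1 hj)]
      omega

end Pool.Agent.Bireg91
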