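import Pool.Agent.Bireg91.Core

/-!
# The core case of two deviating entries per column
-/

namespace Pool.Agent.Bireg91

open Finset

/-- The first family is nonempty. -/
theorem fam1_nonempty {E V Z R : Type} [Fintype E] [Fintype V] [Fintype Z] [Fintype R]
    [DecidableEq E] [DecidableEq V] [DecidableEq Z] [DecidableEq R] (u : E → V) (w : E → R)
    (h β D P Q : ℕ) (ι : V ≃ Bool × Fin h) (hh : 0 < h)
    (hZ : Fintype.card Z = h * D)
    (hu : ∀ x, (univ.filter (fun e => u e = x)).card = D * β)
    (hw : ∀ x, (univ.filter (fun e => w e = x)).card = h * D)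
    (hcase : (Q = P + 1 ∧ β + 1 = Q * h) ∨ (P = Q + 1 ∧ β = Q * h + 1 ∧ 1 < h)) :
    (fam1 (fun r x => (univ.filter (fun e => w e = r ∧ u e = x)).card) P Q :
      Set (Z → Sym2 V)).Nonempty := by
  classical
  obtain ⟨pos, Λ, a1, b1, c1, d1⟩ := init_signed u w (D * β) D 1 P Q h (fun x => (ι x).1)
    (fun r => by rw [hw, hZ]) hu (fun b => by
      have e1 : (univ.filter (fun x => (ι x).1 = b)).card
          = ((univ : Finset (Fin h)).image (fun i => ι.symm (b, i))).card := by
        congr 1
        ext x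
        simp only [mem_filter, mem_univ, true_and, mem_image]
        constructor
        · rintro rfl; exact ⟨(ι x).2, by simp⟩
        · rintro ⟨i, rfl⟩; simp
      rw [e1, Finset.card_image_of_injective, Finset.card_univ, Fintype.card_fin]
      intro i j hij
      have := ι.symm.injective hij
      exact (Prod.ext_iff.1 this).2)
    (by
      rw [hZ]
      rcases hcase with ⟨h1, h2⟩ | ⟨h1, h2, h3⟩
      · left
        refine ⟨h1, ?_, Nat.one_pos⟩
        calc D * β + D = (β + 1) * D := by ring
          _ = Q * (h * D) := by rw [h2]; ring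
      · right
        refine ⟨h1, ?_, h3⟩
        rw [h2]; ring)
    (by rw [hZ]; exact Nat.le_mul_of_pos_left _ hh) (by rw [hZ]; ring)
  have hpick : ∀ b : Bool, ∃ f : Z → V, ∀ z x, ((ι x).1 = b ∧ z ∈ Λ x) ↔ f z = x := fun b =>
    pick1 (fun (z : Z) (x : V) => (ι x).1 = b ∧ z ∈ Λ x) (fun z => c1 b z)
  choose f hf using hpick
  have hfb : ∀ b z, (ι (f b z)).1 = b := fun b z => ((hf b z (f b z)).2 rfl).1
  refine ⟨fun z => s(f false z, f true z), ?_, pos, a1, ?_⟩
  · intro z
    rw [Sym2.mk_isDiag_iff]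
    intro h1
    have h2 := hfb false z
    rw [h1, hfb true z] at h2
    exact absurd h2 (by simp)
  · intro z x
    rw [d1]
    apply ite_congr_mem
    rw [Sym2.mem_iff]
    constructor
    · intro hz
      by_cases hb : (ι x).1 = true
      · right; exact ((hf true z x).1 ⟨hb, hz⟩).symm
      · left
        have hb' : (ι x).1 = false := by
          revert hb; cases (ι x).1 <;> simp
        exact ((hf false z x).1 ⟨hb', hz⟩).symm
    · rintro (h1 | h1)
      · exact ((hf false z x).2 h1.symm).2
      · exact ((hf true z x).2 h1.symm).2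

/-- The second family contains a multiple of a perfect matching. -/
theorem fam2_pm {E V Z R : Type} [Fintype E] [Fintype V] [Fintype Z] [Fintype R]
    [DecidableEq E] [DecidableEq V] [DecidableEq Z] [DecidableEq R] (u : E → Z) (w : E → R)
    (h β D P Q : ℕ) (ι : V ≃ Bool × Fin h) (hh : 0 < h) (hβ : 0 < β)
    (hZ : Fintype.card Z = h * D) (hR : Fintype.card R = D * β)
    (hu : ∀ x, (univ.filter (fun e => u e = x)).card = β * 2)
    (hw : ∀ x, (univ.filter (fun e => w e = x)).card = h * 2)
    (hcase : (Q = P + 1 ∧ β + 1 = Q * h) ∨ (P = Q + 1 ∧ β = Q * h + 1)) :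
    ∃ G ∈ (fam2 (fun r x => (univ.filter (fun e => w e = r ∧ u e = x)).card) P Q :
      Set (Z → Sym2 V)), IsPM univ univ D G := by
  classical
  obtain ⟨h', rfl⟩ : ∃ h', h = h' + 1 := ⟨h - 1, by omega⟩
  obtain ⟨β', rfl⟩ : ∃ β', β = β' + 1 := ⟨β - 1, by omega⟩
  obtain ⟨t, t1, t2⟩ := halve w u h' β' hw hu
  obtain ⟨c, f, g1, g2⟩ := glue_signed (C := Fin (h' + 1)) u w t (β' + 1) P Q
    (fun r i => by rw [t1, Fintype.card_fin]) t2 (by rw [Fintype.card_fin]; exact hh)
    (by rw [Fintype.card_fin]; exact hcase)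
  choose e he hue using g1
  have he' : ∀ r i j, w (e r i j) = r ∧ t (e r i j) = i ∧ c (e r i j) = j := he
  let G : Z → Sym2 V := fun z => s(ι.symm (false, f z), ι.symm (true, f z))
  have hG : ∀ z x, x ∈ G z ↔ f z = (ι x).2 := by
    intro z x
    simp only [G, Sym2.mem_iff]
    constructor
    · rintro (rfl | rfl) <;> simp
    · intro h1
      by_cases hb : (ι x).1 = true
      · right
        rw [h1, ← hb]
        simp
      · left
        have hb' : (ι x).1 = false := by
          revert hb; cases (ι x).1 <;> simp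
        rw [h1, ← hb']
        simp
  have hfeas : Feas (fun r x => (univ.filter (fun e => w e = r ∧ u e = x)).card)
      (fun (x : V) (z : Z) => if x ∈ G z then P else Q) := by
    refine ⟨fun r x => u (e r (ι x).1 (ι x).2), ?_, ?_⟩
    · intro r z
      unfold cnt
      apply Finset.card_bij (fun x _ => e r (ι x).1 (ι x).2)
      · intro x hx
        simp only [mem_filter, mem_univ, true_and] at hx ⊢
        exact ⟨(he' _ _ _).1, hx⟩
      · intro x _ x' _ hxx
        have h1 := he' r (ι x).1 (ι x).2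
        have h2 := he' r (ι x').1 (ι x').2
        rw [← hxx] at h2
        apply ι.injective
        exact Prod.ext (h1.2.1.symm.trans h2.2.1) (h1.2.2.symm.trans h2.2.2)
      · intro a ha
        simp only [mem_filter, mem_univ, true_and] at ha
        have h1 : a = e r (t a) (c a) := hue r (t a) (c a) a ⟨ha.1, rfl, rfl⟩
        refine ⟨ι.symm (t a, c a), ?_, ?_⟩
        · simp only [mem_filter, mem_univ, true_and, Equiv.apply_symm_apply]
          rw [← h1]; exact ha.2
        · simp only [Equiv.apply_symm_apply]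
          exact h1.symm
    · intro x z
      have h1 : cnt univ (fun r => u (e r (ι x).1 (ι x).2)) z
          = (univ.filter (fun a => u a = z ∧ t a = (ι x).1 ∧ c a = (ι x).2)).card := by
        unfold cnt
        apply Finset.card_bij (fun r _ => e r (ι x).1 (ι x).2)
        · intro r hr
          simp only [mem_filter, mem_univ, true_and] at hr ⊢
          exact ⟨hr, (he' _ _ _).2⟩
        · intro r _ r' _ hrr
          rw [← (he' r (ι x).1 (ι x).2).1, hrr, (he' r' (ι x).1 (ι x).2).1]
        · intro a ha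
          simp only [mem_filter, mem_univ, true_and] at ha
          have h1 : a = e (w a) (ι x).1 (ι x).2 := hue _ _ _ a ⟨rfl, ha.2⟩
          refine ⟨w a, ?_, h1.symm⟩
          simp only [mem_filter, mem_univ, true_and]
          rw [← h1]; exact ha.1
      rw [h1, g2]
      exact ite_congr_mem (hG z x).symm
  refine ⟨G, hfeas, fun _ _ _ _ => mem_univ _, ?_, ?_, ?_⟩
  · intro z _
    simp only [G, Sym2.mk_isDiag_iff]
    intro h1
    have := ι.symm.injective h1
    simp at this
  · intro v _
    have h1 := hfeas.colsum v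
    rw [sum_ite_pq, hR] at h1
    have hPQ : P = Q + 1 ∨ Q = P + 1 := by
      rcases hcase with ⟨h1, _⟩ | ⟨h1, _⟩
      · exact Or.inr h1
      · exact Or.inl h1
    have hDZ : D ≤ Fintype.card Z := by rw [hZ]; exact Nat.le_mul_of_pos_left _ hh
    apply pq_inj hPQ (Finset.card_le_univ _) hDZ
    rw [h1]
    have e1 : Fintype.card Z - D = h' * D := by
      rw [hZ, add_mul, one_mul]; omega
    rw [e1]
    rcases hcase with ⟨h2, h3⟩ | ⟨h2, h3⟩
    · subst h2
      have h4 : D * (β' + 1) + D = D * P + h' * D * (P + 1) + D := by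
        calc D * (β' + 1) + D = D * (β' + 1 + 1) := by ring
          _ = D * ((P + 1) * (h' + 1)) := by rw [h3]
          _ = D * P + h' * D * (P + 1) + D := by ring
      omega
    · subst h2
      rw [h3]; ring
  · intro z _ z' _ v hv hv'
    have h1 : f z = f z' := ((hG z v).1 hv).trans ((hG z' v).1 hv').symm
    simp only [G, h1]

/-- Case of two deviating entries per column. -/
theorem core_two {E1 E2 V Z R1 R2 : Type} [Fintype E1] [Fintype E2] [Fintype V]
    [Fintype Z] [Fintype R1] [Fintype R2] [DecidableEq E1] [DecidableEq E2] [DecidableEq V]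
    [DecidableEq Z] [DecidableEq R1] [DecidableEq R2] (u1 : E1 → V) (v1 : E1 → R1)
    (u2 : E2 → Z) (v2 : E2 → R2) (h β D P Q : ℕ) (hV : Fintype.card V = 2 * h)
    (hZ : Fintype.card Z = h * D) (hR : Fintype.card R2 = D * β) (hD : 0 < D) (hh : 0 < h)
    (hβ : 0 < β)
    (du1 : ∀ x, (univ.filter (fun e => u1 e = x)).card = D * β)
    (dv1 : ∀ x, (univ.filter (fun e => v1 e = x)).card = h * D)
    (du2 : ∀ x, (univ.filter (fun e => u2 e = x)).card = β * 2)
    (dv2 : ∀ x, (univ.filter (fun e => v2 e = x)).card = h * 2)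
    (hcase : (Q = P + 1 ∧ β + 1 = Q * h) ∨ (P = Q + 1 ∧ β = Q * h + 1 ∧ 1 < h)) :
    ∃ ψ : E1 ≃ E2, (Function.Bijective (fun e => (u2 (ψ e), v1 e))) ∧
      Function.Bijective (fun e => (u1 (ψ.symm e), v2 e)) := by
  classical
  have ι : V ≃ Bool × Fin h := Fintype.equivOfCardEq (by
    rw [hV, Fintype.card_prod, Fintype.card_bool, Fintype.card_fin])
  have hcase' : (Q = P + 1 ∧ β + 1 = Q * h) ∨ (P = Q + 1 ∧ β = Q * h + 1) := by
    rcases hcase with h1 | h1
    · exact Or.inl h1
    · exact Or.inr ⟨h1.1, h1.2.1⟩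
  have hPQ : P = Q + 1 ∨ Q = P + 1 := by
    rcases hcase' with ⟨h1, _⟩ | ⟨h1, _⟩
    · exact Or.inr h1
    · exact Or.inl h1
  have hDZ : D ≤ Fintype.card Z := by rw [hZ]; exact Nat.le_mul_of_pos_left _ hh
  obtain ⟨h', hh'⟩ : ∃ h', h = h' + 1 := ⟨h - 1, by omega⟩
  have hsum : D * β = D * P + (Fintype.card Z - D) * Q := by
    have e1 : Fintype.card Z - D = h' * D := by
      rw [hZ, hh', add_mul, one_mul]; omega
    rw [e1]
    rcases hcase' with ⟨h2, h3⟩ | ⟨h2, h3⟩
    · subst h2
      have h4 : D * β + D = D * P + h' * D * (P + 1) + D := by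
        calc D * β + D = D * (β + 1) := by ring
          _ = D * ((P + 1) * (h' + 1)) := by rw [h3, hh']
          _ = D * P + h' * D * (P + 1) + D := by ring
      omega
    · subst h2
      rw [h3, hh']; ring
  have hne : Nonempty V := ⟨ι.symm (true, ⟨0, hh⟩)⟩
  obtain ⟨v0⟩ := hne
  have F1 := fam1_is (Z := Z) (N := fun r x => (univ.filter (fun e => v1 e = r ∧ u1 e = x)).card)
    (P := P) (Q := Q) (D := D) (fun _ => s(v0, v0)) hPQ hDZ (by
      intro x
      rw [← hsum, ← du1 x]
      rw [Finset.card_eq_sum_card_fiberwise (f := v1) (t := univ) (fun _ _ => mem_univ _)]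
      apply Finset.sum_congr rfl
      intro r _
      rw [Finset.filter_filter]
      congr 1
      ext e
      simp only [mem_filter, mem_univ, true_and]
      exact and_comm)
  have F1ne := fam1_nonempty (Z := Z) u1 v1 h β D P Q ι hh hZ du1 dv1 hcase
  have F2 := fam2_is (Z := Z) (V := V) (R := R2)
    (N := fun r x => (univ.filter (fun e => v2 e = r ∧ u2 e = x)).card)
    (P := P) (Q := Q) (D := D) (fun _ => s(v0, v0)) hPQ
    (fam2_pm u2 v2 h β D P Q ι hh hβ hZ hR du2 dv2 hcase')
  obtain ⟨E, hE1, hE2⟩ := meet hD h' univ univ (fun _ => s(v0, v0)) _ _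
    (by rw [Finset.card_univ, hV, hh']) (by rw [Finset.card_univ, hZ, hh']) F1 F1ne F2
  exact bij_of_common u1 v1 u2 v2 (fun z x => if x ∈ E z then P else Q) hE1.2 hE2

end Pool.Agent.Bireg91
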