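import Mathlib

/-!
# Definitions for the bijection problem on biregular bipartite multigraphs
-/

namespace Pool.Agent.Bireg91

/-- The matrix `[u,v]`: its entry `(x,y)` is the number of `e` with `u e = x` and `v e = y`. -/
noncomputable def pairMatrix {E L R : Type} (u : E → L) (v : E → R) : Matrix L R ℕ :=
  Matrix.of fun x y => Nat.card {e : E // u e = x ∧ v e = y}

/-- The bipartite multigraph `(L,R,E,u,v)` is biregular: all left vertices have the same degree
and all right vertices have the same degree. -/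
def Biregular {E L R : Type} (u : E → L) (v : E → R) : Prop :=
  (∀ x x' : L, Nat.card {e : E // u e = x} = Nat.card {e : E // u e = x'}) ∧
  (∀ y y' : R, Nat.card {e : E // v e = y} = Nat.card {e : E // v e = y'})

/-- There is a bijection as asked in Q1. -/
def HasBijection {L1 R1 E1 L2 R2 E2 : Type} (u1 : E1 → L1) (v1 : E1 → R1) (u2 : E2 → L2)
    (v2 : E2 → R2) : Prop :=
  ∃ ψ : E1 ≃ E2, pairMatrix (u2 ∘ ψ) v1 = Matrix.of (fun _ _ => 1) ∧
    pairMatrix (u1 ∘ ψ.symm) v2 = Matrix.of (fun _ _ => 1)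

/-- `k` is congruent to `g` or to `-g` modulo `n`. -/
def NearMod (g n k : ℕ) : Prop := (k : ℤ) ≡ g [ZMOD n] ∨ (k : ℤ) ≡ -(g : ℤ) [ZMOD n]

end Pool.Agent.Bireg91
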