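import Mathlib

/-!
# Families of loopless multigraphs closed under adversarial 2-switches
Columns `z ∈ T` carry an edge `E z` on the vertex set `S`.
-/

namespace Pool.Agent.Bireg91

open Finset

set_option linter.unusedSectionVars false

variable {V Z : Type*} [DecidableEq V] [DecidableEq Z]

/-- `𝒯` is a family of loopless `D`-regular multigraphs on the vertex set `S` with edges
labelled by `T` (values outside `T` frozen to `G0`), invariant under relabelling the edges, and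
such that for two disjoint edges one of the two re-pairings is possible inside the family. -/
structure Fam1 (S : Finset V) (T : Finset Z) (D : ℕ) (G0 : Z → Sym2 V)
    (𝒯 : Set (Z → Sym2 V)) : Prop where
  mem : ∀ E ∈ 𝒯, ∀ z ∈ T, ∀ v ∈ E z, v ∈ S
  nd : ∀ E ∈ 𝒯, ∀ z ∈ T, ¬ (E z).IsDiag
  deg : ∀ E ∈ 𝒯, ∀ v ∈ S, (T.filter (fun z => v ∈ E z)).card = D
  out : ∀ E ∈ 𝒯, ∀ z, z ∉ T → E z = G0 z
  perm : ∀ E ∈ 𝒯, ∀ π : Equiv.Perm Z, (∀ z, z ∉ T → π z = z) → E ∘ π ∈ 𝒯
  switch : ∀ E ∈ 𝒯, ∀ z ∈ T, ∀ z' ∈ T, z ≠ z' → ∀ a b c d, E z = s(a, c) → E z' = s(b, d) →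
    a ≠ b → a ≠ d → c ≠ b → c ≠ d →
    Function.update (Function.update E z s(b, c)) z' s(a, d) ∈ 𝒯 ∨
    Function.update (Function.update E z s(d, c)) z' s(a, b) ∈ 𝒯

/-- weight of a pair in the cyclic order given by the positions `ρ` on `n` places -/
def wt (ρ : V → ℕ) (n : ℕ) : Sym2 V → ℕ :=
  Sym2.lift ⟨fun u v => Nat.dist (ρ u) (ρ v) * (n - Nat.dist (ρ u) (ρ v)), fun u v => by
    simp only [Nat.dist_comm (ρ u) (ρ v)]⟩

@[simp] theorem wt_mk (ρ : V → ℕ) (n : ℕ) (u v : V) :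
    wt ρ n s(u, v) = Nat.dist (ρ u) (ρ v) * (n - Nat.dist (ρ u) (ρ v)) := rfl

/-- length of a pair -/
def len (ρ : V → ℕ) : Sym2 V → ℕ :=
  Sym2.lift ⟨fun u v => Nat.dist (ρ u) (ρ v), fun u v => by simp only [Nat.dist_comm (ρ u) (ρ v)]⟩

@[simp] theorem len_mk (ρ : V → ℕ) (u v : V) :
    len ρ s(u, v) = Nat.dist (ρ u) (ρ v) := rfl

theorem wt_ineq {a b c d n : ℕ} (h1 : a < b) (h2 : b < c) (h3 : c < d) (h4 : d < n) :
    Nat.dist b c * (n - Nat.dist b c) + Nat.dist a d * (n - Nat.dist a d)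
      < Nat.dist a c * (n - Nat.dist a c) + Nat.dist b d * (n - Nat.dist b d) ∧
    Nat.dist d c * (n - Nat.dist d c) + Nat.dist a b * (n - Nat.dist a b)
      < Nat.dist a c * (n - Nat.dist a c) + Nat.dist b d * (n - Nat.dist b d) := by
  obtain ⟨x, rfl⟩ := Nat.exists_eq_add_of_lt h1
  obtain ⟨y, rfl⟩ := Nat.exists_eq_add_of_lt h2
  obtain ⟨z, rfl⟩ := Nat.exists_eq_add_of_lt h3
  obtain ⟨t, rfl⟩ := Nat.exists_eq_add_of_lt h4
  have e1 : Nat.dist (a + x + 1) (a + x + 1 + y + 1) = y + 1 := by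
    rw [Nat.dist_eq_sub_of_le (by omega)]; omega
  have e2 : Nat.dist a (a + x + 1 + y + 1 + z + 1) = x + y + z + 3 := by
    rw [Nat.dist_eq_sub_of_le (by omega)]; omega
  have e3 : Nat.dist a (a + x + 1 + y + 1) = x + y + 2 := by
    rw [Nat.dist_eq_sub_of_le (by omega)]; omega
  have e4 : Nat.dist (a + x + 1) (a + x + 1 + y + 1 + z + 1) = y + z + 2 := by
    rw [Nat.dist_eq_sub_of_le (by omega)]; omega
  have e5 : Nat.dist (a + x + 1 + y + 1 + z + 1) (a + x + 1 + y + 1) = z + 1 := by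
    rw [Nat.dist_comm, Nat.dist_eq_sub_of_le (by omega)]; omega
  have e6 : Nat.dist a (a + x + 1) = x + 1 := by
    rw [Nat.dist_eq_sub_of_le (by omega)]; omega
  rw [e1, e2, e3, e4, e5, e6]
  have f1 : a + x + 1 + y + 1 + z + 1 + t + 1 - (y + 1) = a + x + z + t + 3 := by omega
  have f2 : a + x + 1 + y + 1 + z + 1 + t + 1 - (x + y + z + 3) = a + t + 1 := by omega
  have f3 : a + x + 1 + y + 1 + z + 1 + t + 1 - (x + y + 2) = a + z + t + 2 := by omega
  have f4 : a + x + 1 + y + 1 + z + 1 + t + 1 - (y + z + 2) = a + x + t + 2 := by omega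
  have f5 : a + x + 1 + y + 1 + z + 1 + t + 1 - (z + 1) = a + x + y + t + 3 := by omega
  have f6 : a + x + 1 + y + 1 + z + 1 + t + 1 - (x + 1) = a + y + z + t + 3 := by omega
  rw [f1, f2, f3, f4, f5, f6]
  constructor
  · have : 0 < 2 * (x + 1) * (z + 1) := by positivity
    nlinarith
  · have : 0 < 2 * (y + 1) * (a + t + 1) := by positivity
    nlinarith

theorem sum_update2 (T : Finset Z) (f : Sym2 V → ℕ) (E : Z → Sym2 V) {z z' : Z} (hz : z ∈ T)
    (hz' : z' ∈ T) (hne : z ≠ z') (p q : Sym2 V) :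
    ∑ k ∈ T, f (Function.update (Function.update E z p) z' q k) + (f (E z) + f (E z'))
      = ∑ k ∈ T, f (E k) + (f p + f q) := by
  have hz'2 : z' ∈ T.erase z := Finset.mem_erase.2 ⟨hne.symm, hz'⟩
  have h : ∀ g : Z → ℕ, ∑ k ∈ T, g k = g z + (g z' + ∑ k ∈ (T.erase z).erase z', g k) := by
    intro g
    rw [Finset.add_sum_erase _ _ hz'2, Finset.add_sum_erase _ _ hz]
  rw [h, h (fun k => f (E k))]
  have e1 : ∑ k ∈ (T.erase z).erase z', f (Function.update (Function.update E z p) z' q k)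
      = ∑ k ∈ (T.erase z).erase z', f (E k) := by
    apply Finset.sum_congr rfl
    intro k hk
    have hk1 : k ≠ z' := Finset.ne_of_mem_erase hk
    have hk2 : k ≠ z := Finset.ne_of_mem_erase (Finset.mem_of_mem_erase hk)
    rw [Function.update_of_ne hk1, Function.update_of_ne hk2]
  rw [e1, Function.update_self, Function.update_of_ne hne, Function.update_self]
  omega

/-- A 2-switch closed family on at least three vertices contains a member with a vertex `y` that
has at most two neighbours. -/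
theorem Fam1.exists_ear {S : Finset V} {T : Finset Z} {D : ℕ} {G0 : Z → Sym2 V}
    {𝒯 : Set (Z → Sym2 V)} (hT : Fam1 S T D G0 𝒯) (hne : 𝒯.Nonempty) (hS : 3 ≤ S.card) :
    ∃ E ∈ 𝒯, ∃ y ∈ S, ∃ x ∈ S, ∃ x' ∈ S, y ≠ x ∧ y ≠ x' ∧ x ≠ x' ∧
      ∀ z ∈ T, y ∈ E z → E z = s(y, x) ∨ E z = s(y, x') := by
  classical
  set n := S.card with hn
  let ρ : V → ℕ := fun v => if h : v ∈ S then (S.equivFin ⟨v, h⟩ : ℕ) else 0
  have ρlt : ∀ v ∈ S, ρ v < n := by
    intro v hv
    simp only [ρ, hv, dite_true]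
    exact (S.equivFin ⟨v, hv⟩).isLt
  have ρinj : ∀ u ∈ S, ∀ v ∈ S, ρ u = ρ v → u = v := by
    intro u hu v hv h
    simp only [ρ, hu, hv, dite_true] at h
    have := S.equivFin.injective (Fin.ext h)
    exact congrArg Subtype.val this
  have ρsurj : ∀ k, k < n → ∃ v ∈ S, ρ v = k := by
    intro k hk
    refine ⟨(S.equivFin.symm ⟨k, hk⟩).1, (S.equivFin.symm ⟨k, hk⟩).2, ?_⟩
    simp only [ρ, (S.equivFin.symm ⟨k, hk⟩).2, dite_true]
    simp
  let W : (Z → Sym2 V) → ℕ := fun E => ∑ z ∈ T, wt ρ n (E z)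
  obtain ⟨E, hE, hmin⟩ : ∃ E ∈ 𝒯, ∀ E' ∈ 𝒯, W E ≤ W E' := by
    obtain ⟨E, hE, h⟩ := WellFounded.has_min (measure W).wf 𝒯 hne
    exact ⟨E, hE, fun E' hE' => not_lt.1 (h E' hE')⟩
  have nocross : ∀ z ∈ T, ∀ z' ∈ T, ∀ a b c d, E z = s(a, c) → E z' = s(b, d) →
      ρ a < ρ b → ρ b < ρ c → ρ c < ρ d → False := by
    intro z hz z' hz' a b c d h1 h2 hab hbc hcd
    have hdS : d ∈ S := hT.mem E hE z' hz' d (by rw [h2]; simp)
    have hdn := ρlt d hdS
    have hzz : z ≠ z' := by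
      rintro rfl
      rw [h1] at h2
      rcases Sym2.eq_iff.1 h2 with ⟨h, _⟩ | ⟨h, _⟩
      · rw [h] at hab; exact lt_irrefl _ hab
      · rw [h] at hab; omega
    have w := wt_ineq hab hbc hcd hdn
    rcases hT.switch E hE z hz z' hz' hzz a b c d h1 h2 (fun h => by rw [h] at hab; omega)
      (fun h => by rw [h] at hab; omega) (fun h => by rw [h] at hbc; omega)
      (fun h => by rw [h] at hcd; omega) with h | h
    · have := hmin _ h
      have s1 := sum_update2 T (wt ρ n) E hz hz' hzz s(b, c) s(a, d)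
      rw [h1, h2] at s1
      simp only [wt_mk] at s1
      simp only [W] at this
      omega
    · have := hmin _ h
      have s1 := sum_update2 T (wt ρ n) E hz hz' hzz s(d, c) s(a, b)
      rw [h1, h2] at s1
      simp only [wt_mk] at s1
      simp only [W] at this
      omega
  refine ⟨E, hE, ?_⟩
  by_cases hch : ∃ z ∈ T, 2 ≤ len ρ (E z)
  · obtain ⟨z, ⟨hz, hz2⟩, hzmin⟩ : ∃ z, (z ∈ T ∧ 2 ≤ len ρ (E z)) ∧
        ∀ z', (z' ∈ T ∧ 2 ≤ len ρ (E z')) → len ρ (E z) ≤ len ρ (E z') := by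
      obtain ⟨z0, hz0⟩ := hch
      obtain ⟨z, hz, h⟩ := WellFounded.has_min (measure (fun z => len ρ (E z))).wf
        {z | z ∈ T ∧ 2 ≤ len ρ (E z)} ⟨z0, hz0⟩
      exact ⟨z, hz, fun z' hz' => not_lt.1 (h z' hz')⟩
    obtain ⟨i, j, hij, hlt⟩ : ∃ i j, E z = s(i, j) ∧ ρ i + 2 ≤ ρ j := by
      induction hEz : E z using Sym2.ind with
      | _ i j =>
        rw [hEz, len_mk] at hz2
        rcases le_total (ρ i) (ρ j) with h | h
        · exact ⟨i, j, rfl, by rw [Nat.dist_eq_sub_of_le h] at hz2; omega⟩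
        · exact ⟨j, i, Sym2.eq_swap, by
            rw [Nat.dist_eq_sub_of_le_right h] at hz2; omega⟩
    have hiS : i ∈ S := hT.mem E hE z hz i (by rw [hij]; simp)
    have hjS : j ∈ S := hT.mem E hE z hz j (by rw [hij]; simp)
    have hjn := ρlt j hjS
    obtain ⟨y, hyS, hy⟩ := ρsurj (ρ i + 1) (by omega)
    obtain ⟨x', hxS, hx⟩ := ρsurj (ρ i + 2) (by omega)
    refine ⟨y, hyS, i, hiS, x', hxS, (fun h => by rw [h] at hy; omega),
      (fun h => by rw [h] at hy; omega), (fun h => by rw [h] at hx; omega), ?_⟩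
    intro z' hz' hyz'
    obtain ⟨k, hk⟩ := hyz'
    have hkS : k ∈ S := hT.mem E hE z' hz' k (by rw [hk]; simp)
    have hky : k ≠ y := by
      rintro rfl
      apply hT.nd E hE z' hz'
      rw [hk]
      simp
    have hkn : ρ k ≠ ρ y := fun h => hky (ρinj k hkS y hyS h)
    by_cases c1 : ρ k < ρ i
    · exact (nocross z' hz' z hz k i y j (by rw [hk]; exact Sym2.eq_swap) hij c1 (by omega)
        (by omega)).elim
    by_cases c2 : ρ k = ρ i
    · left
      rw [hk, ρinj k hkS i hiS c2]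
    by_cases c3 : ρ j < ρ k
    · exact (nocross z hz z' hz' i y j k hij hk (by omega) (by omega) c3).elim
    have hdist : Nat.dist (ρ y) (ρ k) = ρ k - ρ y := Nat.dist_eq_sub_of_le (by omega)
    have hlen : len ρ (E z') = ρ k - ρ y := by rw [hk, len_mk, hdist]
    have hlenz : len ρ (E z) = ρ j - ρ i := by
      rw [hij, len_mk, Nat.dist_eq_sub_of_le (by omega)]
    have : ¬ 2 ≤ len ρ (E z') := by
      intro h
      have := hzmin z' ⟨hz', h⟩
      omega
    right
    rw [hk, ρinj k hkS x' hxS (by omega)]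
  · push Not at hch
    obtain ⟨y, hyS, hy⟩ := ρsurj 1 (by omega)
    obtain ⟨x, hxS, hx⟩ := ρsurj 0 (by omega)
    obtain ⟨x', hx'S, hx'⟩ := ρsurj 2 (by omega)
    refine ⟨y, hyS, x, hxS, x', hx'S, (fun h => by rw [h] at hy; omega),
      (fun h => by rw [h] at hy; omega), (fun h => by rw [h] at hx; omega), ?_⟩
    intro z' hz' hyz'
    obtain ⟨k, hk⟩ := hyz'
    have hkS : k ∈ S := hT.mem E hE z' hz' k (by rw [hk]; simp)
    have hky : k ≠ y := by
      rintro rfl
      apply hT.nd E hE z' hz'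
      rw [hk]
      simp
    have hkn : ρ k ≠ ρ y := fun h => hky (ρinj k hkS y hyS h)
    have h1 := hch z' hz'
    rw [hk, len_mk] at h1
    rcases le_total (ρ k) (ρ y) with h | h
    · left
      rw [hk, ρinj k hkS x hxS (by omega)]
    · right
      rw [Nat.dist_eq_sub_of_le h] at h1
      rw [hk, ρinj k hkS x' hx'S (by omega)]

/-- One can in addition avoid the edge `x x'`. -/
theorem Fam1.exists_clean_ear {S : Finset V} {T : Finset Z} {D : ℕ} {G0 : Z → Sym2 V}
    {𝒯 : Set (Z → Sym2 V)} (hT : Fam1 S T D G0 𝒯) (hne : 𝒯.Nonempty) (hS : 3 ≤ S.card)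
    (hTD : 2 * D ≤ T.card) :
    ∃ E ∈ 𝒯, ∃ y ∈ S, ∃ x ∈ S, ∃ x' ∈ S, y ≠ x ∧ y ≠ x' ∧ x ≠ x' ∧
      (∀ z ∈ T, y ∈ E z → E z = s(y, x) ∨ E z = s(y, x')) ∧ ∀ z ∈ T, E z ≠ s(x, x') := by
  classical
  obtain ⟨E0, hE0, y, hy, x, hx, x', hx', hyx, hyx', hxx', hP0⟩ := hT.exists_ear hne hS
  let γ : (Z → Sym2 V) → ℕ := fun E => (T.filter (fun z => E z = s(x, x'))).card
  obtain ⟨E, ⟨hE, hP⟩, hmin⟩ : ∃ E, (E ∈ 𝒯 ∧ ∀ z ∈ T, y ∈ E z → E z = s(y, x) ∨ E z = s(y, x')) ∧
      ∀ E', (E' ∈ 𝒯 ∧ ∀ z ∈ T, y ∈ E' z → E' z = s(y, x) ∨ E' z = s(y, x')) → γ E ≤ γ E' := by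
    obtain ⟨E, hE, h⟩ := WellFounded.has_min (measure γ).wf
      {E | E ∈ 𝒯 ∧ ∀ z ∈ T, y ∈ E z → E z = s(y, x) ∨ E z = s(y, x')} ⟨E0, hE0, hP0⟩
    exact ⟨E, hE, fun E' hE' => not_lt.1 (h E' hE')⟩
  refine ⟨E, hE, y, hy, x, hx, x', hx', hyx, hyx', hxx', hP, ?_⟩
  intro z0 hz0 hEz0
  -- an edge avoiding `x`, `x'`
  obtain ⟨z1, hz1, hz1x, hz1x'⟩ : ∃ z1 ∈ T, x ∉ E z1 ∧ x' ∉ E z1 := by
    by_contra hcon
    push Not at hcon
    have hunion : T.filter (fun z => x ∈ E z) ∪ T.filter (fun z => x' ∈ E z) = T := by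
      ext z
      simp only [mem_union, mem_filter]
      constructor
      · rintro (h | h) <;> exact h.1
      · intro h
        by_cases hz : x ∈ E z
        · exact Or.inl ⟨h, hz⟩
        · exact Or.inr ⟨h, hcon z h hz⟩
    have hc := Finset.card_union_add_card_inter (T.filter (fun z => x ∈ E z))
      (T.filter (fun z => x' ∈ E z))
    rw [hunion, hT.deg E hE x hx, hT.deg E hE x' hx'] at hc
    have : 0 < (T.filter (fun z => x ∈ E z) ∩ T.filter (fun z => x' ∈ E z)).card := by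
      apply Finset.card_pos.2
      refine ⟨z0, ?_⟩
      simp [hz0, hEz0]
    omega
  have hyz1 : y ∉ E z1 := by
    intro h
    rcases hP z1 hz1 h with h' | h'
    · exact hz1x (by rw [h']; simp)
    · exact hz1x' (by rw [h']; simp)
  have hz01 : z0 ≠ z1 := by
    rintro rfl
    exact hz1x (by rw [hEz0]; simp)
  induction hEz1 : E z1 using Sym2.ind with
  | _ p q =>
    rw [hEz1] at hz1x hz1x' hyz1
    simp only [Sym2.mem_iff, not_or] at hz1x hz1x' hyz1
    have key : ∀ r r' : V, r ≠ x → r ≠ x' → r ≠ y → r' ≠ x → r' ≠ x' → r' ≠ y →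
        Function.update (Function.update E z0 s(r, x')) z1 s(x, r') ∈ 𝒯 → False := by
      intro r r' h1 h2 h3 h4 h5 h6 h
      have hP' : ∀ z ∈ T, y ∈ Function.update (Function.update E z0 s(r, x')) z1 s(x, r') z →
          Function.update (Function.update E z0 s(r, x')) z1 s(x, r') z = s(y, x) ∨
          Function.update (Function.update E z0 s(r, x')) z1 s(x, r') z = s(y, x') := by
        intro z hz hyz
        by_cases c1 : z = z1
        · subst c1
          rw [Function.update_self] at hyz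
          simp only [Sym2.mem_iff] at hyz
          rcases hyz with h | h
          · exact absurd h hyx
          · exact absurd h.symm h6
        · rw [Function.update_of_ne c1] at hyz ⊢
          by_cases c2 : z = z0
          · subst c2
            rw [Function.update_self] at hyz
            simp only [Sym2.mem_iff] at hyz
            rcases hyz with h | h
            · exact absurd h.symm h3
            · exact absurd h hyx'
          · rw [Function.update_of_ne c2] at hyz ⊢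
            exact hP z hz hyz
      have := hmin _ ⟨h, hP'⟩
      have hlt : γ (Function.update (Function.update E z0 s(r, x')) z1 s(x, r')) < γ E := by
        apply Finset.card_lt_card
        rw [Finset.ssubset_iff_of_subset]
        · refine ⟨z0, by simp [hz0, hEz0], ?_⟩
          simp only [mem_filter, not_and]
          intro _
          rw [Function.update_of_ne hz01, Function.update_self]
          rw [Sym2.eq_iff]
          rintro (⟨h, _⟩ | ⟨h, _⟩)
          · exact h1 h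
          · exact h2 h
        · intro z hz
          simp only [mem_filter] at hz ⊢
          refine ⟨hz.1, ?_⟩
          by_cases c1 : z = z1
          · exfalso
            subst c1
            have := hz.2
            rw [Function.update_self, Sym2.eq_iff] at this
            rcases this with ⟨_, h⟩ | ⟨h, _⟩
            · exact h5 h
            · exact hxx' h
          · have h7 := hz.2
            rw [Function.update_of_ne c1] at h7
            by_cases c2 : z = z0
            · subst c2; exact hEz0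
            · rw [Function.update_of_ne c2] at h7
              exact h7
      omega
    rcases hT.switch E hE z0 hz0 z1 hz1 hz01 x p x' q hEz0 hEz1 hz1x.1 hz1x.2 hz1x'.1 hz1x'.2
      with h | h
    · exact key p q (Ne.symm hz1x.1) (Ne.symm hz1x'.1) (Ne.symm hyz1.1) (Ne.symm hz1x.2)
        (Ne.symm hz1x'.2) (Ne.symm hyz1.2) h
    · exact key q p (Ne.symm hz1x.2) (Ne.symm hz1x'.2) (Ne.symm hyz1.2) (Ne.symm hz1x.1)
        (Ne.symm hz1x'.1) (Ne.symm hyz1.1) h

/-- A permutation supported on `T` carrying `A` to `B`. -/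
theorem exists_perm_finset {Z : Type*} [DecidableEq Z] {T A B : Finset Z} (hA : A ⊆ T)
    (hB : B ⊆ T) (h : A.card = B.card) :
    ∃ π : Equiv.Perm Z, (∀ z, z ∉ T → π z = z) ∧ ∀ z ∈ T, (z ∈ A ↔ π z ∈ B) ∧ π z ∈ T := by
  classical
  have hc : Fintype.card {z : {z // z ∈ T} // z.1 ∈ A} = Fintype.card {z : {z // z ∈ T} // z.1 ∈ B} := by
    have e : ∀ C : Finset Z, C ⊆ T → Fintype.card {z : {z // z ∈ T} // z.1 ∈ C} = C.card := by
      intro C hC
      rw [← Fintype.card_coe C]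
      exact Fintype.card_congr ⟨fun z => ⟨z.1.1, z.2⟩, fun z => ⟨⟨z.1, hC z.2⟩, z.2⟩,
        fun _ => rfl, fun _ => rfl⟩
    rw [e A hA, e B hB, h]
  let e := Fintype.equivOfCardEq hc
  let τ : Equiv.Perm {z // z ∈ T} := e.extendSubtype
  refine ⟨Equiv.Perm.ofSubtype τ, ?_, ?_⟩
  · intro z hz
    exact Equiv.Perm.ofSubtype_apply_of_not_mem τ hz
  · intro z hz
    rw [Equiv.Perm.ofSubtype_apply_of_mem τ hz]
    refine ⟨⟨fun hzA => ?_, fun hzB => ?_⟩, (τ ⟨z, hz⟩).2⟩
    · exact Equiv.extendSubtype_mem e ⟨z, hz⟩ hzA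
    · by_contra hzA
      exact Equiv.extendSubtype_not_mem e ⟨z, hz⟩ hzA hzB

end Pool.Agent.Bireg91
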