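import Pool.Agent.Bireg91.CoreTwo
import Pool.Agent.Bireg91.Defs

/-!
# Bijections between the edge sets of two biregular bipartite multigraphs
-/

namespace Pool.Agent.Bireg91

open Finset

theorem pairMatrix_eq_ones {E L R : Type} [Finite E] (f : E → L) (g : E → R) :
    pairMatrix f g = Matrix.of (fun _ _ => 1) ↔ Function.Bijective (fun e => (f e, g e)) := by
  classical
  constructor
  · intro h
    have h1 : ∀ x y, Nat.card {e : E // f e = x ∧ g e = y} = 1 := fun x y =>
      congrFun (congrFun h x) y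
    refine ⟨?_, ?_⟩
    · intro e e' hee
      simp only [Prod.mk.injEq] at hee
      have := Nat.card_eq_one_iff_unique.1 (h1 (f e) (g e))
      have h2 := this.1.elim (⟨e, rfl, rfl⟩ : {e' : E // f e' = f e ∧ g e' = g e})
        ⟨e', hee.1.symm, hee.2.symm⟩
      exact congrArg Subtype.val h2
    · rintro ⟨x, y⟩
      obtain ⟨_, ⟨e, he⟩⟩ := Nat.card_eq_one_iff_unique.1 (h1 x y)
      exact ⟨e, Prod.ext he.1 he.2⟩
  · intro h
    ext x y
    change Nat.card {e : E // f e = x ∧ g e = y} = 1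
    rw [Nat.card_eq_one_iff_unique]
    refine ⟨⟨?_⟩, ?_⟩
    · rintro ⟨e, he⟩ ⟨e', he'⟩
      apply Subtype.ext
      apply h.1
      exact Prod.ext (he.1.trans he'.1.symm) (he.2.trans he'.2.symm)
    · obtain ⟨e, he⟩ := h.2 (x, y)
      simp only [Prod.mk.injEq] at he
      exact ⟨⟨e, he⟩⟩

section

variable {L1 R1 E1 L2 R2 E2 : Type}

theorem hasBijection_iff [Finite E1] [Finite E2] (u1 : E1 → L1) (v1 : E1 → R1) (u2 : E2 → L2)
    (v2 : E2 → R2) : HasBijection u1 v1 u2 v2 ↔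
      ∃ ψ : E1 ≃ E2, (Function.Bijective (fun e => (u2 (ψ e), v1 e))) ∧
      Function.Bijective (fun e => (u1 (ψ.symm e), v2 e)) := by
  unfold HasBijection
  simp only [pairMatrix_eq_ones, Function.comp_apply]

/-- exchange of the two multigraphs -/
theorem HasBijection.swap12 [Finite E1] [Finite E2] {u1 : E1 → L1} {v1 : E1 → R1}
    {u2 : E2 → L2} {v2 : E2 → R2} (h : HasBijection u2 v2 u1 v1) :
    HasBijection u1 v1 u2 v2 := by
  obtain ⟨ψ, h1, h2⟩ := h
  exact ⟨ψ.symm, h2, by rw [Equiv.symm_symm]; exact h1⟩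

/-- exchange of the left and the right side of both multigraphs -/
theorem HasBijection.swapLR [Finite E1] [Finite E2] {u1 : E1 → L1} {v1 : E1 → R1}
    {u2 : E2 → L2} {v2 : E2 → R2} (h : HasBijection v1 u1 v2 u2) :
    HasBijection u1 v1 u2 v2 := by
  rw [hasBijection_iff] at h ⊢
  obtain ⟨ψ, h1, h2⟩ := h
  refine ⟨ψ, ?_, ?_⟩
  · have h3 : (fun e => (u2 (ψ e), v1 e))
        = Prod.swap ∘ (fun e => (v1 (ψ.symm e), u2 e)) ∘ ψ := by
      funext e; simp
    rw [h3]
    exact Prod.swap_bijective.comp (h2.comp ψ.bijective)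
  · have h3 : (fun e => (u1 (ψ.symm e), v2 e))
        = Prod.swap ∘ (fun e => (v2 (ψ e), u1 e)) ∘ ψ.symm := by
      funext e; simp
    rw [h3]
    exact Prod.swap_bijective.comp (h1.comp ψ.symm.bijective)

theorem deg_eq {E L : Type} [Fintype E] [Fintype L] [DecidableEq L] (u : E → L)
    (h : ∀ x x' : L, Nat.card {e : E // u e = x} = Nat.card {e : E // u e = x'}) {k : ℕ}
    (hE : Nat.card E = Nat.card L * k) (x : L) :
    (univ.filter (fun e => u e = x)).card = k := by
  classical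
  have h1 : ∀ y, (univ.filter (fun e => u e = y)).card = (univ.filter (fun e => u e = x)).card := by
    intro y
    have := h y x
    rw [Nat.card_eq_fintype_card, Nat.card_eq_fintype_card, Fintype.card_subtype,
      Fintype.card_subtype] at this
    exact this
  have h2 : Fintype.card E = Fintype.card L * (univ.filter (fun e => u e = x)).card := by
    rw [← Finset.card_univ (α := E),
      Finset.card_eq_sum_card_fiberwise (f := u) (t := univ) (fun _ _ => mem_univ _),
      Finset.sum_congr rfl (fun y _ => h1 y), Finset.sum_const, Finset.card_univ, smul_eq_mul]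
  rw [Nat.card_eq_fintype_card, Nat.card_eq_fintype_card, h2] at hE
  exact Nat.eq_of_mul_eq_mul_left (Fintype.card_pos_iff.2 ⟨x⟩) hE

theorem trivial_case [Finite L1] [Finite R1] [Finite L2] [Finite R2] [Finite E1] [Finite E2]
    (u1 : E1 → L1) (v1 : E1 → R1) (u2 : E2 → L2) (v2 : E2 → R2)
    (hn : Nat.card L1 * Nat.card R2 = Nat.card L2 * Nat.card R1)
    (hE1 : Nat.card E1 = Nat.card L1 * Nat.card R2)
    (hE2 : Nat.card E2 = Nat.card L1 * Nat.card R2)
    (h0 : Nat.card L1 * Nat.card R2 = 0) : HasBijection u1 v1 u2 v2 := by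
  have i1 : IsEmpty E1 := by
    rw [h0] at hE1
    exact (Nat.card_eq_zero.1 hE1).resolve_right (fun h => h.not_finite inferInstance)
  have i2 : IsEmpty E2 := by
    rw [h0] at hE2
    exact (Nat.card_eq_zero.1 hE2).resolve_right (fun h => h.not_finite inferInstance)
  have h1 : IsEmpty (L1 × R2) := by
    rw [← Nat.card_prod] at h0
    exact (Nat.card_eq_zero.1 h0).resolve_right (fun h => h.not_finite inferInstance)
  have h2 : IsEmpty (L2 × R1) := by
    rw [hn, ← Nat.card_prod] at h0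
    exact (Nat.card_eq_zero.1 h0).resolve_right (fun h => h.not_finite inferInstance)
  rw [hasBijection_iff]
  refine ⟨Equiv.equivOfIsEmpty E1 E2, ?_, ?_⟩
  · exact ⟨fun e => i1.elim e, fun p => h2.elim p⟩
  · exact ⟨fun e => i2.elim e, fun p => h1.elim p⟩

theorem near_dvd {g n k : ℕ} (h : NearMod g n k) : (n : ℤ) ∣ k - g ∨ (n : ℤ) ∣ k + g := by
  rcases h with h | h
  · left; exact Int.modEq_iff_dvd.1 h.symm
  · right
    have := Int.modEq_iff_dvd.1 h.symm
    simpa using this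

/-- the arithmetic of the case `k ≡ ±1 (mod n)` -/
theorem near_one_arith {n k : ℕ} (hn : 0 < n) (hk : 0 < k)
    (h : (n : ℤ) ∣ k - 1 ∨ (n : ℤ) ∣ k + 1) :
    ∃ P Q : ℕ, (Q = P + 1 ∧ k + 1 = Q * n) ∨ (P = Q + 1 ∧ k = Q * n + 1 ∧ 1 < n) := by
  rcases Nat.eq_or_lt_of_le (Nat.succ_le_of_lt hn) with h1 | h1
  · refine ⟨k, k + 1, Or.inl ⟨rfl, ?_⟩⟩
    rw [← h1]; simp
  · rcases h with h | h
    · have h2 : n ∣ k - 1 := by
        have : ((k - 1 : ℕ) : ℤ) = (k : ℤ) - 1 := by
          rw [Nat.cast_sub hk]; simp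
        rw [← this] at h
        exact_mod_cast h
      obtain ⟨q, hq⟩ := h2
      refine ⟨q + 1, q, Or.inr ⟨rfl, ?_, h1⟩⟩
      rw [mul_comm, ← hq]; omega
    · have h2 : n ∣ k + 1 := by exact_mod_cast h
      obtain ⟨q, hq⟩ := h2
      have hq0 : 0 < q := by
        rcases Nat.eq_zero_or_pos q with h3 | h3
        · rw [h3] at hq; omega
        · exact h3
      refine ⟨q - 1, q, Or.inl ⟨by omega, ?_⟩⟩
      rw [hq, mul_comm]

theorem coprime_of_near {n k : ℕ} (h : (n : ℤ) ∣ k - 1 ∨ (n : ℤ) ∣ k + 1) :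
    Nat.Coprime n k := by
  rw [← Nat.isCoprime_iff_coprime]
  rcases h with ⟨q, hq⟩ | ⟨q, hq⟩
  · exact ⟨-q, 1, by linear_combination hq⟩
  · exact ⟨q, -1, by linear_combination -hq⟩

/-- Q1 when `k1 ≡ ±1 (mod n1)`. -/
theorem main_one [Finite L1] [Finite R1] [Finite L2] [Finite R2] [Finite E1] [Finite E2]
    (u1 : E1 → L1) (v1 : E1 → R1) (u2 : E2 → L2) (v2 : E2 → R2)
    (hb1 : Biregular u1 v1) (hb2 : Biregular u2 v2)
    (hn : Nat.card L1 * Nat.card R2 = Nat.card L2 * Nat.card R1)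
    (hE1 : Nat.card E1 = Nat.card L1 * Nat.card R2)
    (hE2 : Nat.card E2 = Nat.card L1 * Nat.card R2)
    (h : NearMod 1 (Nat.card L1) (Nat.card R1)) : HasBijection u1 v1 u2 v2 := by
  classical
  rcases Nat.eq_zero_or_pos (Nat.card L1 * Nat.card R2) with h0 | h0
  · exact trivial_case u1 v1 u2 v2 hn hE1 hE2 h0
  have hn1 : 0 < Nat.card L1 := Nat.pos_of_mul_pos_right h0
  have h0' := h0
  rw [hn] at h0'
  have hn2 : 0 < Nat.card L2 := Nat.pos_of_mul_pos_right h0'
  have hk1 : 0 < Nat.card R1 := Nat.pos_of_mul_pos_left h0'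
  have _ : Fintype L1 := Fintype.ofFinite L1
  have _ : Fintype R1 := Fintype.ofFinite R1
  have _ : Fintype E1 := Fintype.ofFinite E1
  have _ : Fintype L2 := Fintype.ofFinite L2
  have _ : Fintype R2 := Fintype.ofFinite R2
  have _ : Fintype E2 := Fintype.ofFinite E2
  have hdvd := near_dvd h
  simp only [Nat.cast_one] at hdvd
  obtain ⟨P, Q, hcase⟩ := near_one_arith hn1 hk1 hdvd
  have hcop := coprime_of_near hdvd
  obtain ⟨D, hD⟩ : Nat.card L1 ∣ Nat.card L2 :=
    hcop.dvd_of_dvd_mul_right (Dvd.intro _ hn)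
  have hk2 : Nat.card R2 = Nat.card R1 * D := by
    apply Nat.eq_of_mul_eq_mul_left hn1
    rw [hn, hD]; ring
  have hDpos : 0 < D := by
    rcases Nat.eq_zero_or_pos D with h3 | h3
    · rw [h3] at hD; omega
    · exact h3
  rw [hasBijection_iff]
  refine core_one u1 v1 u2 v2 (Nat.card L1) (Nat.card R1) D P Q
    Nat.card_eq_fintype_card.symm (by rw [← Nat.card_eq_fintype_card, hD]) hDpos ?_ ?_ ?_ ?_ hcase
  · intro x
    exact deg_eq u1 hb1.1 (by rw [hE1, hk2]) x
  · intro x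
    exact deg_eq v1 hb1.2 (by rw [hE1, hn, hD]; ring) x
  · intro x
    exact deg_eq u2 hb2.1 (by rw [hE2, hn]) x
  · intro x
    exact deg_eq v2 hb2.2 (by rw [hE2]; ring) x

/-- Q1 when `n1` is even and `k1 ≡ ±2 (mod n1)`. -/
theorem main_two [Finite L1] [Finite R1] [Finite L2] [Finite R2] [Finite E1] [Finite E2]
    (u1 : E1 → L1) (v1 : E1 → R1) (u2 : E2 → L2) (v2 : E2 → R2)
    (hb1 : Biregular u1 v1) (hb2 : Biregular u2 v2)
    (hn : Nat.card L1 * Nat.card R2 = Nat.card L2 * Nat.card R1)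
    (hE1 : Nat.card E1 = Nat.card L1 * Nat.card R2)
    (hE2 : Nat.card E2 = Nat.card L1 * Nat.card R2)
    (hev : Even (Nat.card L1))
    (h : NearMod 2 (Nat.card L1) (Nat.card R1)) : HasBijection u1 v1 u2 v2 := by
  classical
  rcases Nat.eq_zero_or_pos (Nat.card L1 * Nat.card R2) with h0 | h0
  · exact trivial_case u1 v1 u2 v2 hn hE1 hE2 h0
  have hn1 : 0 < Nat.card L1 := Nat.pos_of_mul_pos_right h0
  have h0' := h0
  rw [hn] at h0'
  have hn2 : 0 < Nat.card L2 := Nat.pos_of_mul_pos_right h0'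
  have hk1 : 0 < Nat.card R1 := Nat.pos_of_mul_pos_left h0'
  have _ : Fintype L1 := Fintype.ofFinite L1
  have _ : Fintype R1 := Fintype.ofFinite R1
  have _ : Fintype E1 := Fintype.ofFinite E1
  have _ : Fintype L2 := Fintype.ofFinite L2
  have _ : Fintype R2 := Fintype.ofFinite R2
  have _ : Fintype E2 := Fintype.ofFinite E2
  obtain ⟨g, hg⟩ := hev
  have hg' : Nat.card L1 = 2 * g := by omega
  have hdvd := near_dvd h
  rw [hg'] at hdvd
  -- `k1 = 2 β`
  have hkeven : ∃ β, Nat.card R1 = 2 * β := by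
    have h2 : (2 : ℤ) ∣ (Nat.card R1 : ℤ) := by
      push_cast at hdvd
      rcases hdvd with h3 | h3
      · have h4 : (2 : ℤ) ∣ (Nat.card R1 : ℤ) - 2 := (Dvd.intro _ rfl).trans h3
        have := dvd_add h4 (dvd_refl (2 : ℤ))
        simpa using this
      · have h4 : (2 : ℤ) ∣ (Nat.card R1 : ℤ) + 2 := (Dvd.intro _ rfl).trans h3
        have := dvd_sub h4 (dvd_refl (2 : ℤ))
        simpa using this
    have h3 : 2 ∣ Nat.card R1 := by exact_mod_cast h2
    obtain ⟨β, hβ⟩ := h3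
    exact ⟨β, hβ⟩
  obtain ⟨β, hβ⟩ := hkeven
  have hgpos : 0 < g := by omega
  have hβpos : 0 < β := by omega
  have hdvd' : (g : ℤ) ∣ β - 1 ∨ (g : ℤ) ∣ β + 1 := by
    rw [hβ] at hdvd
    push_cast at hdvd
    rcases hdvd with ⟨q, hq⟩ | ⟨q, hq⟩
    · left; exact ⟨q, by linarith⟩
    · right; exact ⟨q, by linarith⟩
  obtain ⟨P, Q, hcase⟩ := near_one_arith hgpos hβpos hdvd'
  have hcop := coprime_of_near hdvd'
  have hn' : g * Nat.card R2 = Nat.card L2 * β := by
    have h3 : 2 * (g * Nat.card R2) = 2 * (Nat.card L2 * β) := by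
      calc 2 * (g * Nat.card R2) = Nat.card L1 * Nat.card R2 := by rw [hg']; ring
        _ = 2 * (Nat.card L2 * β) := by rw [hn, hβ]; ring
    exact Nat.eq_of_mul_eq_mul_left (by norm_num) h3
  obtain ⟨D, hD⟩ : g ∣ Nat.card L2 := hcop.dvd_of_dvd_mul_right (Dvd.intro _ hn')
  have hk2 : Nat.card R2 = D * β := by
    apply Nat.eq_of_mul_eq_mul_left hgpos
    rw [hn', hD]; ring
  have hDpos : 0 < D := by
    rcases Nat.eq_zero_or_pos D with h3 | h3
    · rw [h3] at hD; omega
    · exact h3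
  rw [hasBijection_iff]
  refine core_two u1 v1 u2 v2 g β D P Q
    (by rw [← Nat.card_eq_fintype_card, hg']) (by rw [← Nat.card_eq_fintype_card, hD])
    (by rw [← Nat.card_eq_fintype_card, hk2]) hDpos hgpos hβpos ?_ ?_ ?_ ?_ hcase
  · intro x
    exact deg_eq u1 hb1.1 (by rw [hE1, hk2]) x
  · intro x
    exact deg_eq v1 hb1.2 (by rw [hE1, hn, hD]; ring) x
  · intro x
    exact deg_eq u2 hb2.1 (by rw [hE2, hn, hβ]; ring) x
  · intro x
    exact deg_eq v2 hb2.2 (by rw [hE2, hg']; ring) x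

end

end Pool.Agent.Bireg91
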