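import Pool.Agent.Bireg91.Init

/-!
# Halving a biregular multigraph and colouring the halves with a common defect
-/

namespace Pool.Agent.Bireg91

open Finset

/-- A biregular bipartite multigraph with even degrees splits into two biregular halves. -/
theorem halve {E A B : Type} [Fintype E] [Fintype A] [Fintype B] [DecidableEq E] [DecidableEq A]
    [DecidableEq B] (w : E → A) (u : E → B) (h β : ℕ)
    (hw : ∀ a, (univ.filter (fun e => w e = a)).card = (h + 1) * 2)
    (hu : ∀ b, (univ.filter (fun e => u e = b)).card = (β + 1) * 2) :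
    ∃ t : E → Bool, (∀ a i, (univ.filter (fun e => w e = a ∧ t e = i)).card = h + 1) ∧
      (∀ b i, (univ.filter (fun e => u e = b ∧ t e = i)).card = β + 1) := by
  classical
  have hg : ∀ a, ∃ g : E → Fin (h + 1), ∀ j,
      ((univ.filter (fun e => w e = a)).filter (fun e => g e = j)).card = 2 := by
    intro a
    obtain ⟨g, hg, _⟩ := split_set 2 h _ ∅ (hw a) (Finset.empty_subset _) (by simp)
    exact ⟨g, hg⟩
  have hk : ∀ b, ∃ k : E → Fin (β + 1), ∀ j,
      ((univ.filter (fun e => u e = b)).filter (fun e => k e = j)).card = 2 := by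
    intro b
    obtain ⟨g, hg, _⟩ := split_set 2 β _ ∅ (hu b) (Finset.empty_subset _) (by simp)
    exact ⟨g, hg⟩
  choose g hg using hg
  choose k hk using hk
  let s : E → A × Fin (h + 1) := fun e => (w e, g (w e) e)
  let s' : E → B × Fin (β + 1) := fun e => (u e, k (u e) e)
  have hs : ∀ a, (univ.filter (fun e => s e = a)).card = Fintype.card Bool := by
    rintro ⟨a, j⟩
    rw [Fintype.card_bool, ← hg a j, Finset.filter_filter]
    congr 1
    ext e
    simp only [mem_filter, mem_univ, true_and, s, Prod.mk.injEq]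
    constructor
    · rintro ⟨h1, h2⟩; exact ⟨h1, h1 ▸ h2⟩
    · rintro ⟨h1, h2⟩; exact ⟨h1, h1 ▸ h2⟩
  have hs' : ∀ a, (univ.filter (fun e => s' e = a)).card = Fintype.card Bool := by
    rintro ⟨a, j⟩
    rw [Fintype.card_bool, ← hk a j, Finset.filter_filter]
    congr 1
    ext e
    simp only [mem_filter, mem_univ, true_and, s', Prod.mk.injEq]
    constructor
    · rintro ⟨h1, h2⟩; exact ⟨h1, h1 ▸ h2⟩
    · rintro ⟨h1, h2⟩; exact ⟨h1, h1 ▸ h2⟩
  obtain ⟨c, hc1, hc2⟩ := konig s s' hs hs'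
  refine ⟨c, ?_, ?_⟩
  · intro a i
    rw [card_of_existsUnique (J := Fin (h + 1)) _ (fun e j => g (w e) e = j), Fintype.card_fin]
    · intro j
      obtain ⟨e, ⟨he, hce⟩, hu'⟩ := hc1 (a, j) i
      simp only [s, Prod.mk.injEq] at he
      refine ⟨e, ⟨⟨he.1, hce⟩, he.2⟩, ?_⟩
      rintro e' ⟨⟨h1, h2⟩, h3⟩
      exact hu' e' ⟨Prod.ext h1 h3, h2⟩
    · intro y _; exact ⟨_, rfl⟩
    · intro y j j' _ h h'; exact h.symm.trans h'
  · intro a i
    rw [card_of_existsUnique (J := Fin (β + 1)) _ (fun e j => k (u e) e = j), Fintype.card_fin]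
    · intro j
      obtain ⟨e, ⟨he, hce⟩, hu'⟩ := hc2 (a, j) i
      simp only [s', Prod.mk.injEq] at he
      refine ⟨e, ⟨⟨he.1, hce⟩, he.2⟩, ?_⟩
      rintro e' ⟨⟨h1, h2⟩, h3⟩
      exact hu' e' ⟨Prod.ext h1 h3, h2⟩
    · intro y _; exact ⟨_, rfl⟩
    · intro y j j' _ h h'; exact h.symm.trans h'

/-- Two halves can be coloured with the same defect at every `z`. -/
theorem glue {E Z R C : Type} [Fintype E] [Fintype Z] [Fintype R] [Fintype C]
    [DecidableEq E] [DecidableEq Z] [DecidableEq R] [DecidableEq C]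
    (u : E → Z) (w : E → R) (t : E → Bool) (β lam μ : ℕ)
    (hw : ∀ r i, (univ.filter (fun e => w e = r ∧ t e = i)).card = Fintype.card C)
    (hu : ∀ z i, (univ.filter (fun e => u e = z ∧ t e = i)).card = β)
    (hβ : β + lam = (μ + 1) * Fintype.card C) (hlam : lam ≤ Fintype.card C) :
    ∃ (c : E → C) (Λ : Z → Finset C), (∀ r i j, ∃! e, w e = r ∧ t e = i ∧ c e = j) ∧
      (∀ z, (Λ z).card = lam) ∧
      ∀ z i j, (univ.filter (fun e => u e = z ∧ t e = i ∧ c e = j)).card
        + (if j ∈ Λ z then 1 else 0) = μ + 1 := by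
  classical
  set n := Fintype.card C with hn
  -- incidence of an edge with the `z`-nodes on side `i`
  let P : Bool → Z → E ⊕ (Z × Fin lam) → Prop := fun i z =>
    Sum.elim (fun e => u e = z ∧ t e = i) (fun y => y.1 = z)
  have hP : ∀ i z, (univ.filter (fun e => P i z e)).card = (μ + 1) * n := by
    intro i z
    have h1 : (univ.filter (fun a => P i z (Sum.inl a))).card = β := by
      rw [← hu z i]
      congr 1
      ext e
      rw [mem_filter, mem_filter]
      exact Iff.rfl
    have h2 : (univ.filter (fun y => P i z (Sum.inr y))).card = lam := by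
      refine Eq.trans ?_ (card_filter_fst lam z)
      congr 1
      ext e
      rw [mem_filter, mem_filter]
      exact Iff.rfl
    rw [filter_sum_card, ← hβ, h1, h2]
  have hg : ∀ i z, ∃ g : E ⊕ (Z × Fin lam) → Fin (μ + 1),
      (∀ j, ((univ.filter (fun e => P i z e)).filter (fun e => g e = j)).card = n) ∧
      ∀ l, g (Sum.inr (z, l)) = 0 := by
    intro i z
    obtain ⟨g, hg1, hg2⟩ := split_set n μ (univ.filter (fun e => P i z e))
      ((univ : Finset (Fin lam)).image (fun l => (Sum.inr (z, l) : E ⊕ (Z × Fin lam)))) (hP i z)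
      (by
        intro e he
        obtain ⟨l, _, rfl⟩ := Finset.mem_image.1 he
        rw [mem_filter]
        exact ⟨mem_univ _, rfl⟩)
      (by
        refine (Finset.card_image_le).trans ?_
        simpa using hlam)
    exact ⟨g, hg1, fun l => hg2 _ (Finset.mem_image_of_mem _ (mem_univ l))⟩
  choose g hg1 hg2 using hg
  let sd : Bool → E ⊕ (Z × Fin lam) → R ⊕ (Z × Fin (μ + 1)) := fun i =>
    Sum.elim (fun e => if t e = i then Sum.inr (u e, g i (u e) (Sum.inl e)) else Sum.inl (w e))
      (fun y => Sum.inr (y.1, g i y.1 (Sum.inr y)))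
  have hsd1 : ∀ i e, t e = i → sd i (Sum.inl e) = Sum.inr (u e, g i (u e) (Sum.inl e)) :=
    fun i e h => if_pos h
  have hsd2 : ∀ i e, t e ≠ i → sd i (Sum.inl e) = Sum.inl (w e) := fun i e h => if_neg h
  have hPl : ∀ i z e, P i z (Sum.inl e) ↔ u e = z ∧ t e = i := fun i z e => Iff.rfl
  have hsdz : ∀ i z j e, sd i e = Sum.inr (z, j) ↔ P i z e ∧ g i z e = j := by
    rintro i z j (e | y)
    · rw [hPl]
      by_cases h : t e = i
      · rw [hsd1 i e h, Sum.inr.injEq, Prod.mk.injEq]
        constructor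
        · rintro ⟨h1, h2⟩; exact ⟨⟨h1, h⟩, h1 ▸ h2⟩
        · rintro ⟨⟨h1, _⟩, h2⟩; exact ⟨h1, h1 ▸ h2⟩
      · rw [hsd2 i e h]
        simp [h]
    · have e1 : sd i (Sum.inr y) = Sum.inr (y.1, g i y.1 (Sum.inr y)) := rfl
      have e2 : P i z (Sum.inr y) ↔ y.1 = z := Iff.rfl
      rw [e1, e2, Sum.inr.injEq, Prod.mk.injEq]
      constructor
      · rintro ⟨h1, h2⟩; exact ⟨h1, h1 ▸ h2⟩
      · rintro ⟨h1, h2⟩; exact ⟨h1, h1 ▸ h2⟩
  have hsdr : ∀ i r e, sd i (Sum.inl e) = Sum.inl r ↔ w e = r ∧ t e = !i := by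
    intro i r e
    by_cases h : t e = i
    · rw [hsd1 i e h]
      simp only [reduceCtorEq, h, false_iff, not_and]
      intro _
      cases i <;> simp
    · rw [hsd2 i e h, Sum.inl.injEq]
      constructor
      · intro h1
        refine ⟨h1, ?_⟩
        revert h
        cases i <;> cases t e <;> simp
      · exact fun h => h.1
  have hsdr' : ∀ i r y, sd i (Sum.inr y) ≠ Sum.inl r := by
    intro i r y
    simp [sd]
  have hs : ∀ i a, (univ.filter (fun e => sd i e = a)).card = Fintype.card C := by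
    rintro i (r | ⟨z, j⟩)
    · rw [filter_sum_card]
      have h1 : (univ.filter (fun a => sd i (Sum.inl a) = Sum.inl r)).card = n := by
        rw [← hw r (!i)]
        congr 1
        ext e
        simp only [mem_filter, mem_univ, true_and, hsdr]
      have h2 : (univ.filter (fun y => sd i (Sum.inr y) = Sum.inl r)).card = 0 := by
        rw [Finset.card_eq_zero, Finset.filter_eq_empty_iff]
        intro y _
        exact hsdr' i r y
      rw [h1, h2, add_zero]
    · rw [← hn, ← hg1 i z j, Finset.filter_filter]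
      congr 1
      ext e
      simp only [mem_filter, mem_univ, true_and, hsdz]
  obtain ⟨c, hc1, hc2⟩ := konig (sd false) (sd true) (hs false) (hs true)
  have hc : ∀ i a j, ∃! e, sd i e = a ∧ c e = j := by
    intro i
    cases i
    · exact hc1
    · exact hc2
  have hdum : ∀ z l l', c (Sum.inr (z, l)) = c (Sum.inr (z, l')) → l = l' := by
    intro z l l' h
    obtain ⟨e, _, hu'⟩ := hc true (Sum.inr (z, 0)) (c (Sum.inr (z, l)))
    have h1 := hu' (Sum.inr (z, l)) ⟨(hsdz _ _ _ _).2 ⟨rfl, hg2 true z l⟩, rfl⟩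
    have h2 := hu' (Sum.inr (z, l')) ⟨(hsdz _ _ _ _).2 ⟨rfl, hg2 true z l'⟩, h.symm⟩
    have h3 := h1.trans h2.symm
    simpa using h3
  refine ⟨fun e => c (Sum.inl e), fun z => univ.image (fun l => c (Sum.inr (z, l))), ?_, ?_, ?_⟩
  · intro r i j
    obtain ⟨e, ⟨he, hce⟩, hu'⟩ := hc (!i) (Sum.inl r) j
    rcases e with e | y
    · rw [hsdr, Bool.not_not] at he
      refine ⟨e, ⟨he.1, he.2, hce⟩, ?_⟩
      rintro e' ⟨h1, h2, h3⟩
      have := hu' (Sum.inl e') ⟨(hsdr _ _ _).2 ⟨h1, by rw [Bool.not_not]; exact h2⟩, h3⟩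
      exact Sum.inl.inj this
    · exact absurd he (hsdr' _ _ _)
  · intro z
    rw [Finset.card_image_of_injective _ (fun i i' h => hdum z i i' h), Finset.card_univ,
      Fintype.card_fin]
  · intro z i j
    have h1 : (univ.filter (fun e : E ⊕ (Z × Fin lam) => P i z e ∧ c e = j)).card = μ + 1 := by
      rw [card_of_existsUnique (J := Fin (μ + 1)) _ (fun e l => g i z e = l), Fintype.card_fin]
      · intro l
        obtain ⟨e, ⟨he, hce⟩, hu'⟩ := hc i (Sum.inr (z, l)) j
        rw [hsdz] at he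
        refine ⟨e, ⟨⟨he.1, hce⟩, he.2⟩, ?_⟩
        rintro e' ⟨⟨h1, h2⟩, h3⟩
        exact hu' e' ⟨(hsdz _ _ _ _).2 ⟨h1, h3⟩, h2⟩
      · intro y _; exact ⟨_, rfl⟩
      · intro y j j' _ h h'; exact h.symm.trans h'
    rw [filter_sum_card] at h1
    have h2 : (univ.filter (fun e => u e = z ∧ t e = i ∧ c (Sum.inl e) = j)).card
        = (univ.filter (fun a : E => P i z (Sum.inl a) ∧ c (Sum.inl a) = j)).card := by
      congr 1
      ext e
      rw [mem_filter, mem_filter]
      constructor
      · rintro ⟨_, h1, h2, h3⟩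
        exact ⟨mem_univ _, ⟨h1, h2⟩, h3⟩
      · rintro ⟨_, ⟨h1, h2⟩, h3⟩
        exact ⟨mem_univ _, h1, h2, h3⟩
    have h3 : (if j ∈ univ.image (fun l => c (Sum.inr (z, l))) then 1 else 0)
        = (univ.filter (fun a : Z × Fin lam => P i z (Sum.inr a) ∧ c (Sum.inr a) = j)).card := by
      by_cases hmem : j ∈ univ.image (fun l => c (Sum.inr (z, l)))
      · rw [if_pos hmem]
        obtain ⟨l, _, hl⟩ := Finset.mem_image.1 hmem
        symm
        rw [Finset.card_eq_one]
        refine ⟨(z, l), ?_⟩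
        ext ⟨z', l'⟩
        rw [mem_filter, mem_singleton, Prod.mk.injEq]
        constructor
        · rintro ⟨_, h', h⟩
          have h'' : z' = z := h'
          subst h''
          exact ⟨rfl, hdum _ _ _ (h.trans hl.symm)⟩
        · rintro ⟨rfl, rfl⟩
          exact ⟨mem_univ _, rfl, hl⟩
      · rw [if_neg hmem]
        symm
        rw [Finset.card_eq_zero, Finset.filter_eq_empty_iff]
        rintro ⟨z', l'⟩ _ ⟨h4, h5⟩
        have h6 : z' = z := h4
        subst h6
        exact hmem (Finset.mem_image.2 ⟨l', mem_univ _, h5⟩)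
    rw [h2, h3]
    exact h1

end Pool.Agent.Bireg91
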