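import Mathlib

/-!
# Path decomposition (Kempe chains) for two colours
-/

namespace Pool.Agent.Bireg91

open Finset

/-- number of indices of `B` sent to `x` -/
def cnt {R X : Type*} [DecidableEq X] (B : Finset R) (s : R → X) (x : X) : ℕ :=
  (B.filter (fun r => s r = x)).card

theorem cnt_erase {R X : Type*} [DecidableEq R] [DecidableEq X] (B : Finset R) (s : R → X)
    (x : X) {r : R} (hr : r ∈ B) :
    cnt (B.erase r) s x + (if s r = x then 1 else 0) = cnt B s x := by
  unfold cnt
  rw [Finset.filter_erase]
  split_ifs with h
  · rw [Finset.card_erase_of_mem (by simp [hr, h])]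
    have : 0 < (B.filter (fun r => s r = x)).card :=
      Finset.card_pos.2 ⟨r, by simp [hr, h]⟩
    omega
  · rw [Finset.erase_eq_of_notMem (by simp [h])]
    simp

theorem cnt_insert {R X : Type*} [DecidableEq R] [DecidableEq X] (B : Finset R) (s : R → X)
    (x : X) {r : R} (hr : r ∉ B) :
    cnt (insert r B) s x = cnt B s x + (if s r = x then 1 else 0) := by
  unfold cnt
  rw [Finset.filter_insert]
  split_ifs with h
  · rw [Finset.card_insert_of_notMem (by simp [hr])]
  · simp

theorem cnt_pos {R X : Type*} [DecidableEq X] {B : Finset R} {s : R → X}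
    {x : X} (h : 0 < cnt B s x) : ∃ r ∈ B, s r = x := by
  obtain ⟨r, hr⟩ := Finset.card_pos.1 h
  exact ⟨r, (Finset.mem_filter.1 hr).1, (Finset.mem_filter.1 hr).2⟩

theorem cnt_update_mem {R X : Type*} [DecidableEq R] [DecidableEq X] (B : Finset R) (s : R → X)
    (x y : X) {r : R} (hr : r ∈ B) :
    cnt B (Function.update s r y) x + (if s r = x then 1 else 0)
      = cnt B s x + (if y = x then 1 else 0) := by
  have h1 := cnt_erase B (Function.update s r y) x hr
  have h2 := cnt_erase B s x hr
  have h3 : cnt (B.erase r) (Function.update s r y) x = cnt (B.erase r) s x := by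
    unfold cnt
    congr 1
    apply Finset.filter_congr
    intro r' hr'
    rw [Function.update_of_ne (Finset.ne_of_mem_erase hr')]
  rw [Function.update_self] at h1
  omega

/-- **Kempe chains.** Nodes `r ∈ B` carry an arc `s r → t r`. If the excess (out minus in) is
the difference of the source multiset `a` and the sink multiset `c`, the arcs contain disjoint
trails joining sources bijectively to sinks. -/
theorem kempe {R X I J : Type*} [DecidableEq R] [DecidableEq X] [DecidableEq I] [DecidableEq J]
    [Nonempty J] (s t : R → X) (c : J → X) (N : ℕ) :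
    ∀ (B : Finset R) (J1 : Finset I) (J2 : Finset J) (a : I → X),
      B.card + J1.card ≤ N → J1.card = J2.card →
      (∀ x, cnt B s x + cnt J2 c x = cnt B t x + cnt J1 a x) →
      ∃ (σ : I → J) (P : I → Finset R), Set.BijOn σ J1 J2 ∧ (∀ i ∈ J1, P i ⊆ B) ∧
        (∀ i ∈ J1, ∀ i' ∈ J1, i ≠ i' → Disjoint (P i) (P i')) ∧
        ∀ i ∈ J1, ∀ x, cnt (P i) s x + (if c (σ i) = x then 1 else 0)
          = cnt (P i) t x + (if a i = x then 1 else 0) := by
  classical
  induction N with
  | zero =>
    intro B J1 J2 a h1 h2 h3
    have hJ1 : J1 = ∅ := Finset.card_eq_zero.1 (by omega)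
    have hJ2 : J2 = ∅ := Finset.card_eq_zero.1 (by rw [← h2, hJ1]; rfl)
    subst hJ1 hJ2
    refine ⟨fun _ => Classical.arbitrary J, fun _ => ∅, ?_, ?_, ?_, ?_⟩ <;> simp
  | succ N ih =>
    intro B J1 J2 a h1 h2 h3
    rcases J1.eq_empty_or_nonempty with hJ1 | ⟨i0, hi0⟩
    · have hJ2 : J2 = ∅ := Finset.card_eq_zero.1 (by rw [← h2, hJ1]; rfl)
      subst hJ1 hJ2
      refine ⟨fun _ => Classical.arbitrary J, fun _ => ∅, ?_, ?_, ?_, ?_⟩ <;> simp
    by_cases hm : ∃ i ∈ J1, ∃ j ∈ J2, a i = c j
    · obtain ⟨i, hi, j, hj, hij⟩ := hm
      have e1 : (J1.erase i).card + 1 = J1.card := Finset.card_erase_add_one hi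
      have e2 : (J2.erase j).card + 1 = J2.card := Finset.card_erase_add_one hj
      obtain ⟨σ, P, hσ, hP, hd, hx⟩ := ih B (J1.erase i) (J2.erase j) a (by omega) (by omega)
        (fun x => by
          have g1 := cnt_erase J1 a x hi
          have g2 := cnt_erase J2 c x hj
          have g3 := h3 x
          rw [hij] at g1
          omega)
      refine ⟨Function.update σ i j, Function.update P i ∅, ?_, ?_, ?_, ?_⟩
      · refine ⟨?_, ?_, ?_⟩
        · intro k hk
          by_cases hki : k = i
          · subst hki; simpa using hj
          · rw [Function.update_of_ne hki]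
            have := hσ.1 (show k ∈ ((J1.erase i : Finset I) : Set I) by
              simpa [hki] using hk)
            have h4 : σ k ∈ J2.erase j := Finset.mem_coe.1 this
            exact Finset.mem_coe.2 (Finset.mem_of_mem_erase h4)
        · intro k hk k' hk' hkk
          by_cases hki : k = i
          · by_cases hki' : k' = i
            · rw [hki, hki']
            · rw [hki, Function.update_self, Function.update_of_ne hki'] at hkk
              have := hσ.1 (show k' ∈ ((J1.erase i : Finset I) : Set I) by
                simpa [hki'] using hk')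
              rw [← hkk] at this
              simp at this
          · by_cases hki' : k' = i
            · rw [hki', Function.update_self, Function.update_of_ne hki] at hkk
              have := hσ.1 (show k ∈ ((J1.erase i : Finset I) : Set I) by
                simpa [hki] using hk)
              rw [hkk] at this
              simp at this
            · rw [Function.update_of_ne hki, Function.update_of_ne hki'] at hkk
              exact hσ.2.1 (by simpa [hki] using hk) (by simpa [hki'] using hk') hkk
        · intro k hk
          by_cases hkj : k = j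
          · exact ⟨i, by simpa using hi, by simp [hkj]⟩
          · obtain ⟨l, hl, hlk⟩ := hσ.2.2 (show k ∈ ((J2.erase j : Finset J) : Set J) by
              simpa [hkj] using hk)
            have hl' : l ∈ J1.erase i := Finset.mem_coe.1 hl
            refine ⟨l, Finset.mem_coe.2 (Finset.mem_of_mem_erase hl'), ?_⟩
            rw [Function.update_of_ne (Finset.ne_of_mem_erase hl'), hlk]
      · intro k hk
        by_cases hki : k = i
        · subst hki; simp
        · rw [Function.update_of_ne hki]
          exact hP k (Finset.mem_erase.2 ⟨hki, hk⟩)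
      · intro k hk k' hk' hne
        by_cases hki : k = i
        · subst hki; simp
        · by_cases hki' : k' = i
          · subst hki'; simp
          · rw [Function.update_of_ne hki, Function.update_of_ne hki']
            exact hd k (Finset.mem_erase.2 ⟨hki, hk⟩) k' (Finset.mem_erase.2 ⟨hki', hk'⟩) hne
      · intro k hk x
        by_cases hki : k = i
        · subst hki
          simp only [Function.update_self]
          rw [← hij]
          simp [cnt]
        · rw [Function.update_of_ne hki, Function.update_of_ne hki]
          exact hx k (Finset.mem_erase.2 ⟨hki, hk⟩) x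
    · push Not at hm
      have hz : cnt J2 c (a i0) = 0 := by
        unfold cnt
        rw [Finset.card_eq_zero, Finset.filter_eq_empty_iff]
        intro j hj h
        exact hm i0 hi0 j hj h.symm
      have hpos : 0 < cnt J1 a (a i0) := Finset.card_pos.2 ⟨i0, by simp [hi0]⟩
      have hB : 0 < cnt B s (a i0) := by
        have := h3 (a i0)
        omega
      obtain ⟨r, hr, hsr⟩ := cnt_pos hB
      have e1 : (B.erase r).card + 1 = B.card := Finset.card_erase_add_one hr
      obtain ⟨σ, P, hσ, hP, hd, hx⟩ := ih (B.erase r) J1 J2 (Function.update a i0 (t r))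
        (by omega) h2 (fun x => by
          have g1 := cnt_erase B s x hr
          have g2 := cnt_erase B t x hr
          have g3 := cnt_update_mem J1 a x (t r) hi0
          have g4 := h3 x
          rw [hsr] at g1
          omega)
      have hrP : ∀ k ∈ J1, r ∉ P k := fun k hk h => by
        have := hP k hk h
        simp at this
      refine ⟨σ, Function.update P i0 (insert r (P i0)), hσ, ?_, ?_, ?_⟩
      · intro k hk
        by_cases hki : k = i0
        · subst hki
          rw [Function.update_self]
          intro r' hr'
          rcases Finset.mem_insert.1 hr' with h | h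
          · rw [h]; exact hr
          · exact Finset.mem_of_mem_erase (hP k hk h)
        · rw [Function.update_of_ne hki]
          exact (hP k hk).trans (Finset.erase_subset _ _)
      · intro k hk k' hk' hne
        by_cases hki : k = i0
        · subst hki
          rw [Function.update_self, Function.update_of_ne hne.symm]
          rw [Finset.disjoint_insert_left]
          exact ⟨hrP k' hk', hd k hk k' hk' hne⟩
        · by_cases hki' : k' = i0
          · subst hki'
            rw [Function.update_self, Function.update_of_ne hki]
            rw [Finset.disjoint_insert_right]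
            exact ⟨hrP k hk, hd k hk k' hk' hne⟩
          · rw [Function.update_of_ne hki, Function.update_of_ne hki']
            exact hd k hk k' hk' hne
      · intro k hk x
        have g := hx k hk x
        by_cases hki : k = i0
        · subst hki
          rw [Function.update_self] at g ⊢
          rw [cnt_insert _ _ _ (hrP k hk), cnt_insert _ _ _ (hrP k hk), hsr]
          omega
        · rw [Function.update_of_ne hki] at g ⊢
          exact g

theorem cnt_biUnion {R X I : Type*} [DecidableEq R] [DecidableEq X] [DecidableEq I]
    (Q : Finset I) (P : I → Finset R) (s : R → X) (x : X)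
    (hd : ∀ i ∈ Q, ∀ i' ∈ Q, i ≠ i' → Disjoint (P i) (P i')) :
    cnt (Q.biUnion P) s x = ∑ i ∈ Q, cnt (P i) s x := by
  unfold cnt
  rw [Finset.filter_biUnion, Finset.card_biUnion]
  intro i hi i' hi' hne
  exact Finset.disjoint_filter_filter (hd i hi i' hi' hne)

/-- exchanging the colours `c`, `c'` at the nodes of `P` -/
def swapOn {R C X : Type*} [DecidableEq R] [DecidableEq C] (pos : R → C → X) (P : Finset R)
    (c c' : C) : R → C → X :=
  fun r => if r ∈ P then pos r ∘ (Equiv.swap c c') else pos r

theorem swapOn_content {R C X : Type*} [DecidableEq R] [DecidableEq C] [DecidableEq X]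
    [Fintype C] (pos : R → C → X) (P : Finset R) (c c' : C) (r : R) (x : X) :
    cnt univ (swapOn pos P c c' r) x = cnt univ (pos r) x := by
  unfold swapOn
  split_ifs with h
  · unfold cnt
    apply Finset.card_bij (fun k _ => Equiv.swap c c' k)
    · intro k hk
      simpa using hk
    · intro k _ k' _ hkk
      exact (Equiv.swap c c').injective hkk
    · intro k hk
      exact ⟨Equiv.swap c c' k, by simpa using hk, by simp⟩
  · rfl

theorem swapOn_other {R C X : Type*} [DecidableEq R] [DecidableEq C] [DecidableEq X]
    [Fintype R] (pos : R → C → X) (P : Finset R) (c c' k : C) (h1 : k ≠ c) (h2 : k ≠ c') (x : X) :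
    cnt univ (fun r => swapOn pos P c c' r k) x = cnt univ (fun r => pos r k) x := by
  have : (fun r => swapOn pos P c c' r k) = fun r => pos r k := by
    funext r
    unfold swapOn
    split_ifs with h
    · simp [Equiv.swap_apply_of_ne_of_ne h1 h2]
    · rfl
  rw [this]

theorem swapOn_left {R C X : Type*} [DecidableEq R] [DecidableEq C] [DecidableEq X]
    [Fintype R] (pos : R → C → X) (P : Finset R) (c c' : C) (x : X) :
    cnt univ (fun r => swapOn pos P c c' r c) x + cnt P (fun r => pos r c) x
      = cnt univ (fun r => pos r c) x + cnt P (fun r => pos r c') x := by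
  have key : ∀ (s : R → X), cnt univ s x = cnt P s x + cnt Pᶜ s x := by
    intro s
    unfold cnt
    rw [← Finset.card_union_of_disjoint, ← Finset.filter_union, Finset.union_compl]
    exact Finset.disjoint_filter_filter disjoint_compl_right
  have h1 : cnt P (fun r => swapOn pos P c c' r c) x = cnt P (fun r => pos r c') x := by
    unfold cnt
    congr 1
    apply Finset.filter_congr
    intro r hr
    simp [swapOn, hr]
  have h2 : cnt Pᶜ (fun r => swapOn pos P c c' r c) x = cnt Pᶜ (fun r => pos r c) x := by
    unfold cnt
    congr 1
    apply Finset.filter_congr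
    intro r hr
    have : r ∉ P := by simpa using hr
    simp [swapOn, this]
  rw [key (fun r => swapOn pos P c c' r c), key (fun r => pos r c), h1, h2]
  omega

theorem swapOn_comm {R C X : Type*} [DecidableEq R] [DecidableEq C]
    (pos : R → C → X) (P : Finset R) (c c' : C) : swapOn pos P c c' = swapOn pos P c' c := by
  unfold swapOn
  rw [Equiv.swap_comm]

/-- Kempe exchange for the colours `c`, `c'` of a colouring `pos`. -/
theorem kempe_pos {R C X : Type*} [DecidableEq R] [DecidableEq C] [DecidableEq X]
    [Fintype R] [Fintype C] (pos : R → C → X) (c c' : C) (A B : Finset X)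
    (hcard : A.card = B.card)
    (h : ∀ x, cnt univ (fun r => pos r c) x + (if x ∈ B then 1 else 0)
      = cnt univ (fun r => pos r c') x + (if x ∈ A then 1 else 0)) :
    ∃ σ : X → X, Set.BijOn σ A B ∧ ∀ Q ⊆ A, ∃ pos' : R → C → X,
      (∀ r x, cnt univ (pos' r) x = cnt univ (pos r) x) ∧
      (∀ k, k ≠ c → k ≠ c' → ∀ x, cnt univ (fun r => pos' r k) x = cnt univ (fun r => pos r k) x) ∧
      (∀ x, cnt univ (fun r => pos' r c) x + (if x ∈ Q then 1 else 0)
        = cnt univ (fun r => pos r c) x + (if x ∈ Q.image σ then 1 else 0)) ∧
      (∀ x, cnt univ (fun r => pos' r c') x + (if x ∈ Q.image σ then 1 else 0)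
        = cnt univ (fun r => pos r c') x + (if x ∈ Q then 1 else 0)) := by
  classical
  rcases A.eq_empty_or_nonempty with hA | hA
  · have hB : B = ∅ := Finset.card_eq_zero.1 (by rw [← hcard, hA]; rfl)
    subst hA hB
    refine ⟨id, by simp, ?_⟩
    intro Q hQ
    have : Q = ∅ := Finset.subset_empty.1 hQ
    subst this
    exact ⟨pos, fun _ _ => rfl, fun _ _ _ _ => rfl, fun _ => by simp, fun _ => by simp⟩
  have : Nonempty X := ⟨hA.choose⟩
  have hid : ∀ (J : Finset X) (x : X), cnt J id x = if x ∈ J then 1 else 0 := by
    intro J x
    unfold cnt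
    simp only [id]
    rw [Finset.filter_eq']
    split_ifs <;> simp
  obtain ⟨σ, P, hσ, hP, hd, hx⟩ := kempe (fun r => pos r c) (fun r => pos r c') (id : X → X)
    _ univ A B id le_rfl hcard (fun x => by rw [hid, hid]; exact h x)
  refine ⟨σ, hσ, ?_⟩
  intro Q hQ
  have hdQ : ∀ i ∈ Q, ∀ i' ∈ Q, i ≠ i' → Disjoint (P i) (P i') := fun i hi i' hi' hne =>
    hd i (hQ hi) i' (hQ hi') hne
  have hsum : ∀ x, cnt (Q.biUnion P) (fun r => pos r c) x + (if x ∈ Q.image σ then 1 else 0)
      = cnt (Q.biUnion P) (fun r => pos r c') x + (if x ∈ Q then 1 else 0) := by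
    intro x
    rw [cnt_biUnion _ _ _ _ hdQ, cnt_biUnion _ _ _ _ hdQ]
    have e1 : (if x ∈ Q.image σ then 1 else 0) = ∑ i ∈ Q, (if σ i = x then 1 else 0) := by
      rw [← Finset.card_filter]
      split_ifs with hm
      · obtain ⟨i, hi, hix⟩ := Finset.mem_image.1 hm
        symm
        rw [Finset.card_eq_one]
        refine ⟨i, ?_⟩
        ext j
        simp only [Finset.mem_filter, Finset.mem_singleton]
        constructor
        · rintro ⟨hj, hjx⟩
          exact hσ.2.1 (Finset.mem_coe.2 (hQ hj)) (Finset.mem_coe.2 (hQ hi)) (hjx.trans hix.symm)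
        · rintro rfl
          exact ⟨hi, hix⟩
      · symm
        rw [Finset.card_eq_zero, Finset.filter_eq_empty_iff]
        intro i hi hix
        exact hm (Finset.mem_image.2 ⟨i, hi, hix⟩)
    have e2 : (if x ∈ Q then 1 else 0) = ∑ i ∈ Q, (if i = x then 1 else 0) := by
      simp
    rw [e1, e2, ← Finset.sum_add_distrib, ← Finset.sum_add_distrib]
    exact Finset.sum_congr rfl (fun i hi => by simpa using hx i (hQ hi) x)
  refine ⟨swapOn pos (Q.biUnion P) c c', fun r x => swapOn_content _ _ _ _ _ _,
    fun k h1 h2 x => swapOn_other _ _ _ _ _ h1 h2 _, fun x => ?_, fun x => ?_⟩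
  · have g1 := swapOn_left pos (Q.biUnion P) c c' x
    have g2 := hsum x
    omega
  · have g1 := swapOn_left pos (Q.biUnion P) c' c x
    rw [swapOn_comm] at g1
    have g2 := hsum x
    omega

end Pool.Agent.Bireg91
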