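import Pool.Agent.Bireg91.Konig
import Pool.Agent.Bireg91.Kempe

/-!
# Colourings of biregular bipartite multigraphs from Koenig's theorem
-/

namespace Pool.Agent.Bireg91

open Finset

/-- number of solutions of `∃!` conditions indexed by `J` -/
theorem card_of_existsUnique {E J : Type*} [Fintype E] [Fintype J] [DecidableEq E]
    [DecidableEq J] (p : E → Prop) [DecidablePred p] (q : E → J → Prop)
    (h1 : ∀ j, ∃! e, p e ∧ q e j) (h2 : ∀ e, p e → ∃ j, q e j)
    (h3 : ∀ e j j', p e → q e j → q e j' → j = j') :
    (univ.filter p).card = Fintype.card J := by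
  classical
  choose f hf hfu using h1
  rw [← Finset.card_univ (α := J)]
  symm
  apply Finset.card_bij (fun j _ => f j)
  · intro j _
    simp only [mem_filter, mem_univ, true_and]
    exact (hf j).1
  · intro j _ j' _ hjj
    exact h3 (f j) j j' (hf j).1 (hf j).2 (hjj ▸ (hf j').2)
  · intro e he
    simp only [mem_filter, mem_univ, true_and] at he
    obtain ⟨j, hj⟩ := h2 e he
    exact ⟨j, mem_univ _, (hfu j e ⟨he, hj⟩).symm⟩

theorem filter_sum_card {A B : Type*} [Fintype A] [Fintype B] (p : A ⊕ B → Prop)
    [DecidablePred p] : (univ.filter p).card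
      = (univ.filter (fun a => p (Sum.inl a))).card + (univ.filter (fun b => p (Sum.inr b))).card := by
  classical
  rw [← Finset.card_map (Function.Embedding.inl : A ↪ A ⊕ B),
    ← Finset.card_map (Function.Embedding.inr : B ↪ A ⊕ B), ← Finset.card_union_of_disjoint]
  · congr 1
    ext x
    rcases x with a | b <;> simp
  · rw [Finset.disjoint_left]
    intro x hx hx'
    rcases x with a | b
    · simp at hx'
    · simp at hx

theorem card_filter_fst {X : Type*} [Fintype X] [DecidableEq X] (δ : ℕ) (x : X) :
    (univ.filter (fun y : X × Fin δ => y.1 = x)).card = δ := by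
  have : univ.filter (fun y : X × Fin δ => y.1 = x)
      = (univ : Finset (Fin δ)).image (fun i => (x, i)) := by
    ext ⟨a, i⟩
    simp only [mem_filter, mem_univ, true_and, mem_image, Prod.mk.injEq]
    constructor
    · rintro rfl; exact ⟨i, rfl, rfl⟩
    · rintro ⟨_, h, _⟩; exact h.symm
  rw [this, Finset.card_image_of_injective _ (fun i j h => (Prod.ext_iff.1 h).2),
    Finset.card_univ, Fintype.card_fin]

/-- Colourings with prescribed defect. -/
theorem init {E X R C B0 : Type} [Fintype E] [Fintype X] [Fintype R] [Fintype C] [Fintype B0]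
    [DecidableEq E] [DecidableEq X] [DecidableEq R] [DecidableEq C] [DecidableEq B0]
    (u : E → X) (w : E → R) (d δ μ κ s : ℕ) (side : X → B0)
    (hw : ∀ r, (univ.filter (fun e => w e = r)).card = Fintype.card C)
    (hu : ∀ x, (univ.filter (fun e => u e = x)).card = d)
    (hd : d + δ = (μ + 1) * Fintype.card C) (hδ : δ ≤ Fintype.card C)
    (hside : ∀ β, (univ.filter (fun x => side x = β)).card = s)
    (hs : s * δ = (κ + 1) * Fintype.card C) :
    ∃ (pos : R → C → X) (Λ : X → Finset C),
      (∀ r x, cnt univ (pos r) x = (univ.filter (fun e => w e = r ∧ u e = x)).card) ∧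
      (∀ x, (Λ x).card = δ) ∧
      (∀ β c, (univ.filter (fun x => side x = β ∧ c ∈ Λ x)).card = κ + 1) ∧
      ∀ x c, cnt univ (fun r => pos r c) x + (if c ∈ Λ x then 1 else 0) = μ + 1 := by
  classical
  set n := Fintype.card C with hn
  let f : E ⊕ (X × Fin δ) → X := Sum.elim u Prod.fst
  have hf : ∀ x, (univ.filter (fun e => f e = x)).card = (μ + 1) * n := by
    intro x
    have h1 : (univ.filter (fun a => f (Sum.inl a) = x)).card = d := hu x
    have h2 : (univ.filter (fun y => f (Sum.inr y) = x)).card = δ := card_filter_fst δ x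
    rw [filter_sum_card, ← hd, h1, h2]
  have hg : ∀ x, ∃ g : E ⊕ (X × Fin δ) → Fin (μ + 1),
      (∀ j, ((univ.filter (fun e => f e = x)).filter (fun e => g e = j)).card = n) ∧
      ∀ i, g (Sum.inr (x, i)) = 0 := by
    intro x
    obtain ⟨g, hg1, hg2⟩ := split_set n μ (univ.filter (fun e => f e = x))
      ((univ : Finset (Fin δ)).image (fun i => (Sum.inr (x, i) : E ⊕ (X × Fin δ)))) (hf x)
      (by
        intro e he
        obtain ⟨i, _, rfl⟩ := Finset.mem_image.1 he
        simp [f])
      (by
        refine (Finset.card_image_le).trans ?_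
        simpa using hδ)
    exact ⟨g, hg1, fun i => hg2 _ (Finset.mem_image_of_mem _ (mem_univ i))⟩
  choose g hg1 hg2 using hg
  have hk : ∀ β : B0, ∃ k : X × Fin δ → Fin (κ + 1),
      ∀ j, ((univ.filter (fun y : X × Fin δ => side y.1 = β)).filter (fun y => k y = j)).card = n := by
    intro β
    have hcard : (univ.filter (fun y : X × Fin δ => side y.1 = β)).card = (κ + 1) * n := by
      have : univ.filter (fun y : X × Fin δ => side y.1 = β)
          = (univ.filter (fun x => side x = β)) ×ˢ (univ : Finset (Fin δ)) := by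
        ext ⟨x, i⟩; simp
      rw [this, Finset.card_product, hside β, Finset.card_univ, Fintype.card_fin, hs]
    obtain ⟨k, hk1, _⟩ := split_set n κ _ ∅ hcard (Finset.empty_subset _) (by simp)
    exact ⟨k, hk1⟩
  choose k hk1 using hk
  let t' : E ⊕ (X × Fin δ) → X × Fin (μ + 1) := fun e => (f e, g (f e) e)
  let s' : E ⊕ (X × Fin δ) → R ⊕ (B0 × Fin (κ + 1)) :=
    Sum.elim (fun e => Sum.inl (w e)) (fun y => Sum.inr (side y.1, k (side y.1) y))
  have ht' : ∀ b, (univ.filter (fun e => t' e = b)).card = Fintype.card C := by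
    rintro ⟨x, j⟩
    rw [← hn, ← hg1 x j, Finset.filter_filter]
    congr 1
    ext e
    simp only [mem_filter, mem_univ, true_and, t', Prod.mk.injEq]
    constructor
    · rintro ⟨h1, h2⟩; exact ⟨h1, h1 ▸ h2⟩
    · rintro ⟨h1, h2⟩; exact ⟨h1, h1 ▸ h2⟩
  have hs' : ∀ a, (univ.filter (fun e => s' e = a)).card = Fintype.card C := by
    rintro (r | ⟨β, j⟩)
    · rw [filter_sum_card]
      have h1 : (univ.filter (fun a => s' (Sum.inl a) = Sum.inl r)).card = n := by
        rw [← hw r]
        congr 1
        ext e
        simp [s']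
      have h2 : (univ.filter (fun y => s' (Sum.inr y) = Sum.inl r)).card = 0 := by
        rw [Finset.card_eq_zero, Finset.filter_eq_empty_iff]
        intro y _
        simp [s']
      rw [h1, h2, add_zero]
    · rw [filter_sum_card]
      have h1 : (univ.filter (fun a => s' (Sum.inl a) = Sum.inr (β, j))).card = 0 := by
        rw [Finset.card_eq_zero, Finset.filter_eq_empty_iff]
        intro y _
        simp [s']
      have h2 : (univ.filter (fun y => s' (Sum.inr y) = Sum.inr (β, j))).card = n := by
        rw [← hk1 β j, Finset.filter_filter]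
        congr 1
        ext y
        simp only [mem_filter, mem_univ, true_and, s', Sum.elim_inr, Sum.inr.injEq, Prod.mk.injEq]
        constructor
        · rintro ⟨h1, h2⟩; exact ⟨h1, h1 ▸ h2⟩
        · rintro ⟨h1, h2⟩; exact ⟨h1, h1 ▸ h2⟩
      rw [h1, h2, zero_add]
  obtain ⟨c, hc1, hc2⟩ := konig s' t' hs' ht'
  -- the colouring of the real edges
  have heR : ∀ r i, ∃ e : E, w e = r ∧ c (Sum.inl e) = i ∧
      ∀ e' : E, w e' = r → c (Sum.inl e') = i → e' = e := by
    intro r i
    obtain ⟨e, ⟨he, hce⟩, hu'⟩ := hc1 (Sum.inl r) i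
    rcases e with e | y
    · refine ⟨e, ?_, hce, ?_⟩
      · simpa [s'] using he
      · intro e' h1 h2
        have := hu' (Sum.inl e') ⟨by simp [s', h1], h2⟩
        exact Sum.inl.inj this
    · simp [s'] at he
  choose eR heR1 heR2 heR3 using heR
  have hdum : ∀ x i i', c (Sum.inr (x, i)) = c (Sum.inr (x, i')) → i = i' := by
    intro x i i' h
    obtain ⟨e, _, hu'⟩ := hc2 (x, 0) (c (Sum.inr (x, i)))
    have h1 := hu' (Sum.inr (x, i)) ⟨Prod.ext rfl (hg2 x i), rfl⟩
    have h2 := hu' (Sum.inr (x, i')) ⟨Prod.ext rfl (hg2 x i'), h.symm⟩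
    have h3 := h1.trans h2.symm
    simpa using h3
  refine ⟨fun r i => u (eR r i), fun x => univ.image (fun i => c (Sum.inr (x, i))), ?_, ?_, ?_, ?_⟩
  · intro r x
    unfold cnt
    apply Finset.card_bij (fun i _ => eR r i)
    · intro i hi
      simp only [mem_filter, mem_univ, true_and] at hi ⊢
      exact ⟨heR1 r i, hi⟩
    · intro i _ i' _ h
      rw [← heR2 r i, h, heR2 r i']
    · intro e he
      simp only [mem_filter, mem_univ, true_and] at he
      have : e = eR r (c (Sum.inl e)) := heR3 r _ e he.1 rfl
      exact ⟨c (Sum.inl e), by simp only [mem_filter, mem_univ, true_and]; rw [← this]; exact he.2,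
        this.symm⟩
  · intro x
    rw [Finset.card_image_of_injective _ (fun i i' h => hdum x i i' h), Finset.card_univ,
      Fintype.card_fin]
  · intro β i
    have h1 : (univ.filter (fun x => side x = β ∧ i ∈ univ.image (fun j => c (Sum.inr (x, j))))).card
        = (univ.filter (fun y : X × Fin δ => side y.1 = β ∧ c (Sum.inr y) = i)).card := by
      symm
      apply Finset.card_bij (fun y _ => y.1)
      · intro y hy
        simp only [mem_filter, mem_univ, true_and, mem_image] at hy ⊢
        exact ⟨hy.1, y.2, hy.2⟩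
      · rintro ⟨x, j⟩ hy ⟨x', j'⟩ hy' h
        simp only [mem_filter, mem_univ, true_and] at hy hy' h
        subst h
        rw [hdum x j j' (hy.2.trans hy'.2.symm)]
      · intro x hx
        simp only [mem_filter, mem_univ, true_and, mem_image] at hx
        obtain ⟨h, j, hj⟩ := hx
        exact ⟨(x, j), by simp [h, hj], rfl⟩
    rw [h1, card_of_existsUnique (J := Fin (κ + 1)) _ (fun y j => k (side y.1) y = j), Fintype.card_fin]
    · intro j
      obtain ⟨e, ⟨he, hce⟩, hu'⟩ := hc1 (Sum.inr (β, j)) i
      rcases e with e | y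
      · simp [s'] at he
      · simp only [s', Sum.elim_inr, Sum.inr.injEq, Prod.mk.injEq] at he
        refine ⟨y, ⟨⟨he.1, hce⟩, he.2⟩, ?_⟩
        rintro y' ⟨⟨h1, h2⟩, h3⟩
        have h4 : s' (Sum.inr y') = Sum.inr (β, j) := by
          simp only [s', Sum.elim_inr]
          rw [h3, h1]
        have := hu' (Sum.inr y') ⟨h4, h2⟩
        exact Sum.inr.inj this
    · intro y _; exact ⟨_, rfl⟩
    · intro y j j' _ h h'; exact h.symm.trans h'
  · intro x i
    have h1 : (univ.filter (fun e : E ⊕ (X × Fin δ) => f e = x ∧ c e = i)).card = μ + 1 := by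
      rw [card_of_existsUnique (J := Fin (μ + 1)) _ (fun e j => g (f e) e = j), Fintype.card_fin]
      · intro j
        obtain ⟨e, ⟨he, hce⟩, hu'⟩ := hc2 (x, j) i
        simp only [t', Prod.mk.injEq] at he
        refine ⟨e, ⟨⟨he.1, hce⟩, he.2⟩, ?_⟩
        rintro e' ⟨⟨h1, h2⟩, h3⟩
        exact hu' e' ⟨Prod.ext h1 h3, h2⟩
      · intro y _; exact ⟨_, rfl⟩
      · intro y j j' _ h h'; exact h.symm.trans h'
    rw [filter_sum_card] at h1
    have h2 : cnt univ (fun r => u (eR r i)) x
        = (univ.filter (fun a : E => f (Sum.inl a) = x ∧ c (Sum.inl a) = i)).card := by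
      unfold cnt
      apply Finset.card_bij (fun r _ => eR r i)
      · intro r hr
        rw [mem_filter] at hr ⊢
        exact ⟨mem_univ _, hr.2, heR2 r i⟩
      · intro r _ r' _ h
        rw [← heR1 r i, h, heR1 r' i]
      · intro e he
        rw [mem_filter] at he
        have : e = eR (w e) i := heR3 _ _ e rfl he.2.2
        refine ⟨w e, ?_, this.symm⟩
        rw [mem_filter]
        refine ⟨mem_univ _, ?_⟩
        change u (eR (w e) i) = x
        rw [← this]; exact he.2.1
    have h3 : (if i ∈ univ.image (fun j => c (Sum.inr (x, j))) then 1 else 0)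
        = (univ.filter (fun a : X × Fin δ => f (Sum.inr a) = x ∧ c (Sum.inr a) = i)).card := by
      by_cases hmem : i ∈ univ.image (fun j => c (Sum.inr (x, j)))
      · rw [if_pos hmem]
        obtain ⟨j, _, hj⟩ := Finset.mem_image.1 hmem
        symm
        rw [Finset.card_eq_one]
        refine ⟨(x, j), ?_⟩
        ext ⟨x', j'⟩
        rw [mem_filter, mem_singleton, Prod.mk.injEq]
        constructor
        · rintro ⟨_, h', h⟩
          have h'' : x' = x := h'
          subst h''
          exact ⟨rfl, hdum _ _ _ (h.trans hj.symm)⟩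
        · rintro ⟨rfl, rfl⟩
          exact ⟨mem_univ _, rfl, hj⟩
      · rw [if_neg hmem]
        symm
        rw [Finset.card_eq_zero, Finset.filter_eq_empty_iff]
        rintro ⟨x', j'⟩ _ ⟨h4, h5⟩
        have h6 : x' = x := h4
        subst h6
        exact hmem (Finset.mem_image.2 ⟨j', mem_univ _, h5⟩)
    rw [h2, h3]
    exact h1

end Pool.Agent.Bireg91
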