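import Mathlib

/-!
# Koenig's theorem for regular bipartite multigraphs, in edge form
-/

namespace Pool.Agent.Bireg91

open Finset

universe u v w

/-- A regular bipartite multigraph (edge set `E`, ends `s`, `t`) of positive degree has a
perfect matching. -/
theorem exists_matching {E : Type u} {A : Type v} {B : Type w} [Fintype E] [DecidableEq E]
    [Fintype A] [DecidableEq A] [Fintype B] [DecidableEq B] (n : ℕ) (hn : 0 < n)
    (s : E → A) (t : E → B)
    (hs : ∀ a, (univ.filter (fun e => s e = a)).card = n)
    (ht : ∀ b, (univ.filter (fun e => t e = b)).card = n) :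
    ∃ F : Finset E, (∀ a, ∃! e, e ∈ F ∧ s e = a) ∧ (∀ b, ∃! e, e ∈ F ∧ t e = b) := by
  classical
  have cardA : Fintype.card E = Fintype.card A * n := by
    have h := Finset.card_eq_sum_card_fiberwise (f := s) (s := (univ : Finset E))
      (t := (univ : Finset A)) (fun _ _ => Finset.mem_coe.2 (mem_univ _))
    rw [Finset.card_univ] at h
    rw [h, Finset.sum_congr rfl (fun a _ => hs a)]
    simp
  have cardB : Fintype.card E = Fintype.card B * n := by
    have h := Finset.card_eq_sum_card_fiberwise (f := t) (s := (univ : Finset E))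
      (t := (univ : Finset B)) (fun _ _ => Finset.mem_coe.2 (mem_univ _))
    rw [Finset.card_univ] at h
    rw [h, Finset.sum_congr rfl (fun a _ => ht a)]
    simp
  have cardAB : Fintype.card A = Fintype.card B :=
    Nat.eq_of_mul_eq_mul_right hn (cardA.symm.trans cardB)
  let N : A → Finset B := fun a => (univ.filter (fun e => s e = a)).image t
  have hall : ∀ S : Finset A, S.card ≤ (S.biUnion N).card := by
    intro S
    have h1 : (univ.filter (fun e => s e ∈ S)).card = S.card * n := by
      have h := Finset.card_eq_sum_card_fiberwise (f := s) (s := univ.filter (fun e => s e ∈ S))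
        (t := S) (fun e he => by simpa using he)
      rw [h]
      rw [Finset.sum_congr rfl (g := fun _ => n)]
      · simp
      · intro a ha
        rw [← hs a]
        congr 1
        ext e
        simp only [mem_filter, mem_univ, true_and]
        constructor
        · rintro ⟨_, h⟩; exact h
        · intro h; exact ⟨h ▸ ha, h⟩
    have h2 : (univ.filter (fun e => s e ∈ S)).card ≤ (S.biUnion N).card * n := by
      have h := Finset.card_eq_sum_card_fiberwise (f := t) (s := univ.filter (fun e => s e ∈ S))
        (t := S.biUnion N) (fun e he => by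
          have he' : s e ∈ S := by simpa using he
          rw [Finset.mem_coe, Finset.mem_biUnion]
          exact ⟨s e, he', Finset.mem_image.2 ⟨e, by simp, rfl⟩⟩)
      rw [h]
      calc ∑ b ∈ S.biUnion N, ((univ.filter (fun e => s e ∈ S)).filter (fun e => t e = b)).card
          ≤ ∑ b ∈ S.biUnion N, n := by
            apply Finset.sum_le_sum
            intro b _
            rw [← ht b]
            apply Finset.card_le_card
            intro e he
            simp only [mem_filter, mem_univ, true_and] at he ⊢
            exact he.2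
        _ = (S.biUnion N).card * n := by simp
    exact Nat.le_of_mul_le_mul_right (h1 ▸ h2) hn
  obtain ⟨f, finj, hf⟩ := (Finset.all_card_le_biUnion_card_iff_exists_injective N).1 hall
  have fbij : Function.Bijective f :=
    (Fintype.bijective_iff_injective_and_card f).2 ⟨finj, cardAB⟩
  have hex : ∀ a, ∃ e, s e = a ∧ t e = f a := by
    intro a
    obtain ⟨e, he, h⟩ := Finset.mem_image.1 (hf a)
    exact ⟨e, by simpa using he, h⟩
  choose g hg1 hg2 using hex
  refine ⟨univ.image g, ?_, ?_⟩
  · intro a
    refine ⟨g a, ⟨mem_image_of_mem _ (mem_univ _), hg1 a⟩, ?_⟩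
    rintro e ⟨he, hea⟩
    obtain ⟨a', _, rfl⟩ := mem_image.1 he
    rw [← hea, hg1]
  · intro b
    obtain ⟨a, rfl⟩ := fbij.2 b
    refine ⟨g a, ⟨mem_image_of_mem _ (mem_univ _), hg2 a⟩, ?_⟩
    rintro e ⟨he, hea⟩
    obtain ⟨a', _, rfl⟩ := mem_image.1 he
    rw [hg2] at hea
    rw [finj hea]

/-- Koenig: an `n`-regular bipartite multigraph is properly `n`-edge-colourable. -/
theorem konig_fin {A : Type v} {B : Type w} [Fintype A] [DecidableEq A] [Fintype B]
    [DecidableEq B] (n : ℕ) : ∀ {E : Type u} [Fintype E] [DecidableEq E]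
    (s : E → A) (t : E → B)
    (_ : ∀ a, (univ.filter (fun e => s e = a)).card = n)
    (_ : ∀ b, (univ.filter (fun e => t e = b)).card = n),
    ∃ c : E → Fin n, (∀ a i, ∃! e, s e = a ∧ c e = i) ∧ (∀ b i, ∃! e, t e = b ∧ c e = i) := by
  classical
  induction n with
  | zero =>
    intro E _ _ s t hs ht
    have : IsEmpty E := ⟨fun e => by
      have := hs (s e)
      rw [Finset.card_eq_zero] at this
      have h2 : e ∈ univ.filter (fun e' => s e' = s e) := by simp
      rw [this] at h2
      simp at h2⟩
    exact ⟨fun e => (this.false e).elim, fun a i => i.elim0, fun b i => i.elim0⟩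
  | succ n ih =>
    intro E _ _ s t hs ht
    obtain ⟨F, hF1, hF2⟩ := exists_matching (n + 1) (Nat.succ_pos n) s t hs ht
    have cnt : ∀ {X : Type v} [DecidableEq X] (f : E → X) (x : X)
        (_ : (univ.filter (fun e => f e = x)).card = n + 1) (_ : ∃! e, e ∈ F ∧ f e = x),
        (univ.filter (fun e : {e // e ∉ F} => f e.1 = x)).card = n := by
      intro X _ f x h1 h2
      obtain ⟨e0, ⟨he0, hfe0⟩, huniq⟩ := h2
      have h3 : ((univ.filter (fun e : {e // e ∉ F} => f e.1 = x)).map
          (Function.Embedding.subtype _)) = (univ.filter (fun e => f e = x)).erase e0 := by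
        ext e
        simp only [mem_map, mem_filter, mem_univ, true_and, Function.Embedding.coe_subtype,
          mem_erase, Subtype.exists, exists_and_right, exists_eq_right]
        constructor
        · rintro ⟨h, h'⟩
          refine ⟨fun hh => h (hh ▸ he0), h'⟩
        · rintro ⟨h, h'⟩
          exact ⟨fun hh => h (huniq e ⟨hh, h'⟩), h'⟩
      rw [← Finset.card_map (Function.Embedding.subtype _), h3, Finset.card_erase_of_mem, h1]
      · rfl
      · simp [hfe0]
    have cnt' : ∀ {X : Type w} [DecidableEq X] (f : E → X) (x : X)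
        (_ : (univ.filter (fun e => f e = x)).card = n + 1) (_ : ∃! e, e ∈ F ∧ f e = x),
        (univ.filter (fun e : {e // e ∉ F} => f e.1 = x)).card = n := by
      intro X _ f x h1 h2
      obtain ⟨e0, ⟨he0, hfe0⟩, huniq⟩ := h2
      have h3 : ((univ.filter (fun e : {e // e ∉ F} => f e.1 = x)).map
          (Function.Embedding.subtype _)) = (univ.filter (fun e => f e = x)).erase e0 := by
        ext e
        simp only [mem_map, mem_filter, mem_univ, true_and, Function.Embedding.coe_subtype,
          mem_erase, Subtype.exists, exists_and_right, exists_eq_right]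
        constructor
        · rintro ⟨h, h'⟩
          refine ⟨fun hh => h (hh ▸ he0), h'⟩
        · rintro ⟨h, h'⟩
          exact ⟨fun hh => h (huniq e ⟨hh, h'⟩), h'⟩
      rw [← Finset.card_map (Function.Embedding.subtype _), h3, Finset.card_erase_of_mem, h1]
      · rfl
      · simp [hfe0]
    obtain ⟨c, hc1, hc2⟩ := ih (E := {e // e ∉ F}) (fun e => s e.1) (fun e => t e.1)
      (fun a => cnt s a (hs a) (hF1 a)) (fun b => cnt' t b (ht b) (hF2 b))
    refine ⟨fun e => if h : e ∈ F then Fin.last n else (c ⟨e, h⟩).castSucc, ?_, ?_⟩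
    · intro a i
      induction i using Fin.lastCases with
      | last =>
        obtain ⟨e0, ⟨he0, hse0⟩, huniq⟩ := hF1 a
        refine ⟨e0, ⟨hse0, by simp [he0]⟩, ?_⟩
        rintro e ⟨he, hce⟩
        by_cases h : e ∈ F
        · exact huniq e ⟨h, he⟩
        · simp only [h, dite_false] at hce
          exact absurd hce (Fin.castSucc_lt_last _).ne
      | cast i =>
        obtain ⟨e0, ⟨hse0, hce0⟩, huniq⟩ := hc1 a i
        refine ⟨e0.1, ⟨hse0, by simp [e0.2, hce0]⟩, ?_⟩
        rintro e ⟨he, hce⟩
        by_cases h : e ∈ F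
        · simp only [h, dite_true] at hce
          exact absurd hce.symm (Fin.castSucc_lt_last _).ne
        · simp only [h, dite_false] at hce
          have := huniq ⟨e, h⟩ ⟨he, Fin.castSucc_injective _ hce⟩
          rw [← this]
    · intro a i
      induction i using Fin.lastCases with
      | last =>
        obtain ⟨e0, ⟨he0, hse0⟩, huniq⟩ := hF2 a
        refine ⟨e0, ⟨hse0, by simp [he0]⟩, ?_⟩
        rintro e ⟨he, hce⟩
        by_cases h : e ∈ F
        · exact huniq e ⟨h, he⟩
        · simp only [h, dite_false] at hce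
          exact absurd hce (Fin.castSucc_lt_last _).ne
      | cast i =>
        obtain ⟨e0, ⟨hse0, hce0⟩, huniq⟩ := hc2 a i
        refine ⟨e0.1, ⟨hse0, by simp [e0.2, hce0]⟩, ?_⟩
        rintro e ⟨he, hce⟩
        by_cases h : e ∈ F
        · simp only [h, dite_true] at hce
          exact absurd hce.symm (Fin.castSucc_lt_last _).ne
        · simp only [h, dite_false] at hce
          have := huniq ⟨e, h⟩ ⟨he, Fin.castSucc_injective _ hce⟩
          rw [← this]

/-- Koenig's theorem with an arbitrary colour set. -/
theorem konig {E : Type u} {A : Type v} {B : Type w} {C : Type*} [Fintype E]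
    [Fintype A] [DecidableEq A] [Fintype B] [DecidableEq B] [Fintype C]
    (s : E → A) (t : E → B)
    (hs : ∀ a, (univ.filter (fun e => s e = a)).card = Fintype.card C)
    (ht : ∀ b, (univ.filter (fun e => t e = b)).card = Fintype.card C) :
    ∃ c : E → C, (∀ a i, ∃! e, s e = a ∧ c e = i) ∧ (∀ b i, ∃! e, t e = b ∧ c e = i) := by
  classical
  obtain ⟨c, h1, h2⟩ := konig_fin (Fintype.card C) s t hs ht
  let ε := (Fintype.equivFin C).symm
  refine ⟨fun e => ε (c e), ?_, ?_⟩
  · intro a i
    obtain ⟨e, ⟨he, hc⟩, hu⟩ := h1 a (ε.symm i)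
    exact ⟨e, ⟨he, by simp [hc]⟩, fun e' ⟨he', hc'⟩ => hu e' ⟨he', by simp [← hc']⟩⟩
  · intro a i
    obtain ⟨e, ⟨he, hc⟩, hu⟩ := h2 a (ε.symm i)
    exact ⟨e, ⟨he, by simp [hc]⟩, fun e' ⟨he', hc'⟩ => hu e' ⟨he', by simp [← hc']⟩⟩

/-- Splitting a finite set of `(μ+1) n` elements into `μ+1` parts of size `n`, a given small
subset going into part `0`. -/
theorem split_set {E : Type*} [DecidableEq E] (n : ℕ) : ∀ (μ : ℕ) (S D : Finset E),
    S.card = (μ + 1) * n → D ⊆ S → D.card ≤ n →
    ∃ g : E → Fin (μ + 1), (∀ j, (S.filter (fun e => g e = j)).card = n) ∧ ∀ e ∈ D, g e = 0 := by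
  intro μ
  induction μ with
  | zero =>
    intro S D hS _ _
    refine ⟨fun _ => 0, ?_, fun _ _ => rfl⟩
    intro j
    have : j = 0 := Fin.ext (by have := j.isLt; change j.val = 0; omega)
    subst this
    simpa using hS
  | succ μ ih =>
    intro S D hS hD hDn
    have h1 : n ≤ (S \ D).card := by
      rw [Finset.card_sdiff_of_subset hD, hS]
      have : (μ + 1 + 1) * n = (μ + 1) * n + n := by ring
      have h2 : n ≤ (μ + 1) * n := Nat.le_mul_of_pos_left n (Nat.succ_pos μ)
      omega
    obtain ⟨A, hA, hAn⟩ := Finset.exists_subset_card_eq h1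
    have hAS : A ⊆ S := hA.trans Finset.sdiff_subset
    obtain ⟨g, hg, hg0⟩ := ih (S \ A) D (by
      rw [Finset.card_sdiff_of_subset hAS, hS, hAn]
      have : (μ + 1 + 1) * n = (μ + 1) * n + n := by ring
      omega) (by
        intro e he
        refine Finset.mem_sdiff.2 ⟨hD he, fun h => ?_⟩
        exact (Finset.mem_sdiff.1 (hA h)).2 he) hDn
    refine ⟨fun e => if e ∈ A then Fin.last _ else (g e).castSucc, ?_, ?_⟩
    · intro j
      induction j using Fin.lastCases with
      | last =>
        rw [← hAn]
        congr 1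
        ext e
        simp only [Finset.mem_filter]
        constructor
        · rintro ⟨_, h⟩
          by_contra hh
          rw [if_neg hh] at h
          exact absurd h (Fin.castSucc_lt_last _).ne
        · intro h
          exact ⟨hAS h, by rw [if_pos h]⟩
      | cast j =>
        rw [← hg j]
        congr 1
        ext e
        simp only [Finset.mem_filter, Finset.mem_sdiff]
        constructor
        · rintro ⟨h1, h⟩
          by_cases hh : e ∈ A
          · rw [if_pos hh] at h
            exact absurd h.symm (Fin.castSucc_lt_last _).ne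
          · rw [if_neg hh] at h
            exact ⟨⟨h1, hh⟩, Fin.castSucc_injective _ h⟩
        · rintro ⟨⟨h1, h2⟩, h3⟩
          exact ⟨h1, by rw [if_neg h2, h3]⟩
    · intro e he
      have : e ∉ A := fun h => (Finset.mem_sdiff.1 (hA h)).2 he
      simp [this, hg0 e he]

end Pool.Agent.Bireg91
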